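import Pool.Agent.H828R2.SS.Defs

/-! # Task L : elementary facts on `lam` and `mm` (helper310) -/

open Set Real

namespace H828SS

variable {g : ℂ → ℝ}

theorem vtx_cont (k : Fin 4) :
    Continuous fun p : ℝ × ℝ × ℝ => vtx k p.1 p.2.1 p.2.2 := by
  unfold vtx
  fun_prop

theorem lam_cont (hg : Gauge g) (k : Fin 4) :
    Continuous fun p : ℝ × ℝ × ℝ => lam g k p.1 p.2.1 p.2.2 :=
  hg.cont.comp (vtx_cont k)

theorem exp_pi_div_two (φ : ℝ) :
    Complex.exp (((φ + π / 2 : ℝ) : ℂ) * Complex.I) =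
      Complex.exp ((φ : ℂ) * Complex.I) * Complex.I := by
  have h : (((φ + π / 2 : ℝ) : ℂ) * Complex.I) = (φ : ℂ) * Complex.I + (π : ℂ) / 2 * Complex.I := by
    push_cast; ring
  rw [h, Complex.exp_add, Complex.exp_pi_div_two_mul_I]

theorem vtx_rot (k : Fin 4) (x y φ : ℝ) :
    vtx k y (-x) (φ + π / 2) = vtx (k + 1) x y φ := by
  unfold vtx
  rw [exp_pi_div_two, mul_assoc]
  congr 1
  have hI : Complex.I * Complex.I = -1 := Complex.I_mul_I
  fin_cases k <;> simp [ca, cb] <;> ring_nf <;> simp [Complex.I_sq] <;> ring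

theorem lam_rot (g : ℂ → ℝ) (k : Fin 4) (x y φ : ℝ) :
    lam g k y (-x) (φ + π / 2) = lam g (k + 1) x y φ := by
  unfold lam
  rw [vtx_rot]

theorem exp_two_pi (φ : ℝ) :
    Complex.exp (((φ + 2 * π : ℝ) : ℂ) * Complex.I) = Complex.exp ((φ : ℂ) * Complex.I) := by
  have h : (((φ + 2 * π : ℝ) : ℂ) * Complex.I) = (φ : ℂ) * Complex.I + 2 * (π : ℂ) * Complex.I := by
    push_cast; ring
  rw [h, Complex.exp_add, Complex.exp_two_pi_mul_I, mul_one]

theorem lam_per (g : ℂ → ℝ) (k : Fin 4) (x y φ : ℝ) :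
    lam g k x y (φ + 2 * π) = lam g k x y φ := by
  unfold lam vtx
  rw [exp_two_pi]

theorem one_add_cb_nonneg (k : Fin 4) : 0 ≤ 1 + cb k := by
  fin_cases k <;> simp [cb]

theorem vtx_ne_zero (k : Fin 4) (x y φ : ℝ) (h : y + cb k ≠ 0) : vtx k x y φ ≠ 0 := by
  unfold vtx
  refine mul_ne_zero (Complex.exp_ne_zero _) ?_
  intro h0
  apply h
  have := congrArg Complex.im h0
  simpa using this

theorem lam_pos (hg : Gauge g) (k : Fin 4) {x y : ℝ} (hy : 1 < y) (φ : ℝ) :
    0 < lam g k x y φ := by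
  unfold lam
  apply hg.pos
  apply vtx_ne_zero
  have := one_add_cb_nonneg k
  intro h; linarith

theorem lam_face_left (hg : Gauge g) {y : ℝ} (hy : 1 ≤ y) (φ : ℝ) :
    lam g 3 (-1) y φ < lam g 0 (-1) y φ := by
  have hpos : 0 < g (Complex.exp ((φ : ℂ) * Complex.I) * Complex.I) :=
    hg.pos _ (mul_ne_zero (Complex.exp_ne_zero _) Complex.I_ne_zero)
  have h3 : vtx 3 (-1) y φ = ((y - 1 : ℝ) : ℂ) * (Complex.exp ((φ : ℂ) * Complex.I) * Complex.I) := by
    unfold vtx
    simp [ca, cb]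
    ring
  have h0 : vtx 0 (-1) y φ = ((y + 1 : ℝ) : ℂ) * (Complex.exp ((φ : ℂ) * Complex.I) * Complex.I) := by
    unfold vtx
    simp [ca, cb]
    ring
  unfold lam
  rw [h3, h0, hg.hom _ _ (by linarith), hg.hom _ _ (by linarith)]
  nlinarith

theorem lam_face_right (hg : Gauge g) {y : ℝ} (hy : 1 ≤ y) (φ : ℝ) :
    lam g 2 1 y φ < lam g 1 1 y φ := by
  have hpos : 0 < g (Complex.exp ((φ : ℂ) * Complex.I) * Complex.I) :=
    hg.pos _ (mul_ne_zero (Complex.exp_ne_zero _) Complex.I_ne_zero)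
  have h3 : vtx 2 1 y φ = ((y - 1 : ℝ) : ℂ) * (Complex.exp ((φ : ℂ) * Complex.I) * Complex.I) := by
    unfold vtx
    simp [ca, cb]
    ring
  have h0 : vtx 1 1 y φ = ((y + 1 : ℝ) : ℂ) * (Complex.exp ((φ : ℂ) * Complex.I) * Complex.I) := by
    unfold vtx
    simp [ca, cb]
    ring
  unfold lam
  rw [h3, h0, hg.hom _ _ (by linarith), hg.hom _ _ (by linarith)]
  nlinarith

theorem dir_ne_zero (θ : ℝ) : Complex.I * Complex.exp ((θ : ℂ) * Complex.I) ≠ 0 :=
  mul_ne_zero Complex.I_ne_zero (Complex.exp_ne_zero _)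

theorem hh_cont (hg : Gauge g) : Continuous (hh g) := by
  have h1 : Continuous fun θ : ℝ => g (Complex.I * Complex.exp ((θ : ℂ) * Complex.I)) :=
    hg.cont.comp (by fun_prop)
  unfold hh
  refine Continuous.div continuous_const (continuous_const.mul (h1.pow 2)) ?_
  intro θ
  have := hg.pos _ (dir_ne_zero θ)
  positivity

theorem hh_pos (hg : Gauge g) (θ : ℝ) : 0 < hh g θ := by
  have := hg.pos _ (dir_ne_zero θ)
  unfold hh
  positivity

theorem hh_per (g : ℂ → ℝ) (θ : ℝ) : hh g (θ + 2 * π) = hh g θ := by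
  unfold hh
  rw [exp_two_pi]

theorem max_add_cb_pos (k : Fin 4) (η : ℝ) : 0 < max η 2 + cb k := by
  have h1 := one_add_cb_nonneg k
  have h2 : (2 : ℝ) ≤ max η 2 := le_max_right _ _
  linarith

theorem ww_pos (k : Fin 4) (x η : ℝ) : 0 < ww k x η := by
  unfold ww
  have := max_add_cb_pos k η
  positivity

/-- polar form of the corner -/
theorem vtx_polar (k : Fin 4) (x : ℝ) {y : ℝ} (hy : 2 ≤ y) (φ : ℝ) :
    vtx k x y φ = ((Real.sqrt (ww k x y) : ℝ) : ℂ) *
      (Complex.I * Complex.exp (((φ - beta k x y : ℝ) : ℂ) * Complex.I)) := by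
  have hmax : max y 2 = y := max_eq_left hy
  have hpos : 0 < y + cb k := by
    have := max_add_cb_pos k y
    rwa [hmax] at this
  have hww : ww k x y = (x + ca k) ^ 2 + (y + cb k) ^ 2 := by
    unfold ww; rw [hmax]
  have hs : Real.sqrt (ww k x y) = (y + cb k) * Real.sqrt (1 + ((x + ca k) / (y + cb k)) ^ 2) := by
    rw [hww]
    have : (x + ca k) ^ 2 + (y + cb k) ^ 2 =
        (y + cb k) ^ 2 * (1 + ((x + ca k) / (y + cb k)) ^ 2) := by
      field_simp
      ring
    rw [this, Real.sqrt_mul (by positivity), Real.sqrt_sq hpos.le]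
  have hsq : 0 < Real.sqrt (1 + ((x + ca k) / (y + cb k)) ^ 2) := Real.sqrt_pos.mpr (by positivity)
  have hc : Real.sqrt (ww k x y) * Real.cos (beta k x y) = y + cb k := by
    unfold beta
    rw [hmax, Real.cos_arctan, hs]
    field_simp
  have hsn : Real.sqrt (ww k x y) * Real.sin (beta k x y) = x + ca k := by
    unfold beta
    rw [hmax, Real.sin_arctan, hs]
    field_simp
  have he : Complex.exp (((φ - beta k x y : ℝ) : ℂ) * Complex.I) =
      Complex.exp ((φ : ℂ) * Complex.I) *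
        ((Real.cos (beta k x y) : ℂ) - (Real.sin (beta k x y) : ℂ) * Complex.I) := by
    have : (((φ - beta k x y : ℝ) : ℂ) * Complex.I) =
        (φ : ℂ) * Complex.I + ((-beta k x y : ℝ) : ℂ) * Complex.I := by
      push_cast; ring
    rw [this, Complex.exp_add, Complex.exp_mul_I (((-beta k x y : ℝ) : ℂ)), ← Complex.ofReal_cos,
      ← Complex.ofReal_sin, Real.cos_neg, Real.sin_neg]
    push_cast
    ring
  rw [he]
  unfold vtx
  rw [← hc, ← hsn]
  push_cast
  have hI : Complex.I * Complex.I = -1 := Complex.I_mul_I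
  linear_combination (Complex.exp ((φ : ℂ) * Complex.I) * (Real.sqrt (ww k x y) : ℂ) *
    Complex.sin ((beta k x y : ℝ) : ℂ)) * hI

theorem lam_mm (hg : Gauge g) (k : Fin 4) (x : ℝ) {y : ℝ} (hy : 2 ≤ y) (φ : ℝ) :
    mm g k φ x y = 1 / (2 * lam g k x y φ ^ 2) := by
  have hw := ww_pos k x y
  have hp := hg.pos _ (dir_ne_zero (φ - beta k x y))
  unfold mm lam hh
  rw [vtx_polar k x hy φ, hg.hom _ _ (Real.sqrt_nonneg _), mul_pow, Real.sq_sqrt hw.le]
  field_simp

end H828SS
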