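import Pool.Agent.H828R2.SS.Defs

/-!
# Task T (helper880): topological lemma from the parity lemma
-/

open Set Real

namespace H828SS

/-- the parity lemma (task P) as a statement -/
def T4Parity : Prop :=
  ∀ (n m T : ℕ) (_ : 0 < n) (_ : 0 < m) (_ : 0 < T) (ℓ : ℕ → ℕ → ℕ → Fin 4)
    (_ : ∀ i j l, ℓ i (j + 4 * n) l = ℓ i j l)
    (_ : ∀ i j, i ≤ m → ℓ i j T = ℓ i (j + n) 0 - 1)
    (_ : ∀ j l, ℓ 0 j l = ℓ 0 0 l)
    (_ : ∀ j l, j ≤ n → l ≤ T → ℓ m j l ≠ 2)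
    (_ : ∀ j l, n ≤ j → j ≤ 2 * n → l ≤ T → ℓ m j l ≠ 3)
    (_ : ∀ j l, 2 * n ≤ j → j ≤ 3 * n → l ≤ T → ℓ m j l ≠ 0)
    (_ : ∀ j l, 3 * n ≤ j → j ≤ 4 * n → l ≤ T → ℓ m j l ≠ 1),
    ∃ i < m, ∃ j < 4 * n, ∃ l < T, ∀ k : Fin 4,
      ∃ di ≤ 1, ∃ dj ≤ 1, ∃ dl ≤ 1, ℓ (i + di) (j + dj) (l + dl) = k

/-- a place where the maximum is attained -/
noncomputable def t4lab (v : Fin 4 → ℝ) : Fin 4 := Classical.choose (Finite.exists_max v)

theorem t4lab_spec (v : Fin 4 → ℝ) (j : Fin 4) : v j ≤ v (t4lab v) :=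
  Classical.choose_spec (Finite.exists_max v) j

/-- the oscillation -/
noncomputable def t4gap (v : Fin 4 → ℝ) : ℝ := ∑ j, ∑ k, |v j - v k|

theorem t4gap_cont : Continuous t4gap := by
  unfold t4gap
  fun_prop

theorem t4gap_pos {v : Fin 4 → ℝ} (h : ∃ j k, v j ≠ v k) : 0 < t4gap v := by
  obtain ⟨j, k, hjk⟩ := h
  have h1 : 0 < |v j - v k| := abs_pos.2 (sub_ne_zero.2 hjk)
  have h2 : |v j - v k| ≤ ∑ k, |v j - v k| :=
    Finset.single_le_sum (f := fun k => |v j - v k|) (fun _ _ => abs_nonneg _) (Finset.mem_univ k)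
  have h3 : ∑ k, |v j - v k| ≤ t4gap v :=
    Finset.single_le_sum (f := fun j => ∑ k, |v j - v k|)
      (fun _ _ => Finset.sum_nonneg fun _ _ => abs_nonneg _) (Finset.mem_univ j)
  linarith

theorem t4gap_le {v : Fin 4 → ℝ} {c : ℝ} (h : ∀ j k, |v j - v k| ≤ c) : t4gap v ≤ 16 * c := by
  unfold t4gap
  calc ∑ j : Fin 4, ∑ k : Fin 4, |v j - v k| ≤ ∑ _j : Fin 4, ∑ _k : Fin 4, c :=
        Finset.sum_le_sum fun j _ => Finset.sum_le_sum fun k _ => h j k
    _ = 16 * c := by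
        simp only [Finset.sum_const, Finset.card_univ, Fintype.card_fin, nsmul_eq_mul]
        push_cast
        ring

theorem topo4_of_parity (parity : T4Parity) (Ψ : ℝ → ℝ → ℝ → (Fin 4 → ℝ))
    (hc : Continuous fun p : ℝ × ℝ × ℝ => Ψ p.1 p.2.1 p.2.2)
    (hper : ∀ r a t, Ψ r (a + 4) t = Ψ r a t)
    (heq : ∀ r a t k, Ψ r (a - 1) (t + 1) k = Ψ r a t (k + 1))
    (h0 : ∀ a t, Ψ 0 a t = Ψ 0 0 t)
    (hb : ∀ a ∈ Icc (0 : ℝ) 1, ∀ t, ∃ j, Ψ 1 a t 2 < Ψ 1 a t j) :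
    ∃ r ∈ Icc (0 : ℝ) 1, ∃ a t, ∀ j k, Ψ r a t j = Ψ r a t k := by
  classical
  by_contra hcon
  push Not at hcon
  -- boundary conditions
  have hb3 : ∀ a ∈ Icc (1 : ℝ) 2, ∀ t, ∃ j, Ψ 1 a t 3 < Ψ 1 a t j := by
    intro a ha t
    obtain ⟨j, hj⟩ := hb (a - 1) ⟨by linarith [ha.1], by linarith [ha.2]⟩ (t + 1)
    rw [heq, heq] at hj
    exact ⟨j + 1, hj⟩
  have hb0 : ∀ a ∈ Icc (2 : ℝ) 3, ∀ t, ∃ j, Ψ 1 a t 0 < Ψ 1 a t j := by
    intro a ha t
    obtain ⟨j, hj⟩ := hb3 (a - 1) ⟨by linarith [ha.1], by linarith [ha.2]⟩ (t + 1)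
    rw [heq, heq] at hj
    exact ⟨j + 1, hj⟩
  have hb1 : ∀ a ∈ Icc (3 : ℝ) 4, ∀ t, ∃ j, Ψ 1 a t 1 < Ψ 1 a t j := by
    intro a ha t
    obtain ⟨j, hj⟩ := hb0 (a - 1) ⟨by linarith [ha.1], by linarith [ha.2]⟩ (t + 1)
    rw [heq, heq] at hj
    exact ⟨j + 1, hj⟩
  -- compactness
  set K : Set (ℝ × ℝ × ℝ) := Icc (0 : ℝ) 1 ×ˢ (Icc (0 : ℝ) 4 ×ˢ Icc (0 : ℝ) 1) with hK
  have hKc : IsCompact K := isCompact_Icc.prod (isCompact_Icc.prod isCompact_Icc)
  have hKne : K.Nonempty := ⟨(0, 0, 0), by simp [hK]⟩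
  obtain ⟨p0, hp0, hmin⟩ := hKc.exists_isMinOn hKne
    ((t4gap_cont.comp hc).continuousOn (s := K))
  set δ := t4gap (Ψ p0.1 p0.2.1 p0.2.2) with hδ
  have hδpos : 0 < δ := t4gap_pos (hcon p0.1 hp0.1 p0.2.1 p0.2.2)
  have hδle : ∀ p ∈ K, δ ≤ t4gap (Ψ p.1 p.2.1 p.2.2) := fun p hp => hmin hp
  have huc := hKc.uniformContinuousOn_of_continuous (hc.continuousOn (s := K))
  rw [Metric.uniformContinuousOn_iff] at huc
  obtain ⟨η, hη, huc⟩ := huc (δ / 64) (by positivity)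
  obtain ⟨n0, hn0⟩ := exists_nat_one_div_lt hη
  set n := n0 + 1 with hn
  have hnpos : 0 < n := Nat.succ_pos _
  have hnR : (0 : ℝ) < (n : ℝ) := by exact_mod_cast hnpos
  have hnη : 1 / (n : ℝ) < η := by rw [hn]; push_cast; exact hn0
  -- labels
  set pt : ℕ → ℕ → ℕ → (Fin 4 → ℝ) := fun i j k => Ψ (i / n) (j / n) (k / n) with hpt
  set ℓ : ℕ → ℕ → ℕ → Fin 4 := fun i j k =>
    if k = n then t4lab (pt i (j + n) 0) - 1 else t4lab (pt i j k) with hℓ
  have hℓspec : ∀ i j k c, pt i j k c ≤ pt i j k (ℓ i j k) := by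
    intro i j k c
    by_cases hk : k = n
    · have e : ∀ c, pt i j k c = pt i (j + n) 0 (c + 1) := by
        intro c
        have h1 := heq (i / n) ((j + n : ℕ) / n) 0 c
        have h2 : (((j + n : ℕ) : ℝ) / n) - 1 = j / n := by
          push_cast
          field_simp
          ring
        have h3 : (0 : ℝ) + 1 = (k : ℝ) / n := by
          rw [hk]
          field_simp
          ring
        rw [h2, h3] at h1
        simp only [hpt]
        rw [h1]
        simp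
      rw [e, e]
      have : ℓ i j k + 1 = t4lab (pt i (j + n) 0) := by
        simp only [hℓ, if_pos hk, sub_add_cancel]
      rw [this]
      exact t4lab_spec _ _
    · simp only [hℓ, if_neg hk]
      exact t4lab_spec _ _
  have h1n : ((n : ℕ) : ℝ) / n = 1 := div_self hnR.ne'
  obtain ⟨i, hi, j, hj, l, hl, hall⟩ := parity n n n hnpos hnpos hnpos ℓ
    (by
      have key : ∀ i j k, pt i (j + 4 * n) k = pt i j k := by
        intro i j k
        simp only [hpt]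
        have : (((j + 4 * n : ℕ) : ℝ) / n) = j / n + 4 := by
          push_cast
          field_simp
        rw [this, hper]
      intro i j l
      simp only [hℓ]
      rw [key, show j + 4 * n + n = (j + n) + 4 * n by ring, key])
    (by
      intro i j _
      simp only [hℓ, if_true]
      rw [if_neg hnpos.ne])
    (by
      have key : ∀ j k, pt 0 j k = pt 0 0 k := by
        intro j k
        simp only [hpt, Nat.cast_zero, zero_div]
        exact h0 _ _
      intro j l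
      simp only [hℓ]
      rw [key j l, key (j + n) 0, key (0 + n) 0])
    (by
      intro j l hj _ h
      have h2 := hℓspec n j l
      rw [h] at h2
      simp only [hpt, h1n] at h2
      obtain ⟨c, hcc⟩ := hb (j / n) ⟨by positivity, by
        rw [div_le_one hnR]; exact_mod_cast hj⟩ (l / n)
      exact absurd (h2 c) (not_le.2 hcc))
    (by
      intro j l hj hj' _ h
      have h2 := hℓspec n j l
      rw [h] at h2
      simp only [hpt, h1n] at h2
      obtain ⟨c, hcc⟩ := hb3 (j / n) ⟨by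
        rw [le_div_iff₀ hnR, one_mul]; exact_mod_cast hj, by
        rw [div_le_iff₀ hnR]; exact_mod_cast hj'⟩ (l / n)
      exact absurd (h2 c) (not_le.2 hcc))
    (by
      intro j l hj hj' _ h
      have h2 := hℓspec n j l
      rw [h] at h2
      simp only [hpt, h1n] at h2
      obtain ⟨c, hcc⟩ := hb0 (j / n) ⟨by
        rw [le_div_iff₀ hnR]; exact_mod_cast hj, by
        rw [div_le_iff₀ hnR]; exact_mod_cast hj'⟩ (l / n)
      exact absurd (h2 c) (not_le.2 hcc))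
    (by
      intro j l hj hj' _ h
      have h2 := hℓspec n j l
      rw [h] at h2
      simp only [hpt, h1n] at h2
      obtain ⟨c, hcc⟩ := hb1 (j / n) ⟨by
        rw [le_div_iff₀ hnR]; exact_mod_cast hj, by
        rw [div_le_iff₀ hnR]; exact_mod_cast hj'⟩ (l / n)
      exact absurd (h2 c) (not_le.2 hcc))
  -- the cell
  have hmem : ∀ di ≤ 1, ∀ dj ≤ 1, ∀ dl ≤ 1,
      ((((i + di : ℕ) : ℝ) / n, ((j + dj : ℕ) : ℝ) / n, ((l + dl : ℕ) : ℝ) / n) :
        ℝ × ℝ × ℝ) ∈ K := by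
    intro di hdi dj hdj dl hdl
    refine ⟨⟨by positivity, ?_⟩, ⟨by positivity, ?_⟩, ⟨by positivity, ?_⟩⟩
    · rw [div_le_iff₀ hnR, one_mul]
      exact_mod_cast (by omega : i + di ≤ n)
    · rw [div_le_iff₀ hnR]
      exact_mod_cast (by omega : j + dj ≤ 4 * n)
    · rw [div_le_iff₀ hnR, one_mul]
      exact_mod_cast (by omega : l + dl ≤ n)
  have hdist : ∀ (i di : ℕ), di ≤ 1 →
      dist (((i + 0 : ℕ) : ℝ) / n) (((i + di : ℕ) : ℝ) / n) < η := by
    intro i di hdi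
    rw [Real.dist_eq, ← sub_div, abs_div, abs_of_pos hnR]
    push_cast
    have h5 : |(i : ℝ) + 0 - (i + di)| ≤ 1 := by
      have : (i : ℝ) + 0 - (i + di) = -(di : ℝ) := by ring
      rw [this, abs_neg, abs_of_nonneg (by positivity)]
      exact_mod_cast hdi
    calc |(i : ℝ) + 0 - (i + di)| / n ≤ 1 / n := by
          exact div_le_div_of_nonneg_right h5 hnR.le
      _ < η := hnη
  have hclose : ∀ di ≤ 1, ∀ dj ≤ 1, ∀ dl ≤ 1, ∀ c,
      |pt (i + 0) (j + 0) (l + 0) c - pt (i + di) (j + dj) (l + dl) c| ≤ δ / 64 := by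
    intro di hdi dj hdj dl hdl c
    have h6 := huc _ (hmem 0 (by norm_num) 0 (by norm_num) 0 (by norm_num)) _
      (hmem di hdi dj hdj dl hdl) (by
        rw [Prod.dist_eq, Prod.dist_eq]
        exact max_lt (hdist i di hdi) (max_lt (hdist j dj hdj) (hdist l dl hdl)))
    refine le_trans ?_ h6.le
    rw [← Real.dist_eq]
    exact dist_le_pi_dist _ _ c
  have hsmall : ∀ c d, |pt (i + 0) (j + 0) (l + 0) c - pt (i + 0) (j + 0) (l + 0) d| ≤
      δ / 32 := by
    have hone : ∀ c d, pt (i + 0) (j + 0) (l + 0) c - pt (i + 0) (j + 0) (l + 0) d ≤ δ / 32 := by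
      intro c d
      obtain ⟨di, hdi, dj, hdj, dl, hdl, hd⟩ := hall d
      have h7 := hℓspec (i + di) (j + dj) (l + dl) c
      rw [hd] at h7
      have h8 := (abs_le.1 (hclose di hdi dj hdj dl hdl c)).2
      have h9 := (abs_le.1 (hclose di hdi dj hdj dl hdl d)).1
      linarith
    intro c d
    rw [abs_le]
    exact ⟨by linarith [hone d c], hone c d⟩
  have h10 := hδle _ (hmem 0 (by norm_num) 0 (by norm_num) 0 (by norm_num))
  have h11 := t4gap_le hsmall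
  simp only [hpt] at h11
  linarith

end H828SS
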