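import Pool.Agent.H828R2.SS.Defs
import Pool.Agent.H828R2.SS.Lam
import Pool.Agent.H828R2.SS.Topo4

/-! Task A : assembly of the topological argument (helper259). -/

open Set Real

namespace H828SS

/-- clamp to `[-M, M]`. -/
noncomputable def clp (t M : ℝ) : ℝ := max (-M) (min M t)

/-- clamp to `[0, 1]`. -/
noncomputable def c01 (t : ℝ) : ℝ := max 0 (min 1 t)

theorem clp_neg (t : ℝ) {M : ℝ} (hM : 0 ≤ M) : clp (-t) M = -clp t M := by
  unfold clp
  rcases le_total t M with h1 | h1 <;> rcases le_total (-M) t with h2 | h2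
  · rw [min_eq_right h1, max_eq_right h2, min_eq_right (by linarith), max_eq_right (by linarith)]
  · rw [min_eq_right h1, max_eq_left h2, min_eq_left (by linarith), max_eq_right (by linarith),
      neg_neg]
  · rw [min_eq_left h1, min_eq_right (by linarith), max_eq_left (by linarith),
      max_eq_right (by linarith)]
  · have : M = t := by linarith
    rw [min_eq_left h1, min_eq_right (by linarith), max_eq_left (by linarith),
      max_eq_right (by linarith)]

theorem clp_of_mem {t M : ℝ} (h1 : -M ≤ t) (h2 : t ≤ M) : clp t M = t := by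
  unfold clp
  rw [min_eq_right h2, max_eq_right h1]

theorem clp_of_ge {t M : ℝ} (hM : 0 ≤ M) (h : M ≤ t) : clp t M = M := by
  unfold clp
  rw [min_eq_left h, max_eq_right (by linarith)]

theorem clp_le {t M : ℝ} (hM : 0 ≤ M) : clp t M ≤ M := by
  unfold clp
  exact max_le (by linarith) (min_le_left _ _)

theorem clp_ge {t M : ℝ} : -M ≤ clp t M := le_max_left _ _

theorem c01_mem (t : ℝ) : c01 t ∈ Icc (0 : ℝ) 1 :=
  ⟨le_max_left _ _, max_le zero_le_one (min_le_left _ _)⟩

theorem c01_of_nonpos {t : ℝ} (h : t ≤ 0) : c01 t = 0 := by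
  unfold c01
  rw [min_eq_right (by linarith), max_eq_left h]

theorem c01_one : c01 1 = 1 := by
  unfold c01; simp

theorem clp_cont {α : Type*} [TopologicalSpace α] {f h : α → ℝ} (hf : Continuous f)
    (hh : Continuous h) : Continuous fun a => clp (f a) (h a) := by
  unfold clp
  fun_prop

theorem c01_cont {α : Type*} [TopologicalSpace α] {f : α → ℝ} (hf : Continuous f) :
    Continuous fun a => c01 (f a) := by
  unfold c01
  fun_prop

/-- the correction on an arm. -/
noncomputable def DD (g : ℂ → ℝ) (H : ℝ → ℝ → ℝ → (Fin 4 → ℝ)) (R s x φ : ℝ) (k : Fin 4) : ℝ :=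
  H (c01 s) (clp x 1) φ k - lam g k (clp x 1) R φ

/-- the extended map. -/
noncomputable def WW (g : ℂ → ℝ) (H : ℝ → ℝ → ℝ → (Fin 4 → ℝ)) (R x y φ : ℝ) (k : Fin 4) : ℝ :=
  lam g k (clp x R) (clp y R) φ + DD g H R (y - R) x φ k
    + DD g H R (x - R) (-y) (φ - π / 2) (k + 1)
    + DD g H R (-y - R) (-x) (φ - π) (k + 2)
    + DD g H R (-x - R) y (φ - 3 * π / 2) (k + 3)

/-- fold the plane onto the cross. -/
noncomputable def fm (x y : ℝ) : ℝ := max 0 (min |x| |y| - 1)

noncomputable def fx (x y : ℝ) : ℝ := x - clp x (fm x y)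

theorem fm_nonneg (x y : ℝ) : 0 ≤ fm x y := le_max_left _ _

theorem fm_comm (x y : ℝ) : fm y x = fm x y := by
  unfold fm; rw [min_comm]

theorem fm_neg_left (x y : ℝ) : fm (-x) y = fm x y := by
  unfold fm; rw [abs_neg]

theorem fm_neg_right (x y : ℝ) : fm x (-y) = fm x y := by
  unfold fm; rw [abs_neg]

theorem fx_neg_left (x y : ℝ) : fx (-x) y = -fx x y := by
  unfold fx
  rw [fm_neg_left, clp_neg _ (fm_nonneg _ _)]; ring

theorem fx_neg_right (x y : ℝ) : fx x (-y) = fx x y := by
  unfold fx
  rw [fm_neg_right]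

theorem abs_fx (x y : ℝ) : |fx x y| = max 0 (|x| - fm x y) := by
  have key : ∀ x y : ℝ, 0 ≤ x → |fx x y| = max 0 (|x| - fm x y) := by
    intro x y hx
    have hm := fm_nonneg x y
    unfold fx
    rw [abs_of_nonneg hx]
    rcases le_total x (fm x y) with h | h
    · rw [clp_of_mem (by linarith) h, sub_self, abs_zero, max_eq_left (by linarith)]
    · rw [clp_of_ge hm h, abs_of_nonneg (by linarith), max_eq_right (by linarith)]
  rcases le_total 0 x with hx | hx
  · exact key x y hx
  · have := key (-x) y (by linarith)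
    rwa [fx_neg_left, abs_neg, fm_neg_left, abs_neg] at this

theorem fold_cross (x y : ℝ) : |fx x y| ≤ 1 ∨ |fx y x| ≤ 1 := by
  rw [abs_fx, abs_fx, fm_comm x y]
  unfold fm
  rcases le_total |x| |y| with h | h
  · left
    rw [min_eq_left h]
    apply max_le zero_le_one
    have := le_max_right 0 (|x| - 1)
    linarith
  · right
    rw [min_eq_right h]
    apply max_le zero_le_one
    have := le_max_right 0 (|y| - 1)
    linarith

section

variable {g : ℂ → ℝ}

theorem DD_cont (hlc : ∀ k, Continuous fun p : ℝ × ℝ × ℝ => lam g k p.1 p.2.1 p.2.2)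
    {H : ℝ → ℝ → ℝ → (Fin 4 → ℝ)}
    (hH : Continuous fun p : ℝ × ℝ × ℝ => H p.1 p.2.1 p.2.2) (R : ℝ) (k : Fin 4)
    {α : Type*} [TopologicalSpace α] {s x φ : α → ℝ} (hs : Continuous s) (hx : Continuous x)
    (hφ : Continuous φ) : Continuous fun a => DD g H R (s a) (x a) (φ a) k := by
  unfold DD
  have h1 : Continuous fun a => H (c01 (s a)) (clp (x a) 1) (φ a) k := by
    have : Continuous fun a => (c01 (s a), clp (x a) 1, φ a) :=
      (c01_cont hs).prodMk ((clp_cont hx continuous_const).prodMk hφ)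
    exact (continuous_apply k).comp (hH.comp this)
  have h2 : Continuous fun a => lam g k (clp (x a) 1) R (φ a) := by
    have : Continuous fun a => (clp (x a) 1, R, φ a) :=
      (clp_cont hx continuous_const).prodMk (continuous_const.prodMk hφ)
    exact (hlc k).comp this
  exact h1.sub h2

theorem WW_cont (hlc : ∀ k, Continuous fun p : ℝ × ℝ × ℝ => lam g k p.1 p.2.1 p.2.2)
    {H : ℝ → ℝ → ℝ → (Fin 4 → ℝ)}
    (hH : Continuous fun p : ℝ × ℝ × ℝ => H p.1 p.2.1 p.2.2) (R : ℝ) (k : Fin 4)
    {α : Type*} [TopologicalSpace α] {x y φ : α → ℝ} (hx : Continuous x) (hy : Continuous y)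
    (hφ : Continuous φ) : Continuous fun a => WW g H R (x a) (y a) (φ a) k := by
  unfold WW
  have h0 : Continuous fun a => lam g k (clp (x a) R) (clp (y a) R) (φ a) := by
    have : Continuous fun a => (clp (x a) R, clp (y a) R, φ a) :=
      (clp_cont hx continuous_const).prodMk ((clp_cont hy continuous_const).prodMk hφ)
    exact (hlc k).comp this
  have h1 := DD_cont hlc hH R k (hy.sub (continuous_const (y := R))) hx hφ
  have h2 := DD_cont hlc hH R (k + 1) (hx.sub (continuous_const (y := R))) hy.neg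
    (hφ.sub (continuous_const (y := π / 2)))
  have h3 := DD_cont hlc hH R (k + 2) (hy.neg.sub (continuous_const (y := R))) hx.neg
    (hφ.sub (continuous_const (y := π)))
  have h4 := DD_cont hlc hH R (k + 3) (hx.neg.sub (continuous_const (y := R))) hy
    (hφ.sub (continuous_const (y := 3 * π / 2)))
  exact (((h0.add h1).add h2).add h3).add h4

end

theorem assemble_of {g : ℂ → ℝ}
    (topo4 : ∀ (Ψ : ℝ → ℝ → ℝ → (Fin 4 → ℝ))
    (_hc : Continuous fun p : ℝ × ℝ × ℝ => Ψ p.1 p.2.1 p.2.2)
    (_hper : ∀ r a t, Ψ r (a + 4) t = Ψ r a t)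
    (_heq : ∀ r a t k, Ψ r (a - 1) (t + 1) k = Ψ r a t (k + 1))
    (_h0 : ∀ a t, Ψ 0 a t = Ψ 0 0 t)
    (_hb : ∀ a ∈ Icc (0 : ℝ) 1, ∀ t, ∃ j, Ψ 1 a t 2 < Ψ 1 a t j),
    ∃ r ∈ Icc (0 : ℝ) 1, ∃ a t, ∀ j k, Ψ r a t j = Ψ r a t k)
    (lam_cont : ∀ k, Continuous fun p : ℝ × ℝ × ℝ => lam g k p.1 p.2.1 p.2.2)
    (lam_rot : ∀ (k : Fin 4) (x y φ : ℝ), lam g k y (-x) (φ + π / 2) = lam g (k + 1) x y φ)
    (lam_per : ∀ (k : Fin 4) (x y φ : ℝ), lam g k x y (φ + 2 * π) = lam g k x y φ)
    (lam_face_left : ∀ {y : ℝ} (_ : 1 ≤ y) (φ : ℝ), lam g 3 (-1) y φ < lam g 0 (-1) y φ)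
    (lam_face_right : ∀ {y : ℝ} (_ : 1 ≤ y) (φ : ℝ), lam g 2 1 y φ < lam g 1 1 y φ)
    (hns : NoSq g) {R : ℝ} (hR : 1 < R)
    (h : Htp Good (fun x φ k => lam g k x R φ) (fun _ _ => ![1, 1, 0, 0])) : False := by
  obtain ⟨H, hHc, hH0, hH1, hHG⟩ := h
  have hR0 : 0 ≤ R := by linarith
  -- vanishing and periodicity of `DD`
  have DD0 : ∀ s x φ k, s ≤ 0 → DD g H R s x φ k = 0 := by
    intro s x φ k hs
    unfold DD
    rw [c01_of_nonpos hs, hH0, sub_self]
  have DDper : ∀ s x φ k, DD g H R s x (φ + 2 * π) k = DD g H R s x φ k := by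
    intro s x φ k
    unfold DD
    rw [(hHG _ (c01_mem s)).2.2.2, lam_per]
  -- equivariance of `WW`
  have Weq : ∀ x y φ k, WW g H R y (-x) (φ + π / 2) k = WW g H R x y φ (k + 1) := by
    intro x y φ k
    unfold WW
    have e1 : lam g k (clp y R) (clp (-x) R) (φ + π / 2) = lam g (k + 1) (clp x R) (clp y R) φ := by
      rw [clp_neg _ hR0, lam_rot]
    have e2 : DD g H R (-x - R) y (φ + π / 2) k = DD g H R (-x - R) y (φ - 3 * π / 2) k := by
      rw [← DDper _ _ (φ - 3 * π / 2)]
      congr 1; ring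
    have e3 : (φ + π / 2 - π / 2) = φ := by ring
    have e4 : (φ + π / 2 - π) = φ - π / 2 := by ring
    have e5 : (φ + π / 2 - 3 * π / 2) = φ - π := by ring
    have k1 : k + 1 + 1 = k + 2 := by rw [add_assoc]; rfl
    have k2 : k + 1 + 2 = k + 3 := by rw [add_assoc]; rfl
    have k3 : k + 1 + 3 = k := by
      rw [add_assoc]
      have : (1 + 3 : Fin 4) = 0 := rfl
      rw [this, add_zero]
    rw [e1, e2, e3, e4, e5, k1, k2, k3, neg_neg]
    ring
  have Weq' : ∀ x y φ k, WW g H R x y φ k = WW g H R (-y) x (φ - π / 2) (k + 1) := by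
    intro x y φ k
    rw [← Weq, neg_neg]
    congr 1; ring
  -- values of `WW`
  have Wlam : ∀ x y φ k, |x| ≤ R → |y| ≤ R → WW g H R x y φ k = lam g k x y φ := by
    intro x y φ k hx hy
    rw [abs_le] at hx hy
    unfold WW
    rw [DD0 _ _ _ _ (by linarith), DD0 _ _ _ _ (by linarith), DD0 _ _ _ _ (by linarith),
      DD0 _ _ _ _ (by linarith), clp_of_mem hx.1 hx.2, clp_of_mem hy.1 hy.2]
    ring
  have WH : ∀ x y φ k, |x| ≤ 1 → R ≤ y → WW g H R x y φ k = H (c01 (y - R)) x φ k := by
    intro x y φ k hx hy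
    rw [abs_le] at hx
    unfold WW
    rw [DD0 (x - R) _ _ _ (by linarith), DD0 (-y - R) _ _ _ (by linarith),
      DD0 (-x - R) _ _ _ (by linarith)]
    unfold DD
    rw [clp_of_mem hx.1 hx.2, clp_of_mem (by linarith : -R ≤ x) (by linarith : x ≤ R),
      clp_of_ge hR0 hy]
    ring
  -- the inequality on the right face
  have Wright : ∀ y φ, 1 ≤ y → WW g H R 1 y φ 2 < WW g H R 1 y φ 1 := by
    intro y φ hy
    rcases le_total y R with h | h
    · rw [Wlam _ _ _ _ (by rw [abs_one]; linarith) (by rw [abs_of_nonneg (by linarith)]; exact h),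
        Wlam _ _ _ _ (by rw [abs_one]; linarith) (by rw [abs_of_nonneg (by linarith)]; exact h)]
      exact lam_face_right hy φ
    · rw [WH _ _ _ _ (by rw [abs_one]) h, WH _ _ _ _ (by rw [abs_one]) h]
      exact (hHG _ (c01_mem _)).2.2.1 φ
  have Wleft : ∀ y φ, 1 ≤ y → WW g H R (-1) y φ 3 < WW g H R (-1) y φ 0 := by
    intro y φ hy
    rcases le_total y R with h | h
    · rw [Wlam _ _ _ _ (by rw [abs_neg, abs_one]; linarith)
          (by rw [abs_of_nonneg (by linarith)]; exact h),
        Wlam _ _ _ _ (by rw [abs_neg, abs_one]; linarith)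
          (by rw [abs_of_nonneg (by linarith)]; exact h)]
      exact lam_face_left hy φ
    · rw [WH _ _ _ _ (by rw [abs_neg, abs_one]) h, WH _ _ _ _ (by rw [abs_neg, abs_one]) h]
      exact (hHG _ (c01_mem _)).2.1 φ
  have Wend : ∀ x φ k, |x| ≤ 1 → WW g H R x (R + 1) φ k = (![1, 1, 0, 0] : Fin 4 → ℝ) k := by
    intro x φ k hx
    rw [WH _ _ _ _ hx (by linarith), show R + 1 - R = 1 by ring, c01_one, hH1]
  -- the map of polar coordinates
  set L : ℝ := R + 1 with hL
  have hL0 : 0 ≤ L := by linarith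
  let XX : ℝ → ℝ → ℝ := fun r a => clp (2 * L * r * cos (π * a / 2)) L
  let YY : ℝ → ℝ → ℝ := fun r a => clp (2 * L * r * sin (π * a / 2)) L
  have hXc : Continuous fun p : ℝ × ℝ × ℝ => XX p.1 p.2.1 := by
    apply clp_cont _ continuous_const
    fun_prop
  have hYc : Continuous fun p : ℝ × ℝ × ℝ => YY p.1 p.2.1 := by
    apply clp_cont _ continuous_const
    fun_prop
  have fxc : ∀ {u v : ℝ × ℝ × ℝ → ℝ}, Continuous u → Continuous v →
      Continuous fun p => fx (u p) (v p) := by
    intro u v hu hv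
    unfold fx fm
    apply hu.sub
    apply clp_cont hu
    exact continuous_const.max ((hu.abs.min hv.abs).sub continuous_const)
  obtain ⟨r, -, a, t, hat⟩ := topo4
    (fun r a t k => WW g H R (fx (XX r a) (YY r a)) (fx (YY r a) (XX r a)) (π / 2 * t) k)
    (by
      apply continuous_pi
      intro k
      apply WW_cont lam_cont hHc R k
      · exact fxc hXc hYc
      · exact fxc hYc hXc
      · fun_prop)
    (by
      intro r a t
      have e : π * (a + 4) / 2 = π * a / 2 + 2 * π := by ring
      have e1 : XX r (a + 4) = XX r a := by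
        simp only [XX]; rw [e, cos_add_two_pi]
      have e2 : YY r (a + 4) = YY r a := by
        simp only [YY]; rw [e, sin_add_two_pi]
      simp only [e1, e2])
    (by
      intro r a t k
      have e : π * (a - 1) / 2 = π * a / 2 - π / 2 := by ring
      have e1 : XX r (a - 1) = YY r a := by
        simp only [XX, YY]; rw [e, cos_sub_pi_div_two]
      have e2 : YY r (a - 1) = -XX r a := by
        simp only [XX, YY]
        rw [e, sin_sub_pi_div_two, mul_neg, clp_neg _ hL0]
      simp only [e1, e2]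
      rw [fx_neg_right, fx_neg_left, show π / 2 * (t + 1) = π / 2 * t + π / 2 by ring, Weq])
    (by
      intro a t
      have e1 : ∀ a, XX 0 a = 0 := by
        intro a
        simp only [XX, mul_zero, zero_mul]
        exact clp_of_mem (by linarith) hL0
      have e2 : ∀ a, YY 0 a = 0 := by
        intro a
        simp only [YY, mul_zero, zero_mul]
        exact clp_of_mem (by linarith) hL0
      simp only [e1, e2])
    (by
      intro a ha t
      have hc : 0 ≤ cos (π * a / 2) :=
        cos_nonneg_of_neg_pi_div_two_le_of_le (by nlinarith [pi_pos, ha.1])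
          (by nlinarith [pi_pos, ha.2])
      have hs : 0 ≤ sin (π * a / 2) :=
        sin_nonneg_of_nonneg_of_le_pi (by nlinarith [pi_pos, ha.1])
          (by nlinarith [pi_pos, ha.2])
      have hcs := sin_sq_add_cos_sq (π * a / 2)
      set c := cos (π * a / 2)
      set s := sin (π * a / 2)
      have hX0 : 0 ≤ XX 1 a := by
        simp only [XX]
        exact le_max_of_le_right (le_min hL0 (by positivity))
      have hY0 : 0 ≤ YY 1 a := by
        simp only [YY]
        exact le_max_of_le_right (le_min hL0 (by positivity))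
      have hXL : XX 1 a ≤ L := clp_le hL0
      have hYL : YY 1 a ≤ L := clp_le hL0
      have hor : XX 1 a = L ∨ YY 1 a = L := by
        rcases le_total s c with h | h
        · left
          have : 1 / 2 ≤ c := by
            by_contra hlt
            push Not at hlt
            nlinarith
          exact clp_of_ge hL0 (by nlinarith)
        · right
          have : 1 / 2 ≤ s := by
            by_contra hlt
            push Not at hlt
            nlinarith
          exact clp_of_ge hL0 (by nlinarith)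
      -- the fold on the two sides
      have fold1 : ∀ x y : ℝ, 0 ≤ x → x ≤ 1 → 0 ≤ y → fx x y = x ∧ fx y x = y := by
        intro x y hx hx1 hy
        have hm : fm x y = 0 := by
          unfold fm
          apply max_eq_left
          have := min_le_left |x| |y|
          rw [abs_of_nonneg hx] at this
          rw [abs_of_nonneg hx]
          linarith
        have hm' : fm y x = 0 := by rw [fm_comm]; exact hm
        constructor
        · unfold fx; rw [hm, clp_of_ge le_rfl hx, sub_zero]
        · unfold fx; rw [hm', clp_of_ge le_rfl hy, sub_zero]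
      have fold2 : ∀ x y : ℝ, 1 ≤ x → x ≤ y → fx x y = 1 ∧ fx y x = y - x + 1 := by
        intro x y hx hxy
        have hm : fm x y = x - 1 := by
          unfold fm
          rw [abs_of_nonneg (by linarith), abs_of_nonneg (by linarith), min_eq_left hxy,
            max_eq_right (by linarith)]
        have hm' : fm y x = x - 1 := by rw [fm_comm]; exact hm
        constructor
        · unfold fx; rw [hm, clp_of_ge (by linarith) (by linarith)]; ring
        · unfold fx; rw [hm', clp_of_ge (by linarith) (by linarith)]; ring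
      rcases hor with hX | hY
      · -- right side
        rw [hX]
        rcases le_total (YY 1 a) 1 with h | h
        · refine ⟨3, ?_⟩
          obtain ⟨f1, f2⟩ := fold1 (YY 1 a) L hY0 h hL0
          simp only [f1, f2]
          rw [Weq' _ _ _ 2, Weq' _ _ _ 3, Wend _ _ _ (by rw [abs_neg, abs_of_nonneg hY0]; exact h),
            Wend _ _ _ (by rw [abs_neg, abs_of_nonneg hY0]; exact h)]
          have k1 : (2 + 1 : Fin 4) = 3 := rfl
          have k2 : (3 + 1 : Fin 4) = 0 := rfl
          rw [k1, k2]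
          simp
        · refine ⟨3, ?_⟩
          obtain ⟨f1, f2⟩ := fold2 (YY 1 a) L h hYL
          simp only [f1, f2]
          rw [Weq' _ _ _ 2, Weq' _ _ _ 3]
          have k1 : (2 + 1 : Fin 4) = 3 := rfl
          have k2 : (3 + 1 : Fin 4) = 0 := rfl
          rw [k1, k2]
          exact Wleft _ _ (by linarith)
      · rw [hY]
        rcases le_total (XX 1 a) 1 with h | h
        · refine ⟨1, ?_⟩
          obtain ⟨f1, f2⟩ := fold1 (XX 1 a) L hX0 h hL0
          simp only [f1, f2]
          rw [Wend _ _ _ (by rw [abs_of_nonneg hX0]; exact h),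
            Wend _ _ _ (by rw [abs_of_nonneg hX0]; exact h)]
          simp
        · refine ⟨1, ?_⟩
          obtain ⟨f1, f2⟩ := fold2 (XX 1 a) L h hXL
          simp only [f1, f2]
          exact Wright _ _ (by linarith))
  -- conclusion
  have hcr := fold_cross (XX r a) (YY r a)
  set x := fx (XX r a) (YY r a) with hx
  set y := fx (YY r a) (XX r a) with hy
  generalize π / 2 * t = φ at hat
  have top : ∀ x y φ, |x| ≤ 1 → R ≤ y → ¬ ∀ j k, WW g H R x y φ j = WW g H R x y φ k := by
    intro x y φ hx hy hall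
    obtain ⟨j, k, hjk⟩ := (hHG _ (c01_mem (y - R))).1 x (abs_le.1 hx) φ
    apply hjk
    rw [← WH x y φ j hx hy, ← WH x y φ k hx hy]
    exact hall j k
  have rot : ∀ x y φ, (∀ j k, WW g H R x y φ j = WW g H R x y φ k) →
      ∀ j k, WW g H R (-y) x (φ - π / 2) j = WW g H R (-y) x (φ - π / 2) k := by
    intro x y φ hall j k
    have := hall (j - 1) (k - 1)
    rwa [Weq' x y φ (j - 1), Weq' x y φ (k - 1), sub_add_cancel, sub_add_cancel] at this
  by_cases hxy : |x| ≤ R ∧ |y| ≤ R
  · obtain ⟨j, k, hjk⟩ := hns x y φ hcr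
    apply hjk
    rw [← Wlam x y φ j hxy.1 hxy.2, ← Wlam x y φ k hxy.1 hxy.2]
    exact hat j k
  · rw [not_and_or, not_le, not_le] at hxy
    rcases hxy with hx1 | hy1
    · have hy2 : |y| ≤ 1 := by
        rcases hcr with h | h
        · linarith
        · exact h
      rcases le_total 0 x with h0 | h0
      · rw [abs_of_nonneg h0] at hx1
        exact top (-y) x _ (by rwa [abs_neg]) hx1.le (rot _ _ _ hat)
      · rw [abs_of_nonpos h0] at hx1
        have h3 := rot _ _ _ (rot _ _ _ (rot _ _ _ hat))
        rw [neg_neg] at h3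
        exact top y (-x) _ hy2 hx1.le h3
    · have hx2 : |x| ≤ 1 := by
        rcases hcr with h | h
        · exact h
        · linarith
      rcases le_total 0 y with h0 | h0
      · rw [abs_of_nonneg h0] at hy1
        exact top x y _ hx2 hy1.le hat
      · rw [abs_of_nonpos h0] at hy1
        have h2 := rot _ _ _ (rot _ _ _ hat)
        exact top (-x) (-y) _ (by rwa [abs_neg]) hy1.le h2

theorem assemble_of_parity (parity : T4Parity) {g : ℂ → ℝ} (hg : Gauge g) (hns : NoSq g) {R : ℝ}
    (hR : 1 < R)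
    (h : Htp Good (fun x φ k => lam g k x R φ) (fun _ _ => ![1, 1, 0, 0])) : False :=
  assemble_of (fun Ψ hc hper heq h0 hb => topo4_of_parity parity Ψ hc hper heq h0 hb)
    (fun k => lam_cont hg k) (fun k x y φ => lam_rot g k x y φ) (fun k x y φ => lam_per g k x y φ)
    (fun hy φ => lam_face_left hg hy φ) (fun hy φ => lam_face_right hg hy φ) hns hR h

end H828SS
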