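import Pool.Agent.H828R2.SS.Defs

open Set Real

namespace H828SS

variable {E : Type*} [TopologicalSpace E] {Q : (ℝ → ℝ → E) → Prop} {A B C : ℝ → ℝ → E}

theorem Htp.trans (h1 : Htp Q A B) (h2 : Htp Q B C) : Htp Q A C := by
  obtain ⟨H, hHc, hH0, hH1, hH⟩ := h1
  obtain ⟨K, hKc, hK0, hK1, hK⟩ := h2
  have c1 : Continuous fun p : ℝ × ℝ × ℝ => H (2 * p.1) p.2.1 p.2.2 :=
    hHc.comp (f := fun p : ℝ × ℝ × ℝ => ((2 * p.1, p.2.1, p.2.2) : ℝ × ℝ × ℝ)) (by fun_prop)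
  have c2 : Continuous fun p : ℝ × ℝ × ℝ => K (2 * p.1 - 1) p.2.1 p.2.2 :=
    hKc.comp (f := fun p : ℝ × ℝ × ℝ => ((2 * p.1 - 1, p.2.1, p.2.2) : ℝ × ℝ × ℝ)) (by fun_prop)
  refine ⟨fun s x φ => if s ≤ 1 / 2 then H (2 * s) x φ else K (2 * s - 1) x φ, ?_, ?_, ?_, ?_⟩
  · refine Continuous.if_le c1 c2 continuous_fst continuous_const ?_
    intro p hp
    have h3 : (2 * p.1 : ℝ) = 1 := by rw [hp]; norm_num
    have h4 : (2 * p.1 - 1 : ℝ) = 0 := by rw [hp]; norm_num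
    show H (2 * p.1) p.2.1 p.2.2 = K (2 * p.1 - 1) p.2.1 p.2.2
    rw [h4, h3, hH1, hK0]
  · funext x φ
    simp [hH0]
  · funext x φ
    have : ¬ ((1 : ℝ) ≤ 1 / 2) := by norm_num
    simp only [this, if_false]
    norm_num
    rw [hK1]
  · intro s hs
    by_cases h : s ≤ 1 / 2
    · simp only [h, if_true]
      exact hH (2 * s) ⟨by linarith [hs.1], by linarith⟩
    · simp only [h, if_false]
      push Not at h
      exact hK (2 * s - 1) ⟨by linarith, by linarith [hs.2]⟩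

end H828SS
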