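import Pool.Agent.H828R2.SS.Defs

/-!
# The potential on an arm: continuity, periodicity, positivity, decay (task G1)
-/

open Set Real MeasureTheory

namespace H828SS

variable {g : ℂ → ℝ}

theorem g1_dir_ne (θ : ℝ) : Complex.I * Complex.exp ((θ : ℂ) * Complex.I) ≠ 0 :=
  mul_ne_zero Complex.I_ne_zero (Complex.exp_ne_zero _)

theorem g1_hh_cont (hg : Gauge g) : Continuous (hh g) := by
  unfold hh
  refine Continuous.div continuous_const ?_ ?_
  · exact continuous_const.mul ((hg.cont.comp (by fun_prop)).pow 2)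
  · intro θ
    have h := hg.pos _ (g1_dir_ne θ)
    positivity

theorem g1_hh_pos (hg : Gauge g) (θ : ℝ) : 0 < hh g θ := by
  have h := hg.pos _ (g1_dir_ne θ)
  unfold hh
  positivity

theorem g1_hh_per (g : ℂ → ℝ) (θ : ℝ) : hh g (θ + 2 * π) = hh g θ := by
  unfold hh
  have h : Complex.exp (((θ + 2 * π : ℝ) : ℂ) * Complex.I) = Complex.exp ((θ : ℂ) * Complex.I) := by
    push_cast
    rw [add_mul, Complex.exp_add, Complex.exp_two_pi_mul_I, mul_one]
  rw [h]

theorem g1_int (hg : Gauge g) (a b : ℝ) : IntervalIntegrable (hh g) volume a b :=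
  (g1_hh_cont hg).intervalIntegrable a b

theorem g1_HH_cont (hg : Gauge g) : Continuous (HH g) :=
  intervalIntegral.continuous_primitive (fun a b => g1_int hg a b) 0

theorem g1_HH_sub (hg : Gauge g) (a b : ℝ) : HH g b - HH g a = ∫ t in a..b, hh g t := by
  unfold HH
  exact intervalIntegral.integral_interval_sub_left (g1_int hg 0 b) (g1_int hg 0 a)

theorem g1_HH_strictMono (hg : Gauge g) : StrictMono (HH g) := by
  intro a b hab
  have h : 0 < HH g b - HH g a := by
    rw [g1_HH_sub hg]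
    exact intervalIntegral.intervalIntegral_pos_of_pos (g1_int hg a b) (g1_hh_pos hg) hab
  linarith

theorem g1_HH_per (hg : Gauge g) (a b : ℝ) :
    HH g (b + 2 * π) - HH g (a + 2 * π) = HH g b - HH g a := by
  rw [g1_HH_sub hg, g1_HH_sub hg]
  have h := intervalIntegral.integral_comp_add_right (a := a) (b := b) (hh g) (2 * π)
  rw [← h]
  exact intervalIntegral.integral_congr (fun t _ => (g1_hh_per g t))

theorem g1_HH_le (hg : Gauge g) {M : ℝ} (hM : ∀ θ, hh g θ ≤ M) {a b : ℝ} (hab : a ≤ b) :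
    HH g b - HH g a ≤ M * (b - a) := by
  rw [g1_HH_sub hg]
  have h := intervalIntegral.integral_mono_on hab (g1_int hg a b)
    ((continuous_const (y := M)).intervalIntegrable a b) (fun t _ => hM t)
  rw [intervalIntegral.integral_const, smul_eq_mul] at h
  linarith

theorem g1_bdd (hg : Gauge g) : ∃ M, 0 < M ∧ ∀ θ, hh g θ ≤ M := by
  obtain ⟨m, _, hm⟩ := isCompact_Icc.exists_isMaxOn (nonempty_Icc.2 two_pi_pos.le)
    (g1_hh_cont hg).continuousOn
  refine ⟨hh g m, g1_hh_pos hg m, fun θ => ?_⟩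
  have hp : Function.Periodic (hh g) (2 * π) := g1_hh_per g
  obtain ⟨y, hy, hy2⟩ := hp.exists_mem_Ico₀ two_pi_pos θ
  rw [hy2]
  exact hm (Ico_subset_Icc_self hy)

theorem g1_den_pos (k : Fin 4) (η : ℝ) : 0 < max η 2 + cb k := by
  have h : (2 : ℝ) ≤ max η 2 := le_max_right _ _
  have h2 : -1 ≤ cb k := by fin_cases k <;> simp [cb]
  linarith

theorem g1_ww_pos (k : Fin 4) (x η : ℝ) : 0 < ww k x η := by
  have h := g1_den_pos k η
  unfold ww
  positivity

theorem g1_beta_cont (k : Fin 4) : Continuous fun p : ℝ × ℝ => beta k p.1 p.2 := by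
  unfold beta
  refine continuous_arctan.comp (Continuous.div (by fun_prop) (by fun_prop) ?_)
  intro p
  exact (g1_den_pos k p.2).ne'

theorem g1_arg_cont (k : Fin 4) : Continuous fun p : ℝ × ℝ × ℝ => p.1 - beta k p.2.1 p.2.2 :=
  continuous_fst.sub ((g1_beta_cont k).comp continuous_snd)

theorem g1_mm_cont (hg : Gauge g) (k : Fin 4) :
    Continuous fun p : ℝ × ℝ × ℝ => mm g k p.1 p.2.1 p.2.2 := by
  unfold mm
  refine Continuous.div ((g1_hh_cont hg).comp (g1_arg_cont k)) ?_ ?_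
  · unfold ww
    fun_prop
  · intro p
    exact (g1_ww_pos k p.2.1 p.2.2).ne'

theorem GG_cont (hg : Gauge g) : Continuous fun p : ℝ × ℝ × ℝ => GG g p.1 p.2.1 p.2.2 := by
  unfold GG
  have h : ∀ k, Continuous fun p : ℝ × ℝ × ℝ => HH g (p.1 - beta k p.2.1 p.2.2) :=
    fun k => (g1_HH_cont hg).comp (g1_arg_cont k)
  exact ((h 0).sub (h 3)).add ((h 2).sub (h 1))

theorem Gp_cont (hg : Gauge g) : Continuous fun p : ℝ × ℝ × ℝ => Gp g p.1 p.2.1 p.2.2 := by
  unfold Gp
  refine continuous_finsetSum _ fun k _ => continuous_const.mul ((g1_mm_cont hg k).mul ?_)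
  unfold ww
  fun_prop

theorem Gx_cont (hg : Gauge g) : Continuous fun p : ℝ × ℝ × ℝ => Gx g p.1 p.2.1 p.2.2 := by
  unfold Gx
  refine (continuous_finsetSum _ fun k _ =>
    continuous_const.mul ((g1_mm_cont hg k).mul ?_)).neg
  fun_prop

theorem Ge_cont (hg : Gauge g) : Continuous fun p : ℝ × ℝ × ℝ => Ge g p.1 p.2.1 p.2.2 := by
  unfold Ge
  refine continuous_finsetSum _ fun k _ => continuous_const.mul ((g1_mm_cont hg k).mul ?_)
  fun_prop

theorem g1_mm_per (g : ℂ → ℝ) (k : Fin 4) (φ x η : ℝ) :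
    mm g k (φ + 2 * π) x η = mm g k φ x η := by
  unfold mm
  rw [show φ + 2 * π - beta k x η = (φ - beta k x η) + 2 * π by ring, g1_hh_per]

theorem GG_per (hg : Gauge g) (φ x η : ℝ) : GG g (φ + 2 * π) x η = GG g φ x η := by
  unfold GG
  have e : ∀ k, φ + 2 * π - beta k x η = (φ - beta k x η) + 2 * π := fun k => by ring
  rw [e, e, e, e, g1_HH_per hg, g1_HH_per hg]

theorem Gp_per (hg : Gauge g) (φ x η : ℝ) : Gp g (φ + 2 * π) x η = Gp g φ x η := by
  unfold Gp
  simp only [g1_mm_per]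

theorem Gx_per (hg : Gauge g) (φ x η : ℝ) : Gx g (φ + 2 * π) x η = Gx g φ x η := by
  unfold Gx
  simp only [g1_mm_per]

theorem Ge_per (hg : Gauge g) (φ x η : ℝ) : Ge g (φ + 2 * π) x η = Ge g φ x η := by
  unfold Ge
  simp only [g1_mm_per]

theorem g1_b30 {x : ℝ} (hx : -1 ≤ x) (η : ℝ) : beta 0 x η ≤ beta 3 x η := by
  have h : (2 : ℝ) ≤ max η 2 := le_max_right _ _
  unfold beta
  refine arctan_strictMono.monotone ?_
  simp only [ca, cb, Matrix.cons_val]
  exact div_le_div_of_nonneg_left (by linarith) (by linarith) (by linarith)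

theorem g1_b30' {x : ℝ} (hx : -1 < x) (η : ℝ) : beta 0 x η < beta 3 x η := by
  have h : (2 : ℝ) ≤ max η 2 := le_max_right _ _
  unfold beta
  refine arctan_strictMono ?_
  simp only [ca, cb, Matrix.cons_val]
  exact div_lt_div_of_pos_left (by linarith) (by linarith) (by linarith)

theorem g1_b21 {x : ℝ} (hx : x ≤ 1) (η : ℝ) : beta 2 x η ≤ beta 1 x η := by
  have h : (2 : ℝ) ≤ max η 2 := le_max_right _ _
  unfold beta
  refine arctan_strictMono.monotone ?_
  simp only [ca, cb, Matrix.cons_val]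
  have h1 := div_le_div_of_nonneg_left (a := 1 - x) (b := max η 2 + 1) (c := max η 2 + -1)
    (by linarith) (by linarith) (by linarith)
  have e1 : (x + -1) / (max η 2 + 1) = -((1 - x) / (max η 2 + 1)) := by
    rw [← neg_div]; congr 1; ring
  have e2 : (x + -1) / (max η 2 + -1) = -((1 - x) / (max η 2 + -1)) := by
    rw [← neg_div]; congr 1; ring
  rw [e1, e2]
  linarith

theorem g1_b0 {x : ℝ} (hx : -1 ≤ x) (η : ℝ) : 0 ≤ beta 0 x η := by
  have h : (2 : ℝ) ≤ max η 2 := le_max_right _ _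
  unfold beta
  rw [arctan_nonneg]
  simp only [ca, cb, Matrix.cons_val]
  exact div_nonneg (by linarith) (by linarith)

theorem g1_b1 {x : ℝ} (hx : x ≤ 1) (η : ℝ) : beta 1 x η ≤ 0 := by
  have h : (2 : ℝ) ≤ max η 2 := le_max_right _ _
  unfold beta
  rw [arctan_le_zero]
  simp only [ca, cb, Matrix.cons_val]
  exact div_nonpos_of_nonpos_of_nonneg (by linarith) (by linarith)

theorem g1_arctan_le {t : ℝ} (ht : 0 ≤ t) : arctan t ≤ t := by
  have h := le_tan (arctan_nonneg.2 ht) (arctan_lt_pi_div_two t)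
  rwa [tan_arctan] at h

theorem g1_b3 {x : ℝ} (hx : -1 ≤ x) (hx1 : x ≤ 1) (η : ℝ) : beta 3 x η ≤ 2 / (max η 2 - 1) := by
  have h : (2 : ℝ) ≤ max η 2 := le_max_right _ _
  have h0 : 0 ≤ (x + 1) / (max η 2 - 1) := div_nonneg (by linarith) (by linarith)
  unfold beta
  simp only [ca, cb, Matrix.cons_val]
  rw [← sub_eq_add_neg]
  refine (g1_arctan_le h0).trans ?_
  exact div_le_div_of_nonneg_right (by linarith) (by linarith)

theorem g1_b2 {x : ℝ} (hx : -1 ≤ x) (hx1 : x ≤ 1) (η : ℝ) :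
    -(2 / (max η 2 - 1)) ≤ beta 2 x η := by
  have h : (2 : ℝ) ≤ max η 2 := le_max_right _ _
  have h0 : 0 ≤ (1 - x) / (max η 2 - 1) := div_nonneg (by linarith) (by linarith)
  unfold beta
  simp only [ca, cb, Matrix.cons_val]
  have e2 : (x + -1) / (max η 2 + -1) = -((1 - x) / (max η 2 - 1)) := by
    rw [← neg_div, ← sub_eq_add_neg (max η 2) 1]; congr 1; ring
  rw [e2, arctan_neg]
  refine neg_le_neg ((g1_arctan_le h0).trans ?_)
  exact div_le_div_of_nonneg_right (by linarith) (by linarith)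

theorem GG_pos (hg : Gauge g) (φ : ℝ) {x : ℝ} (hx : x ∈ Icc (-1 : ℝ) 1) (η : ℝ) :
    0 < GG g φ x η := by
  have hm := g1_HH_strictMono hg
  unfold GG
  have h1 : HH g (φ - beta 3 x η) ≤ HH g (φ - beta 0 x η) :=
    hm.monotone (by linarith [g1_b30 hx.1 η])
  have h2 : HH g (φ - beta 1 x η) ≤ HH g (φ - beta 2 x η) :=
    hm.monotone (by linarith [g1_b21 hx.2 η])
  rcases eq_or_lt_of_le hx.1 with h | h
  · have h3 : HH g (φ - beta 1 x η) < HH g (φ - beta 2 x η) := by
      refine hm ?_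
      have h4 : (2 : ℝ) ≤ max η 2 := le_max_right _ _
      have h5 : beta 2 x η < beta 1 x η := by
        unfold beta
        refine arctan_strictMono ?_
        simp only [ca, cb, Matrix.cons_val]
        have h6 := div_lt_div_of_pos_left (a := 2) (b := max η 2 + 1) (c := max η 2 + -1)
          (by linarith) (by linarith) (by linarith)
        have e1 : (x + -1) / (max η 2 + 1) = -(2 / (max η 2 + 1)) := by
          rw [← neg_div]; congr 1; linarith
        have e2 : (x + -1) / (max η 2 + -1) = -(2 / (max η 2 + -1)) := by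
          rw [← neg_div]; congr 1; linarith
        rw [e1, e2]
        linarith
      linarith
    linarith
  · have h3 : HH g (φ - beta 3 x η) < HH g (φ - beta 0 x η) :=
      hm (by linarith [g1_b30' h η])
    linarith

theorem GG_dec (hg : Gauge g) (c : ℝ) (hc : 0 < c) :
    ∃ R, ∀ η ≥ R, ∀ x ∈ Icc (-1 : ℝ) 1, ∀ φ, GG g φ x η < c := by
  obtain ⟨M, hM0, hM⟩ := g1_bdd hg
  refine ⟨4 * M / c + 2, fun η hη x hx φ => ?_⟩
  have hR : 0 < 4 * M / c := by positivity
  have hη2 : 2 ≤ η := by linarith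
  have hmax : max η 2 = η := max_eq_left hη2
  have h1 := g1_HH_le hg hM (a := φ - beta 3 x η) (b := φ - beta 0 x η)
    (by linarith [g1_b30 hx.1 η])
  have h2 := g1_HH_le hg hM (a := φ - beta 1 x η) (b := φ - beta 2 x η)
    (by linarith [g1_b21 hx.2 η])
  have h3 := g1_b0 hx.1 η
  have h4 := g1_b1 hx.2 η
  have h5 := g1_b3 hx.1 hx.2 η
  have h6 := g1_b2 hx.1 hx.2 η
  rw [hmax] at h5 h6
  have h7 : GG g φ x η ≤ M * (4 / (η - 1)) := by
    unfold GG
    have h8 : M * (φ - beta 0 x η - (φ - beta 3 x η)) + M * (φ - beta 2 x η - (φ - beta 1 x η))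
        ≤ M * (4 / (η - 1)) := by
      rw [← mul_add]
      refine mul_le_mul_of_nonneg_left ?_ hM0.le
      have e : 4 / (η - 1) = 2 / (η - 1) + 2 / (η - 1) := by ring
      rw [e]
      linarith
    linarith
  refine h7.trans_lt ?_
  have h9 : 0 < η - 1 := by linarith
  rw [mul_div_assoc', div_lt_iff₀ h9]
  have h10 : 4 * M / c < η - 1 := by linarith
  rw [div_lt_iff₀ hc] at h10
  linarith

end H828SS
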