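import Pool.Agent.H828R2.SS.Lam
import Pool.Agent.H828R2.SS.Pot1
import Pool.Agent.H828R2.SS.Pot3
import Pool.Agent.H828R2.SS.HtpTrans

/-! # Task C : the chain of homotopies on the end of an arm (helper790) -/

open Set Real

namespace H828SS

variable {g : ℂ → ℝ}

/-- Label vector attached to the three numbers `(e, z, c)`. -/
noncomputable def LL (x e z c : ℝ) : Fin 4 → ℝ :=
  ![-((e + (1 - x) * z) / 2), -((e - (1 + x) * z) / 2 + c), -c, 0]

theorem LL_ne {x e z c : ℝ} (h : ¬(e = 0 ∧ z = 0 ∧ c = 0)) :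
    ∃ j k, LL x e z c j ≠ LL x e z c k := by
  by_contra hcon
  push Not at hcon
  apply h
  have h23 := hcon 2 3
  have h03 := hcon 0 3
  have h13 := hcon 1 3
  simp [LL] at h23 h03 h13
  have hz : z = 0 := by linarith
  rw [hz] at h03
  exact ⟨by linarith, hz, h23⟩

theorem htp_LL (e z c : ℝ → ℝ → ℝ → ℝ)
    (he : Continuous fun p : ℝ × ℝ × ℝ => e p.1 p.2.1 p.2.2)
    (hz : Continuous fun p : ℝ × ℝ × ℝ => z p.1 p.2.1 p.2.2)
    (hc : Continuous fun p : ℝ × ℝ × ℝ => c p.1 p.2.1 p.2.2)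
    (pe : ∀ s ∈ Icc (0 : ℝ) 1, ∀ x φ, e s x (φ + 2 * π) = e s x φ)
    (pz : ∀ s ∈ Icc (0 : ℝ) 1, ∀ x φ, z s x (φ + 2 * π) = z s x φ)
    (pc : ∀ s ∈ Icc (0 : ℝ) 1, ∀ x φ, c s x (φ + 2 * π) = c s x φ)
    (nz : ∀ s ∈ Icc (0 : ℝ) 1, ∀ x ∈ Icc (-1 : ℝ) 1, ∀ φ,
      ¬(e s x φ = 0 ∧ z s x φ = 0 ∧ c s x φ = 0))
    (fl : ∀ s ∈ Icc (0 : ℝ) 1, ∀ φ, e s (-1) φ + 2 * z s (-1) φ < 0)
    (fr : ∀ s ∈ Icc (0 : ℝ) 1, ∀ φ, e s 1 φ - 2 * z s 1 φ < 0) :
    Htp Good (fun x φ => LL x (e 0 x φ) (z 0 x φ) (c 0 x φ))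
      (fun x φ => LL x (e 1 x φ) (z 1 x φ) (c 1 x φ)) := by
  refine ⟨fun s x φ => LL x (e s x φ) (z s x φ) (c s x φ), ?_, rfl, rfl, ?_⟩
  · apply continuous_pi
    intro k
    fin_cases k
    · simp only [LL]
      simpa using (by fun_prop : Continuous fun p : ℝ × ℝ × ℝ =>
        -((e p.1 p.2.1 p.2.2 + (1 - p.2.1) * z p.1 p.2.1 p.2.2) / 2))
    · simp only [LL]
      simpa using (by fun_prop : Continuous fun p : ℝ × ℝ × ℝ =>
        -((e p.1 p.2.1 p.2.2 - (1 + p.2.1) * z p.1 p.2.1 p.2.2) / 2 + c p.1 p.2.1 p.2.2))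
    · simp only [LL]
      simpa using (by fun_prop : Continuous fun p : ℝ × ℝ × ℝ => -(c p.1 p.2.1 p.2.2))
    · simp only [LL]
      simpa using (continuous_const : Continuous fun p : ℝ × ℝ × ℝ => (0 : ℝ))
  · intro s hs
    refine ⟨fun x hx φ => LL_ne (nz s hs x hx φ), fun φ => ?_, fun φ => ?_, fun x φ => ?_⟩
    · have := fl s hs φ
      simp [LL]
      linarith
    · have := fr s hs φ
      simp [LL]
      linarith
    · simp only [pe s hs, pz s hs, pc s hs]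

/-! ### The three numbers attached to a displacement vector -/

/-- `R ^ 2 + x ^ 2 - 2` -/
noncomputable def dd (R x : ℝ) : ℝ := R ^ 2 + x ^ 2 - 2

/-- first number -/
noncomputable def ee (R x : ℝ) (X : ℝ × ℝ × ℝ) : ℝ := dd R x * X.2.2

/-- second number -/
noncomputable def zz (R x : ℝ) (X : ℝ × ℝ × ℝ) : ℝ := 2 * x * X.2.2 - 2 * R * X.2.1 - X.1

/-- third number -/
noncomputable def cc (R x : ℝ) (X : ℝ × ℝ × ℝ) : ℝ := (dd R x * X.2.1 + (R + 1) * zz R x X) / 2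

/-- corrected second number -/
noncomputable def z2 (R x : ℝ) (X : ℝ × ℝ × ℝ) : ℝ :=
  zz R x X + 2 * x * (|ee R x X| + |cc R x X|)

theorem dd_pos {R x : ℝ} (hR : 3 ≤ R) : 0 < dd R x := by
  unfold dd
  nlinarith [sq_nonneg x]

theorem nz_of (R x : ℝ) (hR : 3 ≤ R) (X : ℝ × ℝ × ℝ) (t : ℝ)
    (h : ee R x X = 0 ∧ zz R x X + t * (|ee R x X| + |cc R x X|) = 0 ∧ cc R x X = 0) : X = 0 := by
  obtain ⟨h1, h2, h3⟩ := h
  rw [h1, h3] at h2
  simp only [abs_zero, add_zero, mul_zero] at h2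
  have hd := dd_pos (x := x) hR
  have e1 : X.2.2 = 0 := by
    unfold ee at h1
    rcases mul_eq_zero.1 h1 with h | h
    · exact absurd h hd.ne'
    · exact h
  have e2 : X.2.1 = 0 := by
    unfold cc at h3
    rw [h2] at h3
    have : dd R x * X.2.1 = 0 := by linarith
    rcases mul_eq_zero.1 this with h | h
    · exact absurd h hd.ne'
    · exact h
  have e3 : X.1 = 0 := by
    unfold zz at h2
    rw [e1, e2] at h2
    linarith
  exact Prod.ext e3 (Prod.ext e2 e1)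

/-- Face condition for vectors with `x`-component `0`. -/
theorem face_left_V {R : ℝ} (hR : 3 ≤ R) {X : ℝ × ℝ × ℝ} (hX : X ≠ 0) (hv : X.2.1 = 0) :
    ee R (-1) X + 2 * z2 R (-1) X < 0 := by
  have hc : cc R (-1) X = (R + 1) / 2 * zz R (-1) X := by
    unfold cc
    rw [hv]
    ring
  have hz : 2 * |zz R (-1) X| ≤ |cc R (-1) X| := by
    rw [hc, abs_mul, abs_of_nonneg (by linarith : (0 : ℝ) ≤ (R + 1) / 2)]
    nlinarith [abs_nonneg (zz R (-1) X)]
  have hne : 0 < |ee R (-1) X| + |cc R (-1) X| := by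
    by_contra hcon
    push Not at hcon
    have h1 : |ee R (-1) X| = 0 := by
      linarith [abs_nonneg (ee R (-1) X), abs_nonneg (cc R (-1) X)]
    have h2 : |cc R (-1) X| = 0 := by
      linarith [abs_nonneg (ee R (-1) X), abs_nonneg (cc R (-1) X)]
    have h3 : |zz R (-1) X| = 0 := by
      linarith [abs_nonneg (zz R (-1) X)]
    apply hX
    apply nz_of R (-1) hR X 0
    rw [abs_eq_zero] at h1 h2 h3
    refine ⟨h1, by rw [h3]; ring, h2⟩
  unfold z2
  linarith [le_abs_self (ee R (-1) X), le_abs_self (zz R (-1) X), abs_nonneg (ee R (-1) X),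
    abs_nonneg (cc R (-1) X)]

theorem face_right_V {R : ℝ} (hR : 3 ≤ R) {X : ℝ × ℝ × ℝ} (hX : X ≠ 0) (hv : X.2.1 = 0) :
    ee R 1 X - 2 * z2 R 1 X < 0 := by
  have hc : cc R 1 X = (R + 1) / 2 * zz R 1 X := by
    unfold cc
    rw [hv]
    ring
  have hz : 2 * |zz R 1 X| ≤ |cc R 1 X| := by
    rw [hc, abs_mul, abs_of_nonneg (by linarith : (0 : ℝ) ≤ (R + 1) / 2)]
    nlinarith [abs_nonneg (zz R 1 X)]
  have hne : 0 < |ee R 1 X| + |cc R 1 X| := by
    by_contra hcon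
    push Not at hcon
    have h1 : |ee R 1 X| = 0 := by
      linarith [abs_nonneg (ee R 1 X), abs_nonneg (cc R 1 X)]
    have h2 : |cc R 1 X| = 0 := by
      linarith [abs_nonneg (ee R 1 X), abs_nonneg (cc R 1 X)]
    have h3 : |zz R 1 X| = 0 := by
      linarith [abs_nonneg (zz R 1 X)]
    apply hX
    apply nz_of R 1 hR X 0
    rw [abs_eq_zero] at h1 h2 h3
    refine ⟨h1, by rw [h3]; ring, h2⟩
  unfold z2
  linarith [le_abs_self (ee R 1 X), neg_abs_le (zz R 1 X), abs_nonneg (ee R 1 X),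
    abs_nonneg (cc R 1 X)]

/-- The three numbers of the gradient of the potential give the vector `D (m₃ - m_k)`. -/
theorem LL_grad (g : ℂ → ℝ) {R : ℝ} (hR : 3 ≤ R) (x φ : ℝ) :
    LL x (ee R x (Gp g φ x R, Gx g φ x R, Ge g φ x R))
      (zz R x (Gp g φ x R, Gx g φ x R, Ge g φ x R))
      (cc R x (Gp g φ x R, Gx g φ x R, Ge g φ x R)) =
    fun k => dd R x * (-mm g k φ x R + mm g 3 φ x R) := by
  have hm : max R 2 = R := max_eq_left (by linarith)
  funext k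
  fin_cases k <;>
  simp [LL, ee, zz, cc, dd, Gp, Gx, Ge, Fin.sum_univ_four, ww, ca, cb, cs, hm] <;> ring

theorem mm_lt (hg : Gauge g) {R : ℝ} (hR : 3 ≤ R) {x φ : ℝ} {j k : Fin 4}
    (h : lam g j x R φ < lam g k x R φ) : mm g k φ x R < mm g j φ x R := by
  rw [lam_mm hg k x (by linarith) φ, lam_mm hg j x (by linarith) φ]
  have hj := lam_pos hg j (x := x) (by linarith : 1 < R) φ
  have hk := lam_pos hg k (x := x) (by linarith : 1 < R) φ
  apply one_div_lt_one_div_of_lt (by positivity)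
  nlinarith

theorem lam_ne (hg : Gauge g) (hns : NoSq g) {R : ℝ} (hR : 3 ≤ R) {x : ℝ}
    (hx : x ∈ Icc (-1 : ℝ) 1) (φ : ℝ) :
    ∃ j k, lam g j x R φ < lam g k x R φ := by
  obtain ⟨j, k, h⟩ := hns x R φ (Or.inl (abs_le.2 hx))
  rcases lt_or_gt_of_ne h with h | h
  · exact ⟨j, k, h⟩
  · exact ⟨k, j, h⟩

theorem mm_cont (hg : Gauge g) {R : ℝ} (hR : 3 ≤ R) (k : Fin 4) :
    Continuous fun p : ℝ × ℝ × ℝ => mm g k p.2.2 p.2.1 R := by
  have e : (fun p : ℝ × ℝ × ℝ => mm g k p.2.2 p.2.1 R) =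
      fun p : ℝ × ℝ × ℝ => 1 / (2 * lam g k p.2.1 R p.2.2 ^ 2) := by
    funext p
    rw [lam_mm hg k p.2.1 (by linarith) p.2.2]
  rw [e]
  have hc : Continuous fun p : ℝ × ℝ × ℝ => lam g k p.2.1 R p.2.2 :=
    (lam_cont hg k).comp (by fun_prop :
      Continuous fun p : ℝ × ℝ × ℝ => ((p.2.1, R, p.2.2) : ℝ × ℝ × ℝ))
  apply Continuous.div continuous_const (by fun_prop)
  intro p
  have := lam_pos hg k (x := p.2.1) (by linarith : 1 < R) p.2.2
  positivity

theorem mm_perR (hg : Gauge g) {R : ℝ} (hR : 3 ≤ R) (k : Fin 4) (x φ : ℝ) :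
    mm g k (φ + 2 * π) x R = mm g k φ x R := by
  rw [lam_mm hg k x (by linarith) φ, lam_mm hg k x (by linarith) (φ + 2 * π),
    lam_per]

/-- step 0 : from `lam` to `-m`. -/
theorem step0 (hg : Gauge g) (hns : NoSq g) {R : ℝ} (hR : 3 ≤ R) :
    Htp Good (fun x φ k => lam g k x R φ) (fun x φ k => -mm g k φ x R) := by
  have key : ∀ s ∈ Icc (0 : ℝ) 1, ∀ x φ, ∀ j k : Fin 4, lam g j x R φ < lam g k x R φ →
      (1 - s) * lam g j x R φ + s * (-mm g j φ x R) <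
      (1 - s) * lam g k x R φ + s * (-mm g k φ x R) := by
    intro s hs x φ j k h
    have h2 := mm_lt hg hR h
    rcases eq_or_lt_of_le hs.2 with h1 | h1
    · subst h1
      linarith
    · nlinarith [hs.1, mul_lt_mul_of_pos_left h (sub_pos.2 h1),
        mul_le_mul_of_nonneg_left h2.le hs.1]
  refine ⟨fun s x φ k => (1 - s) * lam g k x R φ + s * (-mm g k φ x R), ?_, ?_, ?_, ?_⟩
  · apply continuous_pi
    intro k
    have h1 := mm_cont hg hR k
    have h2 : Continuous fun p : ℝ × ℝ × ℝ => lam g k p.2.1 R p.2.2 :=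
      (lam_cont hg k).comp (by fun_prop :
        Continuous fun p : ℝ × ℝ × ℝ => ((p.2.1, R, p.2.2) : ℝ × ℝ × ℝ))
    fun_prop
  · funext x φ k
    ring
  · funext x φ k
    ring
  · intro s hs
    refine ⟨fun x hx φ => ?_, fun φ => ?_, fun φ => ?_, fun x φ => ?_⟩
    · obtain ⟨j, k, h⟩ := lam_ne hg hns hR hx φ
      exact ⟨j, k, (key s hs x φ j k h).ne⟩
    · exact key s hs _ φ _ _ (lam_face_left hg (by linarith) φ)
    · exact key s hs _ φ _ _ (lam_face_right hg (by linarith) φ)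
    · funext k
      simp only [lam_per, mm_perR hg hR]

/-- step 1 : from `-m_k` to `D (m_3 - m_k)`. -/
theorem step1 (hg : Gauge g) (hns : NoSq g) {R : ℝ} (hR : 3 ≤ R) :
    Htp Good (fun x φ k => -mm g k φ x R)
      (fun x φ k => dd R x * (-mm g k φ x R + mm g 3 φ x R)) := by
  have key : ∀ s ∈ Icc (0 : ℝ) 1, ∀ x φ, ∀ j k : Fin 4, lam g j x R φ < lam g k x R φ →
      (1 - s) * (-mm g j φ x R) + s * (dd R x * (-mm g j φ x R + mm g 3 φ x R)) <
      (1 - s) * (-mm g k φ x R) + s * (dd R x * (-mm g k φ x R + mm g 3 φ x R)) := by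
    intro s hs x φ j k h
    have h2 := mm_lt hg hR h
    have hd := dd_pos (x := x) hR
    have h3 : 0 < (1 - s) + s * dd R x := by
      rcases eq_or_lt_of_le hs.1 with h1 | h1
      · rw [← h1]; norm_num
      · have := mul_pos h1 hd
        linarith [hs.2]
    nlinarith [mul_lt_mul_of_pos_left h2 h3]
  refine ⟨fun s x φ k => (1 - s) * (-mm g k φ x R) +
    s * (dd R x * (-mm g k φ x R + mm g 3 φ x R)), ?_, ?_, ?_, ?_⟩
  · apply continuous_pi
    intro k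
    have h1 := mm_cont hg hR k
    have h2 := mm_cont hg hR 3
    unfold dd
    fun_prop
  · funext x φ k
    ring
  · funext x φ k
    ring
  · intro s hs
    refine ⟨fun x hx φ => ?_, fun φ => ?_, fun φ => ?_, fun x φ => ?_⟩
    · obtain ⟨j, k, h⟩ := lam_ne hg hns hR hx φ
      exact ⟨j, k, (key s hs x φ j k h).ne⟩
    · exact key s hs _ φ _ _ (lam_face_left hg (by linarith) φ)
    · exact key s hs _ φ _ _ (lam_face_right hg (by linarith) φ)
    · funext k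
      simp only [mm_perR hg hR]

theorem Gp_contR (hg : Gauge g) (R : ℝ) :
    Continuous fun p : ℝ × ℝ × ℝ => Gp g p.2.2 p.2.1 R := by
  have hs : Continuous fun p : ℝ × ℝ × ℝ => ((p.2.2, p.2.1, R) : ℝ × ℝ × ℝ) := by fun_prop
  have h := Continuous.comp (Gp_cont hg) hs
  simp only [Function.comp_def] at h
  exact h

theorem Gx_contR (hg : Gauge g) (R : ℝ) :
    Continuous fun p : ℝ × ℝ × ℝ => Gx g p.2.2 p.2.1 R := by
  have hs : Continuous fun p : ℝ × ℝ × ℝ => ((p.2.2, p.2.1, R) : ℝ × ℝ × ℝ) := by fun_prop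
  have h := Continuous.comp (Gx_cont hg) hs
  simp only [Function.comp_def] at h
  exact h

theorem Ge_contR (hg : Gauge g) (R : ℝ) :
    Continuous fun p : ℝ × ℝ × ℝ => Ge g p.2.2 p.2.1 R := by
  have hs : Continuous fun p : ℝ × ℝ × ℝ => ((p.2.2, p.2.1, R) : ℝ × ℝ × ℝ) := by fun_prop
  have h := Continuous.comp (Ge_cont hg) hs
  simp only [Function.comp_def] at h
  exact h

/-- the gradient of the potential on the section -/
noncomputable def gr (g : ℂ → ℝ) (R x φ : ℝ) : ℝ × ℝ × ℝ := (Gp g φ x R, Gx g φ x R, Ge g φ x R)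

theorem gr_cont (hg : Gauge g) (R : ℝ) :
    Continuous fun p : ℝ × ℝ × ℝ => gr g R p.2.1 p.2.2 := by
  have h1 : Continuous fun p : ℝ × ℝ × ℝ => Gp g p.2.2 p.2.1 R := Gp_contR hg R
  have h2 : Continuous fun p : ℝ × ℝ × ℝ => Gx g p.2.2 p.2.1 R := Gx_contR hg R
  have h3 : Continuous fun p : ℝ × ℝ × ℝ => Ge g p.2.2 p.2.1 R := Ge_contR hg R
  unfold gr
  exact h1.prodMk (h2.prodMk h3)

theorem gr_per (hg : Gauge g) (R x φ : ℝ) : gr g R x (φ + 2 * π) = gr g R x φ := by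
  unfold gr
  rw [Gp_per hg, Gx_per hg, Ge_per hg]

theorem gr_face_left (hg : Gauge g) {R : ℝ} (hR : 3 ≤ R) (φ : ℝ) :
    ee R (-1) (gr g R (-1) φ) + 2 * zz R (-1) (gr g R (-1) φ) < 0 := by
  have h := LL_grad g hR (-1) φ
  have h0 := congrFun h 0
  have h1 := mm_lt hg hR (lam_face_left hg (by linarith : 1 ≤ R) φ)
  have hd := dd_pos (x := -1) hR
  have h2 : 0 < dd R (-1) * (-mm g 0 φ (-1) R + mm g 3 φ (-1) R) :=
    mul_pos hd (by linarith)
  simp only [LL, Matrix.cons_val_zero] at h0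
  unfold gr
  linarith

theorem gr_face_right (hg : Gauge g) {R : ℝ} (hR : 3 ≤ R) (φ : ℝ) :
    ee R 1 (gr g R 1 φ) - 2 * zz R 1 (gr g R 1 φ) < 0 := by
  have h := LL_grad g hR 1 φ
  have h0 := congrFun h 1
  have h0' := congrFun h 2
  have h1 := mm_lt hg hR (lam_face_right hg (by linarith : 1 ≤ R) φ)
  have hd := dd_pos (x := 1) hR
  have h2 : 0 < dd R 1 * (-mm g 1 φ 1 R + mm g 2 φ 1 R) :=
    mul_pos hd (by linarith)
  simp [LL] at h0 h0'
  unfold gr
  linarith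

theorem gr_ne (hg : Gauge g) (hns : NoSq g) {R : ℝ} (hR : 3 ≤ R) {x : ℝ}
    (hx : x ∈ Icc (-1 : ℝ) 1) (φ : ℝ) : gr g R x φ ≠ 0 := by
  intro h
  have h1 : Gp g φ x R = 0 := congrArg Prod.fst h
  have h2 : Gx g φ x R = 0 := congrArg (fun t : ℝ × ℝ × ℝ => t.2.1) h
  have h3 : Ge g φ x R = 0 := congrArg (fun t : ℝ × ℝ × ℝ => t.2.2) h
  exact G_nz hg hns φ hx (by linarith : (2 : ℝ) ≤ R) ⟨h1, by rw [h2, mul_zero], h3⟩

theorem ee_cont {R : ℝ} {x : ℝ × ℝ × ℝ → ℝ} {X : ℝ × ℝ × ℝ → ℝ × ℝ × ℝ} (hx : Continuous x)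
    (hX : Continuous X) : Continuous fun p => ee R (x p) (X p) := by
  unfold ee dd
  fun_prop

theorem zz_cont {R : ℝ} {x : ℝ × ℝ × ℝ → ℝ} {X : ℝ × ℝ × ℝ → ℝ × ℝ × ℝ} (hx : Continuous x)
    (hX : Continuous X) : Continuous fun p => zz R (x p) (X p) := by
  unfold zz
  fun_prop

theorem cc_cont {R : ℝ} {x : ℝ × ℝ × ℝ → ℝ} {X : ℝ × ℝ × ℝ → ℝ × ℝ × ℝ} (hx : Continuous x)
    (hX : Continuous X) : Continuous fun p => cc R (x p) (X p) := by
  unfold cc zz dd
  fun_prop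

theorem z2_cont {R : ℝ} {x : ℝ × ℝ × ℝ → ℝ} {X : ℝ × ℝ × ℝ → ℝ × ℝ × ℝ} (hx : Continuous x)
    (hX : Continuous X) : Continuous fun p => z2 R (x p) (X p) := by
  have h1 := zz_cont (R := R) hx hX
  have h2 := cc_cont (R := R) hx hX
  have h3 := ee_cont (R := R) hx hX
  unfold z2
  exact h1.add ((continuous_const.mul hx).mul (h3.abs.add h2.abs))

/-- step 2 : the correction of the second number. -/
theorem step2 (hg : Gauge g) (hns : NoSq g) {R : ℝ} (hR : 3 ≤ R) :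
    Htp Good (fun x φ k => dd R x * (-mm g k φ x R + mm g 3 φ x R))
      (fun x φ => LL x (ee R x (gr g R x φ)) (z2 R x (gr g R x φ)) (cc R x (gr g R x φ))) := by
  have hx : Continuous fun p : ℝ × ℝ × ℝ => p.2.1 := by fun_prop
  have hX := gr_cont hg R
  have hz := zz_cont (R := R) hx hX
  have hc := cc_cont (R := R) hx hX
  have he := ee_cont (R := R) hx hX
  have hcorr : Continuous fun p : ℝ × ℝ × ℝ => zz R p.2.1 (gr g R p.2.1 p.2.2) +
      p.1 * (2 * p.2.1 * (|ee R p.2.1 (gr g R p.2.1 p.2.2)| +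
        |cc R p.2.1 (gr g R p.2.1 p.2.2)|)) :=
    hz.add (continuous_fst.mul ((continuous_const.mul hx).mul (he.abs.add hc.abs)))
  have h := htp_LL (fun _ x φ => ee R x (gr g R x φ))
    (fun s x φ => zz R x (gr g R x φ) +
      s * (2 * x * (|ee R x (gr g R x φ)| + |cc R x (gr g R x φ)|)))
    (fun _ x φ => cc R x (gr g R x φ)) he hcorr hc
    (fun s _ x φ => by simp only [gr_per hg]) (fun s _ x φ => by simp only [gr_per hg])
    (fun s _ x φ => by simp only [gr_per hg])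
    (fun s hs x hx φ hcon => gr_ne hg hns hR hx φ
      (nz_of R x hR _ (s * (2 * x)) ⟨hcon.1, by rw [← hcon.2.1]; ring, hcon.2.2⟩))
    (fun s hs φ => by
      have h1 := gr_face_left hg hR φ
      have h2 : 0 ≤ s * (|ee R (-1) (gr g R (-1) φ)| + |cc R (-1) (gr g R (-1) φ)|) :=
        mul_nonneg hs.1 (by positivity)
      linarith)
    (fun s hs φ => by
      have h1 := gr_face_right hg hR φ
      have h2 : 0 ≤ s * (|ee R 1 (gr g R 1 φ)| + |cc R 1 (gr g R 1 φ)|) :=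
        mul_nonneg hs.1 (by positivity)
      linarith)
  have e0 : (fun x φ => LL x (ee R x (gr g R x φ)) (zz R x (gr g R x φ) +
      0 * (2 * x * (|ee R x (gr g R x φ)| + |cc R x (gr g R x φ)|))) (cc R x (gr g R x φ))) =
      fun x φ k => dd R x * (-mm g k φ x R + mm g 3 φ x R) := by
    funext x φ
    rw [zero_mul, add_zero]
    exact LL_grad g hR x φ
  have e1 : (fun x φ => LL x (ee R x (gr g R x φ)) (zz R x (gr g R x φ) +
      1 * (2 * x * (|ee R x (gr g R x φ)| + |cc R x (gr g R x φ)|))) (cc R x (gr g R x φ))) =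
      fun x φ => LL x (ee R x (gr g R x φ)) (z2 R x (gr g R x φ)) (cc R x (gr g R x φ)) := by
    funext x φ
    rw [one_mul]
    rfl
  rw [← e0, ← e1]
  exact h

/-- the deformed gradient -/
noncomputable def gs (g : ℂ → ℝ) (R s x φ : ℝ) : ℝ × ℝ × ℝ :=
  (Gp g φ x R, (1 - s * x ^ 2) * Gx g φ x R, Ge g φ x R)

theorem gs_cont (hg : Gauge g) (R : ℝ) :
    Continuous fun p : ℝ × ℝ × ℝ => gs g R p.1 p.2.1 p.2.2 := by
  have h1 : Continuous fun p : ℝ × ℝ × ℝ => Gp g p.2.2 p.2.1 R := Gp_contR hg R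
  have h2 : Continuous fun p : ℝ × ℝ × ℝ => Gx g p.2.2 p.2.1 R := Gx_contR hg R
  have h3 : Continuous fun p : ℝ × ℝ × ℝ => Ge g p.2.2 p.2.1 R := Ge_contR hg R
  have h4 : Continuous fun p : ℝ × ℝ × ℝ => (1 - p.1 * p.2.1 ^ 2) := by fun_prop
  unfold gs
  exact h1.prodMk ((h4.mul h2).prodMk h3)

theorem gs_per (hg : Gauge g) (R s x φ : ℝ) : gs g R s x (φ + 2 * π) = gs g R s x φ := by
  unfold gs
  rw [Gp_per hg, Gx_per hg, Ge_per hg]

theorem gs_ne (hg : Gauge g) (hns : NoSq g) {R : ℝ} (hR : 3 ≤ R) {s x : ℝ}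
    (hs : s ∈ Icc (0 : ℝ) 1) (hx : x ∈ Icc (-1 : ℝ) 1) (φ : ℝ) : gs g R s x φ ≠ 0 := by
  intro h
  have h1 : Gp g φ x R = 0 := congrArg Prod.fst h
  have h2 : (1 - s * x ^ 2) * Gx g φ x R = 0 := congrArg (fun t : ℝ × ℝ × ℝ => t.2.1) h
  have h3 : Ge g φ x R = 0 := congrArg (fun t : ℝ × ℝ × ℝ => t.2.2) h
  refine G_nz hg hns φ hx (by linarith : (2 : ℝ) ≤ R) ⟨h1, ?_, h3⟩
  rcases mul_eq_zero.1 h2 with h | h
  · have hx2 : x ^ 2 ≤ 1 := by nlinarith [hx.1, hx.2]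
    have : x ^ 2 = 1 := by nlinarith [hs.1, hs.2, sq_nonneg x]
    rw [this]; ring
  · rw [h, mul_zero]

theorem gs_face_left (hg : Gauge g) (hns : NoSq g) {R : ℝ} (hR : 3 ≤ R) {s : ℝ}
    (hs : s ∈ Icc (0 : ℝ) 1) (φ : ℝ) :
    ee R (-1) (gs g R s (-1) φ) + 2 * z2 R (-1) (gs g R s (-1) φ) < 0 := by
  have hne := gs_ne hg hns hR hs (x := -1) (by norm_num) φ
  have h0 := gr_face_left hg hR φ
  have hd := dd_pos (x := -1) hR
  have hE : ee R (-1) (gs g R s (-1) φ) = ee R (-1) (gr g R (-1) φ) := rfl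
  have hZ : zz R (-1) (gs g R s (-1) φ) = zz R (-1) (gr g R (-1) φ) +
      2 * R * s * Gx g φ (-1) R := by
    unfold zz gs gr
    dsimp only
    ring
  have hC : cc R (-1) (gs g R s (-1) φ) = (dd R (-1) * ((1 - s) * Gx g φ (-1) R) +
      (R + 1) * zz R (-1) (gs g R s (-1) φ)) / 2 := by
    unfold cc gs
    dsimp only
    ring
  unfold z2
  rcases le_or_gt (Gx g φ (-1) R) 0 with hG | hG
  · have h1 : 2 * R * s * Gx g φ (-1) R ≤ 0 := by
      have : 0 ≤ 2 * R * s := by nlinarith [hs.1]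
      nlinarith
    nlinarith [abs_nonneg (ee R (-1) (gs g R s (-1) φ)), abs_nonneg (cc R (-1) (gs g R s (-1) φ))]
  · have h1 : 0 ≤ dd R (-1) * ((1 - s) * Gx g φ (-1) R) :=
      mul_nonneg hd.le (mul_nonneg (by linarith [hs.2]) hG.le)
    have h2 : (R + 1) * zz R (-1) (gs g R s (-1) φ) ≤ 2 * |cc R (-1) (gs g R s (-1) φ)| := by
      have := le_abs_self (cc R (-1) (gs g R s (-1) φ))
      linarith
    have h3 : 2 * zz R (-1) (gs g R s (-1) φ) ≤ |cc R (-1) (gs g R s (-1) φ)| := by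
      by_contra hcon
      push Not at hcon
      have hc0 := abs_nonneg (cc R (-1) (gs g R s (-1) φ))
      nlinarith
    by_contra hcon
    push Not at hcon
    have ha := abs_nonneg (ee R (-1) (gs g R s (-1) φ))
    have hb := abs_nonneg (cc R (-1) (gs g R s (-1) φ))
    have hc' := le_abs_self (ee R (-1) (gs g R s (-1) φ))
    have e1 : |ee R (-1) (gs g R s (-1) φ)| = 0 := by linarith
    have e2 : |cc R (-1) (gs g R s (-1) φ)| = 0 := by linarith
    rw [e1, e2] at hcon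
    rw [abs_eq_zero] at e1 e2
    rw [e1] at hcon
    rw [e2] at hC
    have hz0 : 0 ≤ zz R (-1) (gs g R s (-1) φ) := by linarith
    have hz1 : zz R (-1) (gs g R s (-1) φ) = 0 := by nlinarith
    exact hne (nz_of R (-1) hR _ 0 ⟨e1, by rw [hz1]; ring, e2⟩)

theorem gs_face_right (hg : Gauge g) (hns : NoSq g) {R : ℝ} (hR : 3 ≤ R) {s : ℝ}
    (hs : s ∈ Icc (0 : ℝ) 1) (φ : ℝ) :
    ee R 1 (gs g R s 1 φ) - 2 * z2 R 1 (gs g R s 1 φ) < 0 := by
  have hne := gs_ne hg hns hR hs (x := 1) (by norm_num) φ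
  have h0 := gr_face_right hg hR φ
  have hd := dd_pos (x := 1) hR
  have hE : ee R 1 (gs g R s 1 φ) = ee R 1 (gr g R 1 φ) := rfl
  have hZ : zz R 1 (gs g R s 1 φ) = zz R 1 (gr g R 1 φ) +
      2 * R * s * Gx g φ 1 R := by
    unfold zz gs gr
    dsimp only
    ring
  have hC : cc R 1 (gs g R s 1 φ) = (dd R 1 * ((1 - s) * Gx g φ 1 R) +
      (R + 1) * zz R 1 (gs g R s 1 φ)) / 2 := by
    unfold cc gs
    dsimp only
    ring
  unfold z2
  rcases le_or_gt 0 (Gx g φ 1 R) with hG | hG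
  · have h1 : 0 ≤ 2 * R * s * Gx g φ 1 R := by
      have : 0 ≤ 2 * R * s := by nlinarith [hs.1]
      nlinarith
    nlinarith [abs_nonneg (ee R 1 (gs g R s 1 φ)), abs_nonneg (cc R 1 (gs g R s 1 φ))]
  · have h1 : dd R 1 * ((1 - s) * Gx g φ 1 R) ≤ 0 :=
      mul_nonpos_of_nonneg_of_nonpos hd.le
        (mul_nonpos_of_nonneg_of_nonpos (by linarith [hs.2]) hG.le)
    have h2 : -(2 * |cc R 1 (gs g R s 1 φ)|) ≤ (R + 1) * zz R 1 (gs g R s 1 φ) := by
      have := neg_abs_le (cc R 1 (gs g R s 1 φ))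
      linarith
    have h3 : -|cc R 1 (gs g R s 1 φ)| ≤ 2 * zz R 1 (gs g R s 1 φ) := by
      by_contra hcon
      push Not at hcon
      have hc0 := abs_nonneg (cc R 1 (gs g R s 1 φ))
      nlinarith
    by_contra hcon
    push Not at hcon
    have ha := abs_nonneg (ee R 1 (gs g R s 1 φ))
    have hb := abs_nonneg (cc R 1 (gs g R s 1 φ))
    have hc' := le_abs_self (ee R 1 (gs g R s 1 φ))
    have e1 : |ee R 1 (gs g R s 1 φ)| = 0 := by linarith
    have e2 : |cc R 1 (gs g R s 1 φ)| = 0 := by linarith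
    rw [e1, e2] at hcon
    rw [abs_eq_zero] at e1 e2
    rw [e1] at hcon
    rw [e2] at hC
    have hz0 : zz R 1 (gs g R s 1 φ) ≤ 0 := by linarith
    have hz1 : zz R 1 (gs g R s 1 φ) = 0 := by nlinarith
    exact hne (nz_of R 1 hR _ 0 ⟨e1, by rw [hz1]; ring, e2⟩)

/-- step 3 : from the gradient to the tangential gradient. -/
theorem step3 (hg : Gauge g) (hns : NoSq g) {R : ℝ} (hR : 3 ≤ R) :
    Htp Good
      (fun x φ => LL x (ee R x (gr g R x φ)) (z2 R x (gr g R x φ)) (cc R x (gr g R x φ)))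
      (fun x φ => LL x (ee R x (Gp g φ x R, (1 - x ^ 2) * Gx g φ x R, Ge g φ x R))
        (z2 R x (Gp g φ x R, (1 - x ^ 2) * Gx g φ x R, Ge g φ x R))
        (cc R x (Gp g φ x R, (1 - x ^ 2) * Gx g φ x R, Ge g φ x R))) := by
  have hx : Continuous fun p : ℝ × ℝ × ℝ => p.2.1 := by fun_prop
  have hX := gs_cont hg R
  have h := htp_LL (fun s x φ => ee R x (gs g R s x φ)) (fun s x φ => z2 R x (gs g R s x φ))
    (fun s x φ => cc R x (gs g R s x φ)) (ee_cont hx hX) (z2_cont hx hX) (cc_cont hx hX)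
    (fun s _ x φ => by simp only [gs_per hg]) (fun s _ x φ => by simp only [gs_per hg])
    (fun s _ x φ => by simp only [gs_per hg])
    (fun s hs x hx φ hcon => gs_ne hg hns hR hs hx φ (nz_of R x hR _ (2 * x) hcon))
    (fun s hs φ => gs_face_left hg hns hR hs φ)
    (fun s hs φ => gs_face_right hg hns hR hs φ)
  have e0 : ∀ x φ, gs g R 0 x φ = gr g R x φ := by
    intro x φ
    unfold gs gr
    rw [zero_mul, sub_zero, one_mul]
  have e1 : ∀ x φ, gs g R 1 x φ = (Gp g φ x R, (1 - x ^ 2) * Gx g φ x R, Ge g φ x R) := by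
    intro x φ
    unfold gs
    rw [one_mul]
  simp only [e0, e1] at h
  exact h

/-- step 4 : transport of a homotopy of displacement fields. -/
theorem step4 {R : ℝ} (hR : 3 ≤ R) {F Y : ℝ → ℝ → ℝ × ℝ × ℝ} (h : Htp GoodV F Y) :
    Htp Good (fun x φ => LL x (ee R x (F x φ)) (z2 R x (F x φ)) (cc R x (F x φ)))
      (fun x φ => LL x (ee R x (Y x φ)) (z2 R x (Y x φ)) (cc R x (Y x φ))) := by
  obtain ⟨H, hc, h0, h1, hP⟩ := h
  have hx : Continuous fun p : ℝ × ℝ × ℝ => p.2.1 := by fun_prop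
  have hper : ∀ s ∈ Icc (0 : ℝ) 1, ∀ x φ, H s x (φ + 2 * π) = H s x φ :=
    fun s hs => (hP s hs).2.2.2
  have key := htp_LL (fun s x φ => ee R x (H s x φ)) (fun s x φ => z2 R x (H s x φ))
    (fun s x φ => cc R x (H s x φ)) (ee_cont hx hc) (z2_cont hx hc) (cc_cont hx hc)
    (fun s hs x φ => by simp only [hper s hs]) (fun s hs x φ => by simp only [hper s hs])
    (fun s hs x φ => by simp only [hper s hs])
    (fun s hs x hx φ hcon => (hP s hs).1 x hx φ (nz_of R x hR _ (2 * x) hcon))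
    (fun s hs φ => face_left_V hR ((hP s hs).1 (-1) (by norm_num) φ) ((hP s hs).2.1 φ))
    (fun s hs φ => face_right_V hR ((hP s hs).1 1 (by norm_num) φ) ((hP s hs).2.2.1 φ))
  rw [h0, h1] at key
  exact key

/-- step 5 : the final contraction. -/
theorem step5 {R : ℝ} (hR : 3 ≤ R) {Y : ℝ → ℝ → ℝ × ℝ × ℝ}
    (hc : Continuous fun p : ℝ × ℝ × ℝ => Y p.2.1 p.2.2) (hY : GoodV Y)
    (hneg : ∀ x ∈ Icc (-1 : ℝ) 1, ∀ φ, (Y x φ).2.2 < 0) :
    Htp Good (fun x φ => LL x (ee R x (Y x φ)) (z2 R x (Y x φ)) (cc R x (Y x φ)))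
      (fun _ _ => ![1, 1, 0, 0]) := by
  have hx : Continuous fun p : ℝ × ℝ × ℝ => p.2.1 := by fun_prop
  have hper : ∀ x φ, Y x (φ + 2 * π) = Y x φ := hY.2.2.2
  have h1s : Continuous fun p : ℝ × ℝ × ℝ => 1 - p.1 := by fun_prop
  have h2s : Continuous fun p : ℝ × ℝ × ℝ => 2 * p.1 := by fun_prop
  have key := htp_LL (fun s x φ => (1 - s) * ee R x (Y x φ) - 2 * s)
    (fun s x φ => (1 - s) * z2 R x (Y x φ))
    (fun s x φ => (1 - s) * cc R x (Y x φ))
    ((h1s.mul (ee_cont hx hc)).sub h2s) (h1s.mul (z2_cont hx hc)) (h1s.mul (cc_cont hx hc))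
    (fun s hs x φ => by simp only [hper]) (fun s hs x φ => by simp only [hper])
    (fun s hs x φ => by simp only [hper])
    (fun s hs x hx φ hcon => by
      have h1 : ee R x (Y x φ) < 0 := by
        unfold ee
        exact mul_neg_of_pos_of_neg (dd_pos hR) (hneg x hx φ)
      have h2 := hcon.1
      rcases eq_or_lt_of_le hs.1 with h | h
      · rw [← h] at h2
        linarith
      · nlinarith [mul_nonneg (sub_nonneg.2 hs.2) (neg_nonneg.2 h1.le)])
    (fun s hs φ => by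
      have h1 := face_left_V hR (hY.1 (-1) (by norm_num) φ) (hY.2.1 φ)
      rcases eq_or_lt_of_le hs.1 with h | h
      · rw [← h]
        linarith
      · nlinarith [mul_nonneg (sub_nonneg.2 hs.2) (neg_nonneg.2 h1.le)])
    (fun s hs φ => by
      have h1 := face_right_V hR (hY.1 1 (by norm_num) φ) (hY.2.2.1 φ)
      rcases eq_or_lt_of_le hs.1 with h | h
      · rw [← h]
        linarith
      · nlinarith [mul_nonneg (sub_nonneg.2 hs.2) (neg_nonneg.2 h1.le)])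
  have e1 : ∀ x φ, LL x ((1 - 1) * ee R x (Y x φ) - 2 * 1) ((1 - 1) * z2 R x (Y x φ))
      ((1 - 1) * cc R x (Y x φ)) = ![1, 1, 0, 0] := by
    intro x φ
    unfold LL
    norm_num
  simp only [e1] at key
  simpa using key

/-! ### Task C : chain of homotopies -/

theorem chain (hg : Gauge g) (hns : NoSq g) {R : ℝ} (hR : 3 ≤ R)
    (Y : ℝ → ℝ → ℝ × ℝ × ℝ)
    (hY : Htp GoodV (fun x φ => (Gp g φ x R, (1 - x ^ 2) * Gx g φ x R, Ge g φ x R)) Y)
    (hneg : ∀ x ∈ Icc (-1 : ℝ) 1, ∀ φ, (Y x φ).2.2 < 0) :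
    Htp Good (fun x φ k => lam g k x R φ) (fun _ _ => ![1, 1, 0, 0]) := by
  have hYc : Continuous fun p : ℝ × ℝ × ℝ => Y p.2.1 p.2.2 := by
    obtain ⟨H, hc, _, h1, _⟩ := hY
    have h := hc.comp (by fun_prop :
      Continuous fun p : ℝ × ℝ × ℝ => (((1 : ℝ), p.2.1, p.2.2) : ℝ × ℝ × ℝ))
    simp only [Function.comp_def, h1] at h
    exact h
  have hYg : GoodV Y := by
    obtain ⟨H, _, _, h1, hP⟩ := hY
    rw [← h1]
    exact hP 1 (by norm_num)
  exact (((((step0 hg hns hR).trans (step1 hg hns hR)).trans (step2 hg hns hR)).trans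
    (step3 hg hns hR)).trans (step4 hR hY)).trans (step5 hR hYc hYg hneg)

end H828SS
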