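import Mathlib

/-!
# Star-shaped Jordan curves inscribe squares: definitions (helper828)

Definitions shared by all files of the project.  `g` is the gauge of the star-shaped curve
`{z | g z = 1}`.
-/

open Set Real

namespace H828SS

/-- `x`-offset of corner `k` of the square with corners `(1,1), (-1,1), (-1,-1), (1,-1)`. -/
def ca (k : Fin 4) : ℝ := ![1, -1, -1, 1] k

/-- `y`-offset of corner `k`. -/
def cb (k : Fin 4) : ℝ := ![1, 1, -1, -1] k

/-- the sign `(-1)^k` of corner `k`. -/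
def cs (k : Fin 4) : ℝ := ![1, -1, 1, -1] k

/-- A gauge: continuous, positive away from `0`, positively homogeneous of degree one. -/
structure Gauge (g : ℂ → ℝ) : Prop where
  cont : Continuous g
  pos : ∀ z, z ≠ 0 → 0 < g z
  hom : ∀ (t : ℝ) (z : ℂ), 0 ≤ t → g ((t : ℂ) * z) = t * g z

/-- corner `k` of the square with centre `x + i y`, everything rotated by `φ` about the origin. -/
noncomputable def vtx (k : Fin 4) (x y φ : ℝ) : ℂ :=
  Complex.exp ((φ : ℂ) * Complex.I) * (((x + ca k : ℝ) : ℂ) + ((y + cb k : ℝ) : ℂ) * Complex.I)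

/-- gauge of corner `k`. -/
noncomputable def lam (g : ℂ → ℝ) (k : Fin 4) (x y φ : ℝ) : ℝ := g (vtx k x y φ)

/-- No inscribed square seen from the origin in a cross position. -/
def NoSq (g : ℂ → ℝ) : Prop :=
  ∀ x y φ : ℝ, (|x| ≤ 1 ∨ |y| ≤ 1) → ∃ j k : Fin 4, lam g j x y φ ≠ lam g k x y φ

/-- `F` and `G` (functions of `(x, φ)`) are joined by a homotopy through functions satisfying
`P`. -/
def Htp {E : Type*} [TopologicalSpace E] (P : (ℝ → ℝ → E) → Prop) (F G : ℝ → ℝ → E) : Prop :=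
  ∃ H : ℝ → ℝ → ℝ → E, (Continuous fun p : ℝ × ℝ × ℝ => H p.1 p.2.1 p.2.2) ∧
    H 0 = F ∧ H 1 = G ∧ ∀ s ∈ Icc (0 : ℝ) 1, P (H s)

/-- Admissible data on the section of an arm: functions of `(x, φ)`, `|x| ≤ 1`. -/
def Good (F : ℝ → ℝ → (Fin 4 → ℝ)) : Prop :=
  (∀ x ∈ Icc (-1 : ℝ) 1, ∀ φ, ∃ j k, F x φ j ≠ F x φ k) ∧
  (∀ φ, F (-1) φ 3 < F (-1) φ 0) ∧ (∀ φ, F 1 φ 2 < F 1 φ 1) ∧
  (∀ x φ, F x (φ + 2 * π) = F x φ)

/-- Admissible displacement fields on the section of an arm. Coordinates of the value: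
`(φ, x, η)`. -/
def GoodV (X : ℝ → ℝ → ℝ × ℝ × ℝ) : Prop :=
  (∀ x ∈ Icc (-1 : ℝ) 1, ∀ φ, X x φ ≠ 0) ∧
  (∀ φ, (X (-1) φ).2.1 = 0) ∧ (∀ φ, (X 1 φ).2.1 = 0) ∧
  (∀ x φ, X x (φ + 2 * π) = X x φ)

/-! ### The potential on an arm -/

/-- half the square of the radial function in direction `θ + π/2`. -/
noncomputable def hh (g : ℂ → ℝ) (θ : ℝ) : ℝ :=
  1 / (2 * g (Complex.I * Complex.exp ((θ : ℂ) * Complex.I)) ^ 2)

/-- its primitive. -/
noncomputable def HH (g : ℂ → ℝ) (θ : ℝ) : ℝ := ∫ t in (0 : ℝ)..θ, hh g t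

/-- squared distance of corner `k` from the origin (`η` is replaced by `max η 2` everywhere). -/
noncomputable def ww (k : Fin 4) (x η : ℝ) : ℝ := (x + ca k) ^ 2 + (max η 2 + cb k) ^ 2

/-- angle of corner `k` with the vertical (clockwise). -/
noncomputable def beta (k : Fin 4) (x η : ℝ) : ℝ := arctan ((x + ca k) / (max η 2 + cb k))

/-- `1 / (2 λ_k ^ 2)`. -/
noncomputable def mm (g : ℂ → ℝ) (k : Fin 4) (φ x η : ℝ) : ℝ :=
  hh g (φ - beta k x η) / ww k x η

/-- the potential: sum of the areas of the two sectors seen from the origin. -/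
noncomputable def GG (g : ℂ → ℝ) (φ x η : ℝ) : ℝ :=
  (HH g (φ - beta 0 x η) - HH g (φ - beta 3 x η)) +
    (HH g (φ - beta 2 x η) - HH g (φ - beta 1 x η))

/-- `φ`-derivative of the potential. -/
noncomputable def Gp (g : ℂ → ℝ) (φ x η : ℝ) : ℝ := ∑ k, cs k * (mm g k φ x η * ww k x η)

/-- `x`-derivative of the potential. -/
noncomputable def Gx (g : ℂ → ℝ) (φ x η : ℝ) : ℝ :=
  -∑ k, cs k * (mm g k φ x η * (max η 2 + cb k))

/-- `η`-derivative of the potential. -/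
noncomputable def Ge (g : ℂ → ℝ) (φ x η : ℝ) : ℝ := ∑ k, cs k * (mm g k φ x η * (x + ca k))

end H828SS
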