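import Pool.Agent.H828R2.SS.Defs

/-! # Task P: the discrete parity lemma (helper354)

A `ℤ/4`-equivariant Sperner lemma on a grid: proof by counting modulo 2 in the Kuhn
triangulation. -/

open Finset

namespace H828SS
namespace Par

/-- indicator of a triangle with labels `{0,1,2}`. -/
def tA (p q r : Fin 4) : ZMod 2 :=
  if (p = 0 ∨ q = 0 ∨ r = 0) ∧ (p = 1 ∨ q = 1 ∨ r = 1) ∧ (p = 2 ∨ q = 2 ∨ r = 2) then 1 else 0

/-- indicator of a triangle with labels `{1,2,3}`. -/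
def tB (p q r : Fin 4) : ZMod 2 :=
  if (p = 3 ∨ q = 3 ∨ r = 3) ∧ (p = 1 ∨ q = 1 ∨ r = 1) ∧ (p = 2 ∨ q = 2 ∨ r = 2) then 1 else 0

/-- indicator of an edge with labels `{a,b}`. -/
def e (a b p q : Fin 4) : ZMod 2 :=
  if (p = a ∧ q = b) ∨ (p = b ∧ q = a) then 1 else 0

/-- indicator of a label. -/
def d (a p : Fin 4) : ZMod 2 := if p = a then 1 else 0

/-- sum over the two triangles of a square (diagonal `p00 p11`). -/
def S (t : Fin 4 → Fin 4 → Fin 4 → ZMod 2) (p00 p10 p01 p11 : Fin 4) : ZMod 2 :=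
  t p00 p10 p11 + t p00 p01 p11

theorem two (x : ZMod 2) : x + x = 0 := by revert x; decide

theorem tet : ∀ p q r s : Fin 4, ¬(∀ k : Fin 4, p = k ∨ q = k ∨ r = k ∨ s = k) →
    tA p q r + tA p q s + tA p r s + tA q r s = 0 := by decide

theorem tAB : ∀ p q r : Fin 4, tA p q r + tB p q r = e 1 2 p q + e 1 2 q r + e 1 2 p r := by
  decide

theorem tA3 : ∀ p q r : Fin 4, p ≠ 3 → q ≠ 3 → r ≠ 3 →
    tA p q r = e 0 2 p q + e 0 2 q r + e 0 2 p r := by decide

theorem tA0 : ∀ p q r : Fin 4, p ≠ 0 → q ≠ 0 → r ≠ 0 → tA p q r = 0 := by decide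

theorem tA1 : ∀ p q r : Fin 4, p ≠ 1 → q ≠ 1 → r ≠ 1 → tA p q r = 0 := by decide

theorem tA2 : ∀ p q r : Fin 4, p ≠ 2 → q ≠ 2 → r ≠ 2 → tA p q r = 0 := by decide

theorem tAshift : ∀ p q r : Fin 4, tA (p - 1) (q - 1) (r - 1) = tB p q r := by decide

theorem eshift : ∀ p q : Fin 4, e 0 2 (p - 1) (q - 1) = e 1 3 p q := by decide

theorem tAeq1 : ∀ p q : Fin 4, tA p p q = 0 := by decide

theorem tAeq2 : ∀ p q : Fin 4, tA p q q = 0 := by decide

theorem eself (a b p : Fin 4) (h : a ≠ b) : e a b p p = 0 := by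
  revert a b p; decide

theorem e12_2 : ∀ p q : Fin 4, p ≠ 2 → q ≠ 2 → e 1 2 p q = 0 := by decide

theorem e12_1 : ∀ p q : Fin 4, p ≠ 1 → q ≠ 1 → e 1 2 p q = 0 := by decide

theorem e02_2 : ∀ p q : Fin 4, p ≠ 2 → q ≠ 2 → e 0 2 p q = 0 := by decide

theorem e02_0 : ∀ p q : Fin 4, p ≠ 0 → q ≠ 0 → e 0 2 p q = 0 := by decide

theorem d2 : ∀ p q : Fin 4, p ≠ 3 → q ≠ 3 → e 1 2 p q + e 0 2 p q = d 2 p + d 2 q := by decide

theorem d1 : ∀ p q : Fin 4, p ≠ 0 → q ≠ 0 → e 1 2 p q + e 1 3 p q = d 1 p + d 1 q := by decide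

theorem d12 : ∀ p : Fin 4, p ≠ 0 → p ≠ 3 → d 2 p + d 1 p = 1 := by decide

theorem dne (a p : Fin 4) (h : p ≠ a) : d a p = 0 := by simp [d, h]

/-- the sum over the six faces of a cube which does not contain all four labels. -/
theorem cube (c000 c100 c010 c001 c110 c101 c011 c111 : Fin 4)
    (h : ¬∀ k : Fin 4, c000 = k ∨ c100 = k ∨ c010 = k ∨ c001 = k ∨ c110 = k ∨ c101 = k ∨
      c011 = k ∨ c111 = k) :
    (S tA c000 c010 c001 c011 + S tA c100 c110 c101 c111) +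
      (S tA c000 c100 c001 c101 + S tA c010 c110 c011 c111) +
      (S tA c000 c100 c010 c110 + S tA c001 c101 c011 c111) = 0 := by
  have h1 := tet c000 c100 c110 c111 (fun g => h fun k => by have := g k; tauto)
  have h2 := tet c000 c100 c101 c111 (fun g => h fun k => by have := g k; tauto)
  have h3 := tet c000 c010 c110 c111 (fun g => h fun k => by have := g k; tauto)
  have h4 := tet c000 c010 c011 c111 (fun g => h fun k => by have := g k; tauto)
  have h5 := tet c000 c001 c101 c111 (fun g => h fun k => by have := g k; tauto)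
  have h6 := tet c000 c001 c011 c111 (fun g => h fun k => by have := g k; tauto)
  have g1 := two (tA c000 c100 c111)
  have g2 := two (tA c000 c010 c111)
  have g3 := two (tA c000 c001 c111)
  have g4 := two (tA c000 c110 c111)
  have g5 := two (tA c000 c101 c111)
  have g6 := two (tA c000 c011 c111)
  unfold S
  linear_combination h1 + h2 + h3 + h4 + h5 + h6 - g1 - g2 - g3 - g4 - g5 - g6

/-- telescoping in characteristic two. -/
theorem tele (f : ℕ → ZMod 2) (N : ℕ) : ∑ j ∈ range N, (f j + f (j + 1)) = f 0 + f N := by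
  induction N with
  | zero => simp [two]
  | succ N ih =>
    rw [sum_range_succ, ih]
    linear_combination two (f N)

theorem shift_sum (f : ℕ → ZMod 2) (N : ℕ) (hf : ∀ j, f (j + N) = f j) (n : ℕ) :
    ∑ j ∈ range N, f (j + n) = ∑ j ∈ range N, f j := by
  induction n with
  | zero => simp
  | succ n ih =>
    rw [← ih]
    have h1 := sum_range_succ (fun j => f (j + n)) N
    have h2 := sum_range_succ' (fun j => f (j + n)) N
    rw [h1] at h2
    have h3 : f (N + n) = f (0 + n) := by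
      rw [show N + n = n + N by ring, hf, zero_add]
    rw [h3] at h2
    have h4 := add_right_cancel h2
    rw [h4]
    refine sum_congr rfl fun j _ => ?_
    congr 1
    ring

/-- splitting a range of length `4 n`. -/
theorem split4 (f : ℕ → ZMod 2) (n : ℕ) :
    ∑ j ∈ range (4 * n), f j = ∑ j ∈ range n, f j + ∑ j ∈ range n, f (n + j) +
      ∑ j ∈ range n, f (2 * n + j) + ∑ j ∈ range n, f (3 * n + j) := by
  have h1 : 4 * n = 3 * n + n := by ring
  have h2 : 3 * n = 2 * n + n := by ring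
  have h3 : 2 * n = n + n := by ring
  rw [h1, sum_range_add]
  rw [h2, sum_range_add]
  rw [h3, sum_range_add]

end Par

open Par

set_option linter.unusedVariables false in
theorem parity (n m T : ℕ) (hn : 0 < n) (hm : 0 < m) (hT : 0 < T) (ℓ : ℕ → ℕ → ℕ → Fin 4)
    (hper : ∀ i j l, ℓ i (j + 4 * n) l = ℓ i j l)
    (heq : ∀ i j, i ≤ m → ℓ i j T = ℓ i (j + n) 0 - 1)
    (h0 : ∀ j l, ℓ 0 j l = ℓ 0 0 l)
    (b2 : ∀ j l, j ≤ n → l ≤ T → ℓ m j l ≠ 2)
    (b3 : ∀ j l, n ≤ j → j ≤ 2 * n → l ≤ T → ℓ m j l ≠ 3)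
    (b0 : ∀ j l, 2 * n ≤ j → j ≤ 3 * n → l ≤ T → ℓ m j l ≠ 0)
    (b1 : ∀ j l, 3 * n ≤ j → j ≤ 4 * n → l ≤ T → ℓ m j l ≠ 1) :
    ∃ i < m, ∃ j < 4 * n, ∃ l < T, ∀ k : Fin 4,
      ∃ di ≤ 1, ∃ dj ≤ 1, ∃ dl ≤ 1, ℓ (i + di) (j + dj) (l + dl) = k := by
  by_contra hcon
  push Not at hcon
  -- no cube contains all four labels
  have hcube : ∀ i < m, ∀ j < 4 * n, ∀ l < T, ¬∀ k : Fin 4, ℓ i j l = k ∨ ℓ (i + 1) j l = k ∨
      ℓ i (j + 1) l = k ∨ ℓ i j (l + 1) = k ∨ ℓ (i + 1) (j + 1) l = k ∨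
      ℓ (i + 1) j (l + 1) = k ∨ ℓ i (j + 1) (l + 1) = k ∨ ℓ (i + 1) (j + 1) (l + 1) = k := by
    intro i hi j hj l hl hall
    obtain ⟨k, hk⟩ := hcon i hi j hj l hl
    rcases hall k with h | h | h | h | h | h | h | h
    · exact hk 0 (by omega) 0 (by omega) 0 (by omega) h
    · exact hk 1 (by omega) 0 (by omega) 0 (by omega) h
    · exact hk 0 (by omega) 1 (by omega) 0 (by omega) h
    · exact hk 0 (by omega) 0 (by omega) 1 (by omega) h
    · exact hk 1 (by omega) 1 (by omega) 0 (by omega) h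
    · exact hk 1 (by omega) 0 (by omega) 1 (by omega) h
    · exact hk 0 (by omega) 1 (by omega) 1 (by omega) h
    · exact hk 1 (by omega) 1 (by omega) 1 (by omega) h
  -- face sums
  let Si : ℕ → ℕ → ℕ → ZMod 2 := fun i j l =>
    S tA (ℓ i j l) (ℓ i (j + 1) l) (ℓ i j (l + 1)) (ℓ i (j + 1) (l + 1))
  let Sj : ℕ → ℕ → ℕ → ZMod 2 := fun i j l =>
    S tA (ℓ i j l) (ℓ (i + 1) j l) (ℓ i j (l + 1)) (ℓ (i + 1) j (l + 1))
  let Sl : (Fin 4 → Fin 4 → Fin 4 → ZMod 2) → ℕ → ℕ → ℕ → ZMod 2 := fun t i j l =>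
    S t (ℓ i j l) (ℓ (i + 1) j l) (ℓ i (j + 1) l) (ℓ (i + 1) (j + 1) l)
  have hsum : ∀ i < m, ∀ j < 4 * n, ∀ l < T,
      (Si i j l + Si (i + 1) j l) + (Sj i j l + Sj i (j + 1) l) +
        (Sl tA i j l + Sl tA i j (l + 1)) = 0 := by
    intro i hi j hj l hl
    exact cube _ _ _ _ _ _ _ _ (hcube i hi j hj l hl)
  -- the sum over all cubes
  have hSj : ∀ i l, ∑ j ∈ range (4 * n), (Sj i j l + Sj i (j + 1) l) = 0 := by
    intro i l
    rw [tele (fun j => Sj i j l)]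
    have : Sj i (4 * n) l = Sj i 0 l := by
      have h := fun i l => hper i 0 l
      simp only [Nat.zero_add] at h
      simp only [Sj, h]
    simp only [this, two]
  have hSi0 : ∀ j l, Si 0 j l = 0 := by
    intro j l
    have e1 : ℓ 0 (j + 1) l = ℓ 0 j l := by rw [h0 (j + 1), h0 j]
    have e2 : ℓ 0 (j + 1) (l + 1) = ℓ 0 j (l + 1) := by rw [h0 (j + 1), h0 j]
    simp only [Si, S, e1, e2, tAeq1, tAeq2, add_zero]
  have hSi : ∀ j l, ∑ i ∈ range m, (Si i j l + Si (i + 1) j l) = Si m j l := by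
    intro j l
    rw [tele (fun i => Si i j l), hSi0, zero_add]
  have hSl : ∀ i j, ∑ l ∈ range T, (Sl tA i j l + Sl tA i j (l + 1)) =
      Sl tA i j 0 + Sl tA i j T := by
    intro i j
    rw [tele (fun l => Sl tA i j l)]
  have key : ∑ j ∈ range (4 * n), ∑ l ∈ range T, Si m j l +
      ∑ i ∈ range m, ∑ j ∈ range (4 * n), (Sl tA i j 0 + Sl tA i j T) = 0 := by
    have h2 : ∑ i ∈ range m, ∑ j ∈ range (4 * n), ∑ l ∈ range T,
        (Si i j l + Si (i + 1) j l) = ∑ j ∈ range (4 * n), ∑ l ∈ range T, Si m j l := by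
      rw [sum_comm]
      refine sum_congr rfl fun j _ => ?_
      rw [sum_comm]
      exact sum_congr rfl fun l _ => hSi j l
    have h3 : ∑ i ∈ range m, ∑ j ∈ range (4 * n), ∑ l ∈ range T,
        (Sj i j l + Sj i (j + 1) l) = 0 := by
      refine sum_eq_zero fun i _ => ?_
      rw [sum_comm]
      exact sum_eq_zero fun l _ => hSj i l
    have h4 : ∑ i ∈ range m, ∑ j ∈ range (4 * n), ∑ l ∈ range T,
        (Sl tA i j l + Sl tA i j (l + 1)) =
        ∑ i ∈ range m, ∑ j ∈ range (4 * n), (Sl tA i j 0 + Sl tA i j T) := by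
      refine sum_congr rfl fun i _ => sum_congr rfl fun j _ => hSl i j
    have h5 : ∑ i ∈ range m, ∑ j ∈ range (4 * n), ∑ l ∈ range T,
        ((Si i j l + Si (i + 1) j l) + (Sj i j l + Sj i (j + 1) l) +
        (Sl tA i j l + Sl tA i j (l + 1))) =
        ∑ i ∈ range m, ∑ j ∈ range (4 * n), ∑ l ∈ range T, (Si i j l + Si (i + 1) j l) +
        ∑ i ∈ range m, ∑ j ∈ range (4 * n), ∑ l ∈ range T, (Sj i j l + Sj i (j + 1) l) +
        ∑ i ∈ range m, ∑ j ∈ range (4 * n), ∑ l ∈ range T,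
          (Sl tA i j l + Sl tA i j (l + 1)) := by
      simp only [sum_add_distrib]
    have h1' : ∑ i ∈ range m, ∑ j ∈ range (4 * n), ∑ l ∈ range T,
        ((Si i j l + Si (i + 1) j l) + (Sj i j l + Sj i (j + 1) l) +
        (Sl tA i j l + Sl tA i j (l + 1))) = 0 := by
      refine sum_eq_zero fun i hi => sum_eq_zero fun j hj => sum_eq_zero fun l hl => ?_
      exact hsum i (mem_range.1 hi) j (mem_range.1 hj) l (mem_range.1 hl)
    rw [h5, h2, h3, h4, add_zero] at h1'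
    exact h1'
  -- top level in terms of the bottom level
  have htop : ∀ i < m, ∑ j ∈ range (4 * n), Sl tA i j T = ∑ j ∈ range (4 * n), Sl tB i j 0 := by
    intro i hi
    rw [← shift_sum (fun j => Sl tB i j 0) (4 * n) (fun j => ?_) n]
    · refine sum_congr rfl fun j _ => ?_
      have e1 : j + 1 + n = j + n + 1 := by ring
      simp only [Sl, S, heq i j hi.le, heq (i + 1) j (by omega), heq i (j + 1) hi.le,
        heq (i + 1) (j + 1) (by omega), tAshift, e1]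
    · have e1 : j + 4 * n + 1 = j + 1 + 4 * n := by ring
      simp only [Sl, e1, hper]
  -- squares at the bottom level
  have hAB : ∀ i j, Sl tA i j 0 + Sl tB i j 0 =
      (e 1 2 (ℓ i j 0) (ℓ (i + 1) j 0) + e 1 2 (ℓ i (j + 1) 0) (ℓ (i + 1) (j + 1) 0)) +
      (e 1 2 (ℓ i j 0) (ℓ i (j + 1) 0) + e 1 2 (ℓ (i + 1) j 0) (ℓ (i + 1) (j + 1) 0)) := by
    intro i j
    have h1 := tAB (ℓ i j 0) (ℓ (i + 1) j 0) (ℓ (i + 1) (j + 1) 0)
    have h2 := tAB (ℓ i j 0) (ℓ i (j + 1) 0) (ℓ (i + 1) (j + 1) 0)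
    have h3 := two (e 1 2 (ℓ i j 0) (ℓ (i + 1) (j + 1) 0))
    simp only [Sl, S]
    linear_combination h1 + h2 + h3
  have hbot : ∑ i ∈ range m, ∑ j ∈ range (4 * n), (Sl tA i j 0 + Sl tB i j 0) =
      ∑ j ∈ range (4 * n), e 1 2 (ℓ m j 0) (ℓ m (j + 1) 0) := by
    have h1 : ∀ i, ∑ j ∈ range (4 * n), (e 1 2 (ℓ i j 0) (ℓ (i + 1) j 0) +
        e 1 2 (ℓ i (j + 1) 0) (ℓ (i + 1) (j + 1) 0)) = 0 := by
      intro i
      rw [tele (fun j => e 1 2 (ℓ i j 0) (ℓ (i + 1) j 0))]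
      have h := fun i => hper i 0 0
      simp only [Nat.zero_add] at h
      simp only [h, two]
    have h2 : ∀ j, ∑ i ∈ range m, (e 1 2 (ℓ i j 0) (ℓ i (j + 1) 0) +
        e 1 2 (ℓ (i + 1) j 0) (ℓ (i + 1) (j + 1) 0)) = e 1 2 (ℓ m j 0) (ℓ m (j + 1) 0) := by
      intro j
      rw [tele (fun i => e 1 2 (ℓ i j 0) (ℓ i (j + 1) 0))]
      have : ℓ 0 (j + 1) 0 = ℓ 0 j 0 := by rw [h0 (j + 1), h0 j]
      rw [this, eself 1 2 _ (by decide), zero_add]
    have h3 : ∑ i ∈ range m, ∑ j ∈ range (4 * n), (Sl tA i j 0 + Sl tB i j 0) =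
        ∑ i ∈ range m, ∑ j ∈ range (4 * n), (e 1 2 (ℓ i j 0) (ℓ (i + 1) j 0) +
          e 1 2 (ℓ i (j + 1) 0) (ℓ (i + 1) (j + 1) 0)) +
        ∑ i ∈ range m, ∑ j ∈ range (4 * n), (e 1 2 (ℓ i j 0) (ℓ i (j + 1) 0) +
          e 1 2 (ℓ (i + 1) j 0) (ℓ (i + 1) (j + 1) 0)) := by
      simp only [hAB, sum_add_distrib]
    rw [h3, sum_eq_zero (fun i _ => h1 i), zero_add, sum_comm]
    exact sum_congr rfl fun j _ => h2 j
  -- the lateral boundary
  have hlat : ∑ j ∈ range (4 * n), ∑ l ∈ range T, Si m j l =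
      ∑ j ∈ range n, ∑ l ∈ range T, Si m (n + j) l := by
    rw [split4]
    have z1 : ∑ j ∈ range n, ∑ l ∈ range T, Si m j l = 0 := by
      refine sum_eq_zero fun j hj => sum_eq_zero fun l hl => ?_
      rw [mem_range] at hj hl
      simp only [Si, S]
      rw [tA2 _ _ _ (b2 _ _ (by omega) (by omega)) (b2 _ _ (by omega) (by omega))
        (b2 _ _ (by omega) (by omega)), tA2 _ _ _ (b2 _ _ (by omega) (by omega))
        (b2 _ _ (by omega) (by omega)) (b2 _ _ (by omega) (by omega)), add_zero]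
    have z3 : ∑ j ∈ range n, ∑ l ∈ range T, Si m (2 * n + j) l = 0 := by
      refine sum_eq_zero fun j hj => sum_eq_zero fun l hl => ?_
      rw [mem_range] at hj hl
      simp only [Si, S]
      rw [tA0 _ _ _ (b0 _ _ (by omega) (by omega) (by omega))
        (b0 _ _ (by omega) (by omega) (by omega)) (b0 _ _ (by omega) (by omega) (by omega)),
        tA0 _ _ _ (b0 _ _ (by omega) (by omega) (by omega))
        (b0 _ _ (by omega) (by omega) (by omega)) (b0 _ _ (by omega) (by omega) (by omega)),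
        add_zero]
    have z4 : ∑ j ∈ range n, ∑ l ∈ range T, Si m (3 * n + j) l = 0 := by
      refine sum_eq_zero fun j hj => sum_eq_zero fun l hl => ?_
      rw [mem_range] at hj hl
      simp only [Si, S]
      rw [tA1 _ _ _ (b1 _ _ (by omega) (by omega) (by omega))
        (b1 _ _ (by omega) (by omega) (by omega)) (b1 _ _ (by omega) (by omega) (by omega)),
        tA1 _ _ _ (b1 _ _ (by omega) (by omega) (by omega))
        (b1 _ _ (by omega) (by omega) (by omega)) (b1 _ _ (by omega) (by omega) (by omega)),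
        add_zero]
    rw [z1, z3, z4]
    ring
  have hsq : ∀ j < n, ∀ l < T, Si m (n + j) l =
      (e 0 2 (ℓ m (n + j) l) (ℓ m (n + j) (l + 1)) +
        e 0 2 (ℓ m (n + (j + 1)) l) (ℓ m (n + (j + 1)) (l + 1))) +
      (e 0 2 (ℓ m (n + j) l) (ℓ m (n + j + 1) l) +
        e 0 2 (ℓ m (n + j) (l + 1)) (ℓ m (n + j + 1) (l + 1))) := by
    intro j hj l hl
    have a1 := b3 (n + j) l (by omega) (by omega) (by omega)
    have a2 := b3 (n + j + 1) l (by omega) (by omega) (by omega)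
    have a3 := b3 (n + j) (l + 1) (by omega) (by omega) (by omega)
    have a4 := b3 (n + j + 1) (l + 1) (by omega) (by omega) (by omega)
    have h1 := tA3 _ _ _ a1 a2 a4
    have h2 := tA3 _ _ _ a1 a3 a4
    have h3 := two (e 0 2 (ℓ m (n + j) l) (ℓ m (n + j + 1) (l + 1)))
    have e1 : n + (j + 1) = n + j + 1 := by ring
    simp only [Si, S, e1]
    linear_combination h1 + h2 + h3
  have hLHS : ∑ j ∈ range n, ∑ l ∈ range T, Si m (n + j) l =
      ∑ j ∈ range n, e 0 2 (ℓ m (n + j) 0) (ℓ m (n + j + 1) 0) +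
      ∑ j ∈ range n, e 1 3 (ℓ m (2 * n + j) 0) (ℓ m (2 * n + j + 1) 0) := by
    have h1 : ∑ j ∈ range n, ∑ l ∈ range T, Si m (n + j) l =
        ∑ j ∈ range n, ∑ l ∈ range T, (e 0 2 (ℓ m (n + j) l) (ℓ m (n + j) (l + 1)) +
        e 0 2 (ℓ m (n + (j + 1)) l) (ℓ m (n + (j + 1)) (l + 1))) +
        ∑ j ∈ range n, ∑ l ∈ range T, (e 0 2 (ℓ m (n + j) l) (ℓ m (n + j + 1) l) +
        e 0 2 (ℓ m (n + j) (l + 1)) (ℓ m (n + j + 1) (l + 1))) := by
      rw [← sum_add_distrib]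
      refine sum_congr rfl fun j hj => ?_
      rw [← sum_add_distrib]
      refine sum_congr rfl fun l hl => ?_
      exact hsq j (mem_range.1 hj) l (mem_range.1 hl)
    have h2 : ∑ j ∈ range n, ∑ l ∈ range T, (e 0 2 (ℓ m (n + j) l) (ℓ m (n + j) (l + 1)) +
        e 0 2 (ℓ m (n + (j + 1)) l) (ℓ m (n + (j + 1)) (l + 1))) = 0 := by
      rw [sum_comm]
      refine sum_eq_zero fun l hl => ?_
      rw [mem_range] at hl
      rw [tele (fun j => e 0 2 (ℓ m (n + j) l) (ℓ m (n + j) (l + 1)))]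
      rw [e02_2 _ _ (b2 _ _ (by omega) (by omega)) (b2 _ _ (by omega) (by omega)),
        e02_0 _ _ (b0 _ _ (by omega) (by omega) (by omega))
          (b0 _ _ (by omega) (by omega) (by omega)), add_zero]
    have h3 : ∀ j, ∑ l ∈ range T, (e 0 2 (ℓ m (n + j) l) (ℓ m (n + j + 1) l) +
        e 0 2 (ℓ m (n + j) (l + 1)) (ℓ m (n + j + 1) (l + 1))) =
        e 0 2 (ℓ m (n + j) 0) (ℓ m (n + j + 1) 0) +
        e 1 3 (ℓ m (2 * n + j) 0) (ℓ m (2 * n + j + 1) 0) := by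
      intro j
      rw [tele (fun l => e 0 2 (ℓ m (n + j) l) (ℓ m (n + j + 1) l)), heq m (n + j) le_rfl,
        heq m (n + j + 1) le_rfl, eshift]
      have e1 : n + j + n = 2 * n + j := by ring
      have e2 : n + j + 1 + n = 2 * n + j + 1 := by ring
      rw [e1, e2]
    rw [h1, h2, zero_add, ← sum_add_distrib]
    exact sum_congr rfl fun j _ => h3 j
  -- the bottom boundary
  have hRHS : ∑ j ∈ range (4 * n), e 1 2 (ℓ m j 0) (ℓ m (j + 1) 0) =
      ∑ j ∈ range n, e 1 2 (ℓ m (n + j) 0) (ℓ m (n + j + 1) 0) +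
      ∑ j ∈ range n, e 1 2 (ℓ m (2 * n + j) 0) (ℓ m (2 * n + j + 1) 0) := by
    rw [split4 (fun j => e 1 2 (ℓ m j 0) (ℓ m (j + 1) 0))]
    have z1 : ∑ j ∈ range n, e 1 2 (ℓ m j 0) (ℓ m (j + 1) 0) = 0 := by
      refine sum_eq_zero fun j hj => ?_
      rw [mem_range] at hj
      exact e12_2 _ _ (b2 _ _ (by omega) (by omega)) (b2 _ _ (by omega) (by omega))
    have z4 : ∑ j ∈ range n, e 1 2 (ℓ m (3 * n + j) 0) (ℓ m (3 * n + j + 1) 0) = 0 := by
      refine sum_eq_zero fun j hj => ?_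
      rw [mem_range] at hj
      exact e12_1 _ _ (b1 _ _ (by omega) (by omega) (by omega))
        (b1 _ _ (by omega) (by omega) (by omega))
    rw [z1, z4]
    ring
  have hfin1 : ∑ j ∈ range n, (e 1 2 (ℓ m (n + j) 0) (ℓ m (n + j + 1) 0) +
      e 0 2 (ℓ m (n + j) 0) (ℓ m (n + j + 1) 0)) = d 2 (ℓ m (2 * n) 0) := by
    have h1 : ∑ j ∈ range n, (e 1 2 (ℓ m (n + j) 0) (ℓ m (n + j + 1) 0) +
      e 0 2 (ℓ m (n + j) 0) (ℓ m (n + j + 1) 0)) =
      ∑ j ∈ range n, (d 2 (ℓ m (n + j) 0) + d 2 (ℓ m (n + (j + 1)) 0)) := by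
      refine sum_congr rfl fun j hj => ?_
      rw [mem_range] at hj
      exact d2 _ _ (b3 _ _ (by omega) (by omega) (by omega))
        (b3 _ _ (by omega) (by omega) (by omega))
    rw [h1, tele (fun j => d 2 (ℓ m (n + j) 0)), dne 2 _ (b2 _ _ (by omega) (by omega)),
      zero_add, show n + n = 2 * n by ring]
  have hfin2 : ∑ j ∈ range n, (e 1 2 (ℓ m (2 * n + j) 0) (ℓ m (2 * n + j + 1) 0) +
      e 1 3 (ℓ m (2 * n + j) 0) (ℓ m (2 * n + j + 1) 0)) = d 1 (ℓ m (2 * n) 0) := by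
    have h1 : ∑ j ∈ range n, (e 1 2 (ℓ m (2 * n + j) 0) (ℓ m (2 * n + j + 1) 0) +
      e 1 3 (ℓ m (2 * n + j) 0) (ℓ m (2 * n + j + 1) 0)) =
      ∑ j ∈ range n, (d 1 (ℓ m (2 * n + j) 0) + d 1 (ℓ m (2 * n + (j + 1)) 0)) := by
      refine sum_congr rfl fun j hj => ?_
      rw [mem_range] at hj
      exact d1 _ _ (b0 _ _ (by omega) (by omega) (by omega))
        (b0 _ _ (by omega) (by omega) (by omega))
    rw [h1, tele (fun j => d 1 (ℓ m (2 * n + j) 0)),
      dne 1 (ℓ m (2 * n + n) 0) (b1 _ _ (by omega) (by omega) (by omega)),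
      add_zero, Nat.add_zero]
  have hone := d12 (ℓ m (2 * n) 0) (b0 _ _ (by omega) (by omega) (by omega))
    (b3 _ _ (by omega) (by omega) (by omega))
  have hAT : ∑ i ∈ range m, ∑ j ∈ range (4 * n), (Sl tA i j 0 + Sl tA i j T) =
      ∑ i ∈ range m, ∑ j ∈ range (4 * n), (Sl tA i j 0 + Sl tB i j 0) := by
    refine sum_congr rfl fun i hi => ?_
    rw [sum_add_distrib, sum_add_distrib, htop i (mem_range.1 hi)]
  rw [hAT, hbot, hRHS, hlat, hLHS] at key
  rw [sum_add_distrib] at hfin1 hfin2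
  have : (1 : ZMod 2) = 0 := by
    linear_combination (-1 : ZMod 2) * hone + hfin1.symm + hfin2.symm + key
  exact absurd this (by decide)

end H828SS
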