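import Pool.Agent.H828R2.SS.Defs

/-! Task G2 (helper791): derivative of the potential along a line. -/

open Set Real

namespace H828SS

variable {g : ℂ → ℝ}

namespace Pot2

theorem hh_cont (hg : Gauge g) : Continuous (hh g) := by
  unfold hh
  refine Continuous.div continuous_const ?_ ?_
  · refine continuous_const.mul ?_
    refine Continuous.pow ?_ 2
    refine hg.cont.comp ?_
    fun_prop
  · intro θ
    have h : 0 < g (Complex.I * Complex.exp ((θ : ℂ) * Complex.I)) :=
      hg.pos _ (mul_ne_zero Complex.I_ne_zero (Complex.exp_ne_zero _))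
    positivity

theorem cb_ge (k : Fin 4) : -1 ≤ cb k := by
  fin_cases k <;> simp [cb]

theorem cb_add_pos (k : Fin 4) (η : ℝ) : 0 < max η 2 + cb k := by
  have h1 := cb_ge k
  have h2 : (2 : ℝ) ≤ max η 2 := le_max_right _ _
  linarith

theorem ww_pos (k : Fin 4) (x η : ℝ) : 0 < ww k x η := by
  unfold ww
  have := cb_add_pos k η
  positivity

theorem HH_der (hg : Gauge g) (θ : ℝ) : HasDerivAt (HH g) (hh g θ) θ := by
  unfold HH
  have hc := hh_cont hg
  exact intervalIntegral.integral_hasDerivAt_right (hc.intervalIntegrable _ _)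
    hc.aestronglyMeasurable.stronglyMeasurableAtFilter hc.continuousAt

theorem beta_der (k : Fin 4) (x η v w t : ℝ) (h : 2 < η + t * w) :
    HasDerivAt (fun s => beta k (x + s * v) (η + s * w))
      ((v * (max (η + t * w) 2 + cb k) - w * (x + t * v + ca k)) /
        ww k (x + t * v) (η + t * w)) t := by
  have hV : 0 < η + t * w + cb k := by
    have := cb_ge k
    linarith
  have hmax : max (η + t * w) 2 = η + t * w := max_eq_left h.le
  have hev : (fun s => beta k (x + s * v) (η + s * w)) =ᶠ[nhds t]
      fun s => arctan ((x + s * v + ca k) / (η + s * w + cb k)) := by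
    have hcont : ContinuousAt (fun s : ℝ => η + s * w) t := by fun_prop
    have : ∀ᶠ s in nhds t, 2 < η + s * w := hcont.eventually (lt_mem_nhds h)
    filter_upwards [this] with s hs
    unfold beta
    rw [max_eq_left hs.le]
  have hU : HasDerivAt (fun s : ℝ => x + s * v + ca k) v t := by
    have := ((hasDerivAt_id t).mul_const v).const_add x |>.add_const (ca k)
    simpa using this
  have hVd : HasDerivAt (fun s : ℝ => η + s * w + cb k) w t := by
    have := ((hasDerivAt_id t).mul_const w).const_add η |>.add_const (cb k)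
    simpa using this
  have hq : HasDerivAt (fun s : ℝ => arctan ((x + s * v + ca k) / (η + s * w + cb k)))
      (1 / (1 + ((x + t * v + ca k) / (η + t * w + cb k)) ^ 2) *
        ((v * (η + t * w + cb k) - (x + t * v + ca k) * w) / (η + t * w + cb k) ^ 2)) t :=
    (hU.div hVd hV.ne').arctan
  refine (hq.congr_of_eventuallyEq hev).congr_deriv ?_
  unfold ww
  rw [hmax]
  have hVne : η + t * w + cb k ≠ 0 := hV.ne'
  have h1 : (x + t * v + ca k) ^ 2 + (η + t * w + cb k) ^ 2 ≠ 0 := by positivity
  have h2 : 1 + ((x + t * v + ca k) / (η + t * w + cb k)) ^ 2 ≠ 0 := by positivity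
  have h3 : (η + t * w + cb k) ^ 2 + (x + t * v + ca k) ^ 2 ≠ 0 := by positivity
  have h4 : 1 + ((x + t * v + ca k) / (η + t * w + cb k)) ^ 2 =
      ((x + t * v + ca k) ^ 2 + (η + t * w + cb k) ^ 2) / (η + t * w + cb k) ^ 2 := by
    field_simp
    ring
  rw [h4]
  field_simp

theorem term_der (hg : Gauge g) (k : Fin 4) (φ x η u v w t : ℝ) (h : 2 < η + t * w) :
    HasDerivAt (fun s => HH g (φ + s * u - beta k (x + s * v) (η + s * w)))
      (mm g k (φ + t * u) (x + t * v) (η + t * w) * ww k (x + t * v) (η + t * w) * u -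
        mm g k (φ + t * u) (x + t * v) (η + t * w) * (max (η + t * w) 2 + cb k) * v +
        mm g k (φ + t * u) (x + t * v) (η + t * w) * (x + t * v + ca k) * w) t := by
  have hφ : HasDerivAt (fun s : ℝ => φ + s * u) u t := by
    have := ((hasDerivAt_id t).mul_const u).const_add φ
    simpa using this
  have hin := hφ.sub (beta_der k x η v w t h)
  have hcomp := (HH_der hg (φ + t * u - beta k (x + t * v) (η + t * w))).comp t hin
  refine hcomp.congr_deriv ?_
  have hw := (ww_pos k (x + t * v) (η + t * w)).ne'
  unfold mm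
  field_simp
  ring

end Pot2

theorem GG_der (hg : Gauge g) (φ x η u v w t : ℝ) (h : 2 < η + t * w) :
    HasDerivAt (fun s => GG g (φ + s * u) (x + s * v) (η + s * w))
      (Gp g (φ + t * u) (x + t * v) (η + t * w) * u +
        Gx g (φ + t * u) (x + t * v) (η + t * w) * v +
        Ge g (φ + t * u) (x + t * v) (η + t * w) * w) t := by
  have H0 := Pot2.term_der hg 0 φ x η u v w t h
  have H1 := Pot2.term_der hg 1 φ x η u v w t h
  have H2 := Pot2.term_der hg 2 φ x η u v w t h
  have H3 := Pot2.term_der hg 3 φ x η u v w t h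
  have H := (H0.sub H3).add (H2.sub H1)
  refine H.congr_deriv ?_
  unfold Gp Gx Ge
  simp only [Fin.sum_univ_four]
  have c0 : cs 0 = 1 := by simp [cs]
  have c1 : cs 1 = -1 := by simp [cs]
  have c2 : cs 2 = 1 := by simp [cs]
  have c3 : cs 3 = -1 := by simp [cs]
  rw [c0, c1, c2, c3]
  ring

end H828SS
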