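import Pool.Agent.H828R2.SS.Defs

/-! Definitions for the quantitative version (helper828). -/

open Set Real

namespace H828SS

/-- No inscribed square seen from the origin in a cross position, of size at least about `1/L`. -/
def NoSqL (g : ℂ → ℝ) (L : ℝ) : Prop :=
  ∀ x y φ : ℝ, (|x| ≤ 1 ∨ |y| ≤ 1) → |x| ≤ L → |y| ≤ L →
    ∃ j k : Fin 4, lam g j x y φ ≠ lam g k x y φ

/-- total angular width of the two sectors. -/
noncomputable def wid (x η : ℝ) : ℝ :=
  (beta 3 x η - beta 0 x η) + (beta 1 x η - beta 2 x η)

end H828SS
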