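import Pool.Agent.H828R2.SS.QDefs
import Pool.Agent.H828R2.SS.Pot1

/-!
# Quantitative bounds of the potential (task K1, helper943)
-/

open Set Real MeasureTheory

namespace H828SS

variable {g : ℂ → ℝ}

theorem wid_cont : Continuous fun p : ℝ × ℝ => wid p.1 p.2 := by
  unfold wid
  exact ((g1_beta_cont 3).sub (g1_beta_cont 0)).add ((g1_beta_cont 1).sub (g1_beta_cont 2))

theorem wid_pos {x : ℝ} (hx : x ∈ Icc (-1 : ℝ) 1) (η : ℝ) : 0 < wid x η := by
  unfold wid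
  have h1 := g1_b30 hx.1 η
  have h2 := g1_b21 hx.2 η
  rcases eq_or_lt_of_le hx.1 with h | h
  · have h4 : (2 : ℝ) ≤ max η 2 := le_max_right _ _
    have h5 : beta 2 x η < beta 1 x η := by
      unfold beta
      refine arctan_strictMono ?_
      simp only [ca, cb, Matrix.cons_val]
      have h6 := div_lt_div_of_pos_left (a := 2) (b := max η 2 + 1) (c := max η 2 + -1)
        (by linarith) (by linarith) (by linarith)
      have e1 : (x + -1) / (max η 2 + 1) = -(2 / (max η 2 + 1)) := by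
        rw [← neg_div]; congr 1; linarith
      have e2 : (x + -1) / (max η 2 + -1) = -(2 / (max η 2 + -1)) := by
        rw [← neg_div]; congr 1; linarith
      rw [e1, e2]
      linarith
    linarith
  · linarith [g1_b30' h η]

theorem wid_le {x : ℝ} (hx : x ∈ Icc (-1 : ℝ) 1) {η : ℝ} (hη : 2 ≤ η) :
    wid x η ≤ 4 / (η - 1) := by
  have hmax : max η 2 = η := max_eq_left hη
  have h3 := g1_b0 hx.1 η
  have h4 := g1_b1 hx.2 η
  have h5 := g1_b3 hx.1 hx.2 η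
  have h6 := g1_b2 hx.1 hx.2 η
  rw [hmax] at h5 h6
  unfold wid
  have e : 4 / (η - 1) = 2 / (η - 1) + 2 / (η - 1) := by ring
  rw [e]
  linarith

theorem k1_HH_ge (hg : Gauge g) {m : ℝ} (hm : ∀ θ, m ≤ hh g θ) {a b : ℝ} (hab : a ≤ b) :
    m * (b - a) ≤ HH g b - HH g a := by
  rw [g1_HH_sub hg]
  have h := intervalIntegral.integral_mono_on hab
    ((continuous_const (y := m)).intervalIntegrable a b) (g1_int hg a b) (fun t _ => hm t)
  rw [intervalIntegral.integral_const, smul_eq_mul] at h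
  linarith

theorem GG_ge (hg : Gauge g) {a : ℝ} (ha : ∀ θ, a ≤ hh g θ) (φ : ℝ) {x : ℝ}
    (hx : x ∈ Icc (-1 : ℝ) 1) (η : ℝ) : a * wid x η ≤ GG g φ x η := by
  have h1 := k1_HH_ge hg ha (a := φ - beta 3 x η) (b := φ - beta 0 x η)
    (by linarith [g1_b30 hx.1 η])
  have h2 := k1_HH_ge hg ha (a := φ - beta 1 x η) (b := φ - beta 2 x η)
    (by linarith [g1_b21 hx.2 η])
  unfold GG wid
  linarith

theorem GG_le (hg : Gauge g) {b : ℝ} (hb : ∀ θ, hh g θ ≤ b) (φ : ℝ) {x : ℝ}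
    (hx : x ∈ Icc (-1 : ℝ) 1) (η : ℝ) : GG g φ x η ≤ b * wid x η := by
  have h1 := g1_HH_le hg hb (a := φ - beta 3 x η) (b := φ - beta 0 x η)
    (by linarith [g1_b30 hx.1 η])
  have h2 := g1_HH_le hg hb (a := φ - beta 1 x η) (b := φ - beta 2 x η)
    (by linarith [g1_b21 hx.2 η])
  unfold GG wid
  linarith

theorem k1_min (u v : ℝ) (huv : u ≤ v) :
    ∃ w : ℝ, 0 < w ∧ ∀ x ∈ Icc (-1 : ℝ) 1, ∀ η ∈ Icc u v, w ≤ wid x η := by
  have hc : IsCompact (Icc (-1 : ℝ) 1 ×ˢ Icc u v) := isCompact_Icc.prod isCompact_Icc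
  have hne : (Icc (-1 : ℝ) 1 ×ˢ Icc u v).Nonempty :=
    ⟨(0, u), ⟨by norm_num, by norm_num⟩, ⟨le_rfl, huv⟩⟩
  obtain ⟨p, hp, hmin⟩ := hc.exists_isMinOn hne wid_cont.continuousOn
  rw [isMinOn_iff] at hmin
  refine ⟨wid p.1 p.2, wid_pos hp.1 p.2, fun x hx η hη => ?_⟩
  have hxy : (x, η) ∈ Icc (-1 : ℝ) 1 ×ˢ Icc u v := mk_mem_prod hx hη
  have := hmin (x, η) hxy
  simpa only using this

/-- constants depending only on `a ≤ b`: radii `R`, `R1` and levels `c0`, `c1`. -/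
theorem consts (a b : ℝ) (ha : 0 < a) (hb : 0 < b) :
    ∃ R R1 c0 c1 : ℝ, 5 ≤ R ∧ R + 2 ≤ R1 ∧
      (∀ x ∈ Icc (-1 : ℝ) 1, ∀ η ∈ Icc (3 : ℝ) 4, c0 ≤ a * wid x η) ∧
      (∀ x ∈ Icc (-1 : ℝ) 1, b * wid x R < c0) ∧
      (∀ x ∈ Icc (-1 : ℝ) 1, ∀ η ∈ Icc (3 : ℝ) R, c1 ≤ a * wid x η) ∧
      (∀ x ∈ Icc (-1 : ℝ) 1, ∀ η ≥ R1 - 1, b * wid x η < c1) := by
  have key : ∀ c : ℝ, 0 < c → ∀ x ∈ Icc (-1 : ℝ) 1, ∀ η : ℝ, 4 * b / c + 2 ≤ η →
      b * wid x η < c := by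
    intro c hc x hx η hη
    have h0 : 0 < 4 * b / c := by positivity
    have h1 := wid_le hx (η := η) (by linarith)
    have h2 : b * wid x η ≤ b * (4 / (η - 1)) := mul_le_mul_of_nonneg_left h1 hb.le
    refine h2.trans_lt ?_
    have h9 : 0 < η - 1 := by linarith
    rw [mul_div_assoc', div_lt_iff₀ h9]
    have h10 : 4 * b / c < η - 1 := by linarith
    rw [div_lt_iff₀ hc] at h10
    linarith
  obtain ⟨w0, hw0, h0⟩ := k1_min 3 4 (by norm_num)
  have hc0 : 0 < a * w0 := mul_pos ha hw0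
  obtain ⟨w1, hw1, h1⟩ := k1_min 3 (max 5 (4 * b / (a * w0) + 2))
    (le_trans (by norm_num) (le_max_left _ _))
  have hc1 : 0 < a * w1 := mul_pos ha hw1
  refine ⟨max 5 (4 * b / (a * w0) + 2),
    max (max 5 (4 * b / (a * w0) + 2) + 2) (4 * b / (a * w1) + 3), a * w0, a * w1,
    le_max_left _ _, le_max_left _ _, ?_, ?_, ?_, ?_⟩
  · intro x hx η hη
    exact mul_le_mul_of_nonneg_left (h0 x hx η hη) ha.le
  · intro x hx
    exact key _ hc0 x hx _ (le_max_right _ _)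
  · intro x hx η hη
    exact mul_le_mul_of_nonneg_left (h1 x hx η hη) ha.le
  · intro x hx η hη
    refine key _ hc1 x hx _ ?_
    have := le_max_right (max 5 (4 * b / (a * w0) + 2) + 2) (4 * b / (a * w1) + 3)
    linarith

end H828SS
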