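import Pool.Agent.H828R2.SS.HtpTrans
import Pool.Agent.H828R2.SS.Lam
import Pool.Agent.H828R2.SS.Pot1
import Pool.Agent.H828R2.SS.QDefs

/-! The chain of homotopies (helper828). -/

open Set Real

namespace H828SS

section chainL

/-- `Δ = R² + x² - 2`. -/
noncomputable def qD (R x : ℝ) : ℝ := R ^ 2 + x ^ 2 - 2

noncomputable def qZ (R x : ℝ) (X : ℝ × ℝ × ℝ) : ℝ := 2 * x * X.2.2 - 2 * R * X.2.1 - X.1

noncomputable def qC (R x : ℝ) (X : ℝ × ℝ × ℝ) : ℝ :=
  (qD R x * X.2.1 + (R + 1) * qZ R x X) / 2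

noncomputable def qe (R x : ℝ) (X : ℝ × ℝ × ℝ) : ℝ := qD R x * X.2.2

noncomputable def lab (x e z c : ℝ) : Fin 4 → ℝ :=
  ![-((e + (1 - x) * z) / 2), -((e - (1 + x) * z) / 2 + c), -c, 0]

noncomputable def labc (R x : ℝ) (X : ℝ × ℝ × ℝ) : Fin 4 → ℝ :=
  lab x (qe R x X) (qZ R x X + 2 * x * (|qe R x X| + |qC R x X|)) (qC R x X)

theorem lab_const {x e z c : ℝ} (h : ∀ j k, lab x e z c j = lab x e z c k) :
    e = 0 ∧ z = 0 ∧ c = 0 := by
  have h0 := h 0 3
  have h1 := h 1 3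
  have h2 := h 2 3
  simp only [lab, Matrix.cons_val] at h0 h1 h2
  have hc : c = 0 := by linarith
  subst hc
  have hz : z = 0 := by linarith
  subst hz
  exact ⟨by linarith, rfl, rfl⟩

theorem lab_nonconst {x e z c : ℝ} (h : ¬(e = 0 ∧ z = 0 ∧ c = 0)) :
    ∃ j k, lab x e z c j ≠ lab x e z c k := by
  by_contra hcon
  push Not at hcon
  exact h (lab_const hcon)

theorem qD_pos {R : ℝ} (hR : 3 ≤ R) (x : ℝ) : 0 < qD R x := by
  unfold qD
  nlinarith [sq_nonneg x]

theorem q_zero {R : ℝ} (hR : 3 ≤ R) {x : ℝ} {X : ℝ × ℝ × ℝ} (he : qe R x X = 0)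
    (hz : qZ R x X = 0) (hc : qC R x X = 0) : X = 0 := by
  have hD := (qD_pos hR x).ne'
  unfold qe at he
  have h1 : X.2.2 = 0 := (mul_eq_zero.mp he).resolve_left hD
  unfold qC at hc
  rw [hz] at hc
  have h2 : X.2.1 = 0 := by
    have : qD R x * X.2.1 = 0 := by linarith
    exact (mul_eq_zero.mp this).resolve_left hD
  unfold qZ at hz
  rw [h1, h2] at hz
  have h3 : X.1 = 0 := by linarith
  exact Prod.ext h3 (Prod.ext h2 h1)

/-- non-vanishing with a correction factor `s`. -/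
theorem labs_nonconst {R : ℝ} (hR : 3 ≤ R) {x s : ℝ} {X : ℝ × ℝ × ℝ} (hX : X ≠ 0) :
    ∃ j k, lab x (qe R x X) (qZ R x X + s * x * (|qe R x X| + |qC R x X|)) (qC R x X) j ≠
      lab x (qe R x X) (qZ R x X + s * x * (|qe R x X| + |qC R x X|)) (qC R x X) k := by
  apply lab_nonconst
  rintro ⟨he, hz, hc⟩
  rw [he, hc] at hz
  simp only [abs_zero, add_zero, mul_zero] at hz
  exact hX (q_zero hR he hz hc)

theorem lab_left {e z c : ℝ} (h : e + 2 * z < 0) : lab (-1) e z c 3 < lab (-1) e z c 0 := by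
  simp only [lab, Matrix.cons_val]
  linarith

theorem lab_right {e z c : ℝ} (h : e - 2 * z < 0) : lab 1 e z c 2 < lab 1 e z c 1 := by
  simp only [lab, Matrix.cons_val]
  linarith

/-- face condition at `x = -1` for a displacement tangent to the face. -/
theorem face_left {R : ℝ} (hR : 3 ≤ R) {X : ℝ × ℝ × ℝ} (hX : X ≠ 0) (h : X.2.1 = 0) :
    qe R (-1) X + 2 * (qZ R (-1) X + 2 * (-1) * (|qe R (-1) X| + |qC R (-1) X|)) < 0 := by
  have hC : qC R (-1) X = (R + 1) * qZ R (-1) X / 2 := by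
    unfold qC; rw [h]; ring
  have hZC : |qZ R (-1) X| ≤ |qC R (-1) X| := by
    rw [hC, abs_div, abs_mul, abs_of_pos (by linarith : (0 : ℝ) < R + 1),
      abs_of_pos (by norm_num : (0 : ℝ) < 2)]
    have := abs_nonneg (qZ R (-1) X)
    rw [le_div_iff₀ (by norm_num)]
    nlinarith
  have h1 := le_abs_self (qe R (-1) X)
  have h2 := le_abs_self (qZ R (-1) X)
  by_contra hcon
  push Not at hcon
  have h3 : |qe R (-1) X| = 0 := by
    have := abs_nonneg (qe R (-1) X)
    have := abs_nonneg (qC R (-1) X)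
    linarith
  have h4 : |qC R (-1) X| = 0 := by
    have := abs_nonneg (qe R (-1) X)
    have := abs_nonneg (qC R (-1) X)
    linarith
  have h5 : qZ R (-1) X = 0 := by
    have := abs_nonneg (qZ R (-1) X)
    exact abs_eq_zero.mp (by linarith)
  exact hX (q_zero hR (abs_eq_zero.mp h3) h5 (abs_eq_zero.mp h4))

theorem face_right {R : ℝ} (hR : 3 ≤ R) {X : ℝ × ℝ × ℝ} (hX : X ≠ 0) (h : X.2.1 = 0) :
    qe R 1 X - 2 * (qZ R 1 X + 2 * 1 * (|qe R 1 X| + |qC R 1 X|)) < 0 := by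
  have hC : qC R 1 X = (R + 1) * qZ R 1 X / 2 := by
    unfold qC; rw [h]; ring
  have hZC : |qZ R 1 X| ≤ |qC R 1 X| := by
    rw [hC, abs_div, abs_mul, abs_of_pos (by linarith : (0 : ℝ) < R + 1),
      abs_of_pos (by norm_num : (0 : ℝ) < 2)]
    have := abs_nonneg (qZ R 1 X)
    rw [le_div_iff₀ (by norm_num)]
    nlinarith
  have h1 := le_abs_self (qe R 1 X)
  have h2 := neg_abs_le (qZ R 1 X)
  by_contra hcon
  push Not at hcon
  have h3 : |qe R 1 X| = 0 := by
    have := abs_nonneg (qe R 1 X)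
    have := abs_nonneg (qC R 1 X)
    linarith
  have h4 : |qC R 1 X| = 0 := by
    have := abs_nonneg (qe R 1 X)
    have := abs_nonneg (qC R 1 X)
    linarith
  have h5 : qZ R 1 X = 0 := by
    have := abs_nonneg (qZ R 1 X)
    exact abs_eq_zero.mp (by linarith)
  exact hX (q_zero hR (abs_eq_zero.mp h3) h5 (abs_eq_zero.mp h4))

variable {g : ℂ → ℝ}

/-- the algebraic identity between the gradient and the numbers `m_k`. -/
theorem lab_grad (R : ℝ) (hR : 3 ≤ R) (x φ : ℝ) (k : Fin 4) :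
    lab x (qe R x (Gp g φ x R, Gx g φ x R, Ge g φ x R))
      (qZ R x (Gp g φ x R, Gx g φ x R, Ge g φ x R))
      (qC R x (Gp g φ x R, Gx g φ x R, Ge g φ x R)) k =
      qD R x * (mm g 3 φ x R - mm g k φ x R) := by
  have hmax : max R 2 = R := max_eq_left (by linarith)
  have eGp : Gp g φ x R = mm g 0 φ x R * ((x + 1) ^ 2 + (R + 1) ^ 2) -
      mm g 1 φ x R * ((x - 1) ^ 2 + (R + 1) ^ 2) + mm g 2 φ x R * ((x - 1) ^ 2 + (R - 1) ^ 2) -
      mm g 3 φ x R * ((x + 1) ^ 2 + (R - 1) ^ 2) := by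
    unfold Gp ww
    rw [hmax, Fin.sum_univ_four]
    simp [cs, ca, cb]
    ring
  have eGx : Gx g φ x R = -(mm g 0 φ x R * (R + 1) - mm g 1 φ x R * (R + 1) +
      mm g 2 φ x R * (R - 1) - mm g 3 φ x R * (R - 1)) := by
    unfold Gx
    rw [hmax, Fin.sum_univ_four]
    simp [cs, cb]
    ring
  have eGe : Ge g φ x R = mm g 0 φ x R * (x + 1) - mm g 1 φ x R * (x - 1) +
      mm g 2 φ x R * (x - 1) - mm g 3 φ x R * (x + 1) := by
    unfold Ge
    rw [Fin.sum_univ_four]
    simp [cs, ca]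
    ring
  simp only [qe, qZ, qC, qD, eGp, eGx, eGe, lab]
  fin_cases k <;> simp only [Fin.zero_eta, Fin.mk_one, Fin.reduceFinMk, Matrix.cons_val] <;> ring

/-- continuity of `lab` composed with continuous functions. -/
theorem lab_cont {T : Type*} [TopologicalSpace T] {x e z c : T → ℝ} (hx : Continuous x)
    (he : Continuous e) (hz : Continuous z) (hc : Continuous c) :
    Continuous fun t => lab (x t) (e t) (z t) (c t) := by
  refine continuous_pi fun k => ?_
  fin_cases k <;> simp only [lab, Fin.zero_eta, Fin.mk_one, Fin.reduceFinMk, Matrix.cons_val]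
  · fun_prop
  · fun_prop
  · fun_prop
  · fun_prop

theorem qe_cont (R : ℝ) {T : Type*} [TopologicalSpace T] {x : T → ℝ} {X : T → ℝ × ℝ × ℝ}
    (hx : Continuous x) (hX : Continuous X) : Continuous fun t => qe R (x t) (X t) := by
  unfold qe qD
  fun_prop

theorem qZ_cont (R : ℝ) {T : Type*} [TopologicalSpace T] {x : T → ℝ} {X : T → ℝ × ℝ × ℝ}
    (hx : Continuous x) (hX : Continuous X) : Continuous fun t => qZ R (x t) (X t) := by
  unfold qZ
  fun_prop

theorem qC_cont (R : ℝ) {T : Type*} [TopologicalSpace T] {x : T → ℝ} {X : T → ℝ × ℝ × ℝ}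
    (hx : Continuous x) (hX : Continuous X) : Continuous fun t => qC R (x t) (X t) := by
  unfold qC qZ qD
  fun_prop

theorem labs_cont (R : ℝ) {T : Type*} [TopologicalSpace T] {x s : T → ℝ} {X : T → ℝ × ℝ × ℝ}
    (hx : Continuous x) (hs : Continuous s) (hX : Continuous X) : Continuous fun t =>
      lab (x t) (qe R (x t) (X t))
        (qZ R (x t) (X t) + s t * x t * (|qe R (x t) (X t)| + |qC R (x t) (X t)|))
        (qC R (x t) (X t)) := by
  have h1 := qe_cont R hx hX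
  have h2 := qZ_cont R hx hX
  have h3 := qC_cont R hx hX
  refine lab_cont hx h1 ?_ h3
  exact h2.add ((hs.mul hx).mul (h1.abs.add h3.abs))

/-- the gradient on the section. -/
noncomputable def grd (g : ℂ → ℝ) (R x φ : ℝ) : ℝ × ℝ × ℝ :=
  (Gp g φ x R, Gx g φ x R, Ge g φ x R)

theorem grd_cont (hg : Gauge g) (R : ℝ) {T : Type*} [TopologicalSpace T] {x φ : T → ℝ}
    (hx : Continuous x) (hφ : Continuous φ) : Continuous fun t => grd g R (x t) (φ t) := by
  have h : Continuous fun t => ((φ t, x t, R) : ℝ × ℝ × ℝ) := by fun_prop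
  have h1 : Continuous fun t => Gp g (φ t) (x t) R :=
    (Gp_cont hg).comp (f := fun t => ((φ t, x t, R) : ℝ × ℝ × ℝ)) h
  have h2 : Continuous fun t => Gx g (φ t) (x t) R :=
    (Gx_cont hg).comp (f := fun t => ((φ t, x t, R) : ℝ × ℝ × ℝ)) h
  have h3 : Continuous fun t => Ge g (φ t) (x t) R :=
    (Ge_cont hg).comp (f := fun t => ((φ t, x t, R) : ℝ × ℝ × ℝ)) h
  unfold grd
  exact h1.prodMk (h2.prodMk h3)

theorem grd_per (hg : Gauge g) (R x φ : ℝ) : grd g R x (φ + 2 * π) = grd g R x φ := by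
  unfold grd
  rw [Gp_per hg, Gx_per hg, Ge_per hg]

/-- step 0: from `lam` to `lab` of the gradient. -/
theorem chain0 (hg : Gauge g) {R : ℝ} (hR : 3 ≤ R)
    (hn : ∀ x ∈ Icc (-1 : ℝ) 1, ∀ φ, ∃ j k : Fin 4, lam g j x R φ ≠ lam g k x R φ) :
    Htp Good (fun x φ k => lam g k x R φ)
      (fun x φ => lab x (qe R x (grd g R x φ)) (qZ R x (grd g R x φ)) (qC R x (grd g R x φ))) := by
  have hlm : ∀ k x φ, mm g k φ x R = 1 / (2 * lam g k x R φ ^ 2) :=
    fun k x φ => lam_mm hg k x (by linarith) φ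
  have hlp : ∀ k x φ, 0 < lam g k x R φ := fun k x φ => lam_pos hg k (by linarith) φ
  have hlt : ∀ j k x φ, lam g j x R φ < lam g k x R φ → mm g k φ x R < mm g j φ x R := by
    intro j k x φ h
    rw [hlm, hlm]
    have h1 := hlp j x φ
    apply one_div_lt_one_div_of_lt (by positivity)
    have : lam g j x R φ ^ 2 < lam g k x R φ ^ 2 := pow_lt_pow_left₀ h h1.le (by norm_num)
    linarith
  have key : ∀ s ∈ Icc (0 : ℝ) 1, ∀ j k x φ, lam g j x R φ < lam g k x R φ →
      (1 - s) * lam g j x R φ + s * (qD R x * (mm g 3 φ x R - mm g j φ x R)) <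
      (1 - s) * lam g k x R φ + s * (qD R x * (mm g 3 φ x R - mm g k φ x R)) := by
    intro s hs j k x φ h
    have h1 := hlt j k x φ h
    have hD := qD_pos hR x
    have h2 : qD R x * mm g k φ x R < qD R x * mm g j φ x R := mul_lt_mul_of_pos_left h1 hD
    rcases lt_or_eq_of_le hs.2 with h3 | h3
    · have h4 : (1 - s) * lam g j x R φ < (1 - s) * lam g k x R φ :=
        mul_lt_mul_of_pos_left h (by linarith)
      have h5 : s * (qD R x * mm g k φ x R) ≤ s * (qD R x * mm g j φ x R) :=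
        mul_le_mul_of_nonneg_left h2.le hs.1
      linarith
    · rw [h3]
      linarith
  refine ⟨fun s x φ k => (1 - s) * lam g k x R φ + s * lab x (qe R x (grd g R x φ))
    (qZ R x (grd g R x φ)) (qC R x (grd g R x φ)) k, ?_, ?_, ?_, ?_⟩
  · refine continuous_pi fun k => ?_
    have c1 : Continuous fun p : ℝ × ℝ × ℝ => lam g k p.2.1 R p.2.2 :=
      (lam_cont hg k).comp (f := fun p : ℝ × ℝ × ℝ => ((p.2.1, R, p.2.2) : ℝ × ℝ × ℝ))
        (by fun_prop)
    have cg : Continuous fun p : ℝ × ℝ × ℝ => grd g R p.2.1 p.2.2 :=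
      grd_cont hg R (by fun_prop) (by fun_prop)
    have cx : Continuous fun p : ℝ × ℝ × ℝ => p.2.1 := by fun_prop
    have c2 : Continuous fun p : ℝ × ℝ × ℝ => lab p.2.1 (qe R p.2.1 (grd g R p.2.1 p.2.2))
        (qZ R p.2.1 (grd g R p.2.1 p.2.2)) (qC R p.2.1 (grd g R p.2.1 p.2.2)) k :=
      (continuous_apply k).comp
        (lab_cont cx (qe_cont R cx cg) (qZ_cont R cx cg) (qC_cont R cx cg))
    exact ((by fun_prop : Continuous fun p : ℝ × ℝ × ℝ => 1 - p.1).mul c1).add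
      (continuous_fst.mul c2)
  · funext x φ k; simp
  · funext x φ k; simp
  · intro s hs
    have hl : ∀ x φ k, lab x (qe R x (grd g R x φ)) (qZ R x (grd g R x φ))
        (qC R x (grd g R x φ)) k = qD R x * (mm g 3 φ x R - mm g k φ x R) :=
      fun x φ k => lab_grad R hR x φ k
    refine ⟨?_, ?_, ?_, ?_⟩
    · intro x hx φ
      obtain ⟨j, k, hjk⟩ := hn x hx φ
      refine ⟨j, k, ?_⟩
      simp only [hl]
      rcases lt_or_gt_of_ne hjk with h | h
      · exact (key s hs j k x φ h).ne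
      · exact (key s hs k j x φ h).ne'
    · intro φ
      simp only [hl]
      exact key s hs 3 0 (-1) φ (lam_face_left hg (by linarith) φ)
    · intro φ
      simp only [hl]
      exact key s hs 2 1 1 φ (lam_face_right hg (by linarith) φ)
    · intro x φ
      funext k
      simp only [lam_per, grd_per hg]

/-- face inequality of the gradient at `x = -1`. -/
theorem grd_left (hg : Gauge g) {R : ℝ} (hR : 3 ≤ R) (φ : ℝ) :
    qe R (-1) (grd g R (-1) φ) + 2 * qZ R (-1) (grd g R (-1) φ) < 0 := by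
  have h0 := lab_grad (g := g) R hR (-1) φ 0
  have hm : mm g 0 φ (-1) R < mm g 3 φ (-1) R := by
    rw [lam_mm hg 0 (-1) (by linarith : (2 : ℝ) ≤ R) φ, lam_mm hg 3 (-1) (by linarith) φ]
    have h1 := lam_pos hg 3 (x := -1) (y := R) (by linarith) φ
    have h2 := lam_face_left hg (y := R) (by linarith) φ
    apply one_div_lt_one_div_of_lt (by positivity)
    have : lam g 3 (-1) R φ ^ 2 < lam g 0 (-1) R φ ^ 2 := pow_lt_pow_left₀ h2 h1.le (by norm_num)
    linarith
  have hD := qD_pos hR (-1)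
  have h3 : 0 < qD R (-1) * (mm g 3 φ (-1) R - mm g 0 φ (-1) R) :=
    mul_pos hD (by linarith)
  rw [← h0] at h3
  simp only [lab, Matrix.cons_val] at h3
  unfold grd
  linarith

theorem grd_right (hg : Gauge g) {R : ℝ} (hR : 3 ≤ R) (φ : ℝ) :
    qe R 1 (grd g R 1 φ) - 2 * qZ R 1 (grd g R 1 φ) < 0 := by
  have h1 := lab_grad (g := g) R hR 1 φ 1
  have h2 := lab_grad (g := g) R hR 1 φ 2
  have hm : mm g 1 φ 1 R < mm g 2 φ 1 R := by
    rw [lam_mm hg 1 1 (by linarith : (2 : ℝ) ≤ R) φ, lam_mm hg 2 1 (by linarith) φ]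
    have h1 := lam_pos hg 2 (x := 1) (y := R) (by linarith) φ
    have h2 := lam_face_right hg (y := R) (by linarith) φ
    apply one_div_lt_one_div_of_lt (by positivity)
    have : lam g 2 1 R φ ^ 2 < lam g 1 1 R φ ^ 2 := pow_lt_pow_left₀ h2 h1.le (by norm_num)
    linarith
  have hD := qD_pos hR 1
  have h3 : 0 < qD R 1 * (mm g 2 φ 1 R - mm g 1 φ 1 R) :=
    mul_pos hD (by linarith)
  simp only [lab, Matrix.cons_val] at h1 h2
  unfold grd
  nlinarith

/-- step 2: switching on the correction. -/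
theorem chain2 (hg : Gauge g) {R : ℝ} (hR : 3 ≤ R)
    (hnz : ∀ x ∈ Icc (-1 : ℝ) 1, ∀ φ, grd g R x φ ≠ 0) :
    Htp Good
      (fun x φ => lab x (qe R x (grd g R x φ)) (qZ R x (grd g R x φ)) (qC R x (grd g R x φ)))
      (fun x φ => labc R x (grd g R x φ)) := by
  refine ⟨fun s x φ => lab x (qe R x (grd g R x φ)) (qZ R x (grd g R x φ) +
    (2 * s) * x * (|qe R x (grd g R x φ)| + |qC R x (grd g R x φ)|))
    (qC R x (grd g R x φ)), ?_, ?_, ?_, ?_⟩
  · exact labs_cont R (x := fun p : ℝ × ℝ × ℝ => p.2.1) (s := fun p : ℝ × ℝ × ℝ => 2 * p.1)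
      (X := fun p : ℝ × ℝ × ℝ => grd g R p.2.1 p.2.2) (by fun_prop) (by fun_prop)
      (grd_cont hg R (by fun_prop) (by fun_prop))
  · funext x φ
    simp
  · funext x φ
    simp only [labc]
    rw [mul_one]
  · intro s hs
    refine ⟨?_, ?_, ?_, ?_⟩
    · intro x hx φ
      exact labs_nonconst hR (hnz x hx φ)
    · intro φ
      apply lab_left
      have h1 := grd_left hg hR φ
      have h2 : 0 ≤ s * (|qe R (-1) (grd g R (-1) φ)| + |qC R (-1) (grd g R (-1) φ)|) :=
        mul_nonneg hs.1 (by positivity)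
      linarith
    · intro φ
      apply lab_right
      have h1 := grd_right hg hR φ
      have h2 : 0 ≤ s * (|qe R 1 (grd g R 1 φ)| + |qC R 1 (grd g R 1 φ)|) :=
        mul_nonneg hs.1 (by positivity)
      linarith
    · intro x φ
      simp only [grd_per hg]

/-- step 3: making the displacement tangent to the faces. -/
theorem chain3 (hg : Gauge g) {R : ℝ} (hR : 3 ≤ R)
    (hnz : ∀ x ∈ Icc (-1 : ℝ) 1, ∀ φ,
      ¬(Gp g φ x R = 0 ∧ (1 - x ^ 2) * Gx g φ x R = 0 ∧ Ge g φ x R = 0)) :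
    Htp Good
      (fun x φ => labc R x (grd g R x φ))
      (fun x φ => labc R x (Gp g φ x R, (1 - x ^ 2) * Gx g φ x R, Ge g φ x R)) := by
  have hX0 : ∀ s ∈ Icc (0 : ℝ) 1, ∀ x ∈ Icc (-1 : ℝ) 1, ∀ φ,
      ((Gp g φ x R, (1 - s * x ^ 2) * Gx g φ x R, Ge g φ x R) : ℝ × ℝ × ℝ) ≠ 0 := by
    intro s hs x hx φ h
    have h1 : Gp g φ x R = 0 := congrArg Prod.fst h
    have h2 : (1 - s * x ^ 2) * Gx g φ x R = 0 := congrArg (fun q : ℝ × ℝ × ℝ => q.2.1) h
    have h3 : Ge g φ x R = 0 := congrArg (fun q : ℝ × ℝ × ℝ => q.2.2) h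
    apply hnz x hx φ
    refine ⟨h1, ?_, h3⟩
    rcases mul_eq_zero.mp h2 with h4 | h4
    · have hx2 : x ^ 2 ≤ 1 := by nlinarith [hx.1, hx.2]
      have hx3 : 0 ≤ x ^ 2 := sq_nonneg x
      have h5 : x ^ 2 = 1 := by
        have : s * x ^ 2 ≤ 1 * x ^ 2 := mul_le_mul_of_nonneg_right hs.2 hx3
        linarith
      rw [h5]; ring
    · rw [h4, mul_zero]
  refine ⟨fun s x φ => labc R x (Gp g φ x R, (1 - s * x ^ 2) * Gx g φ x R, Ge g φ x R),
    ?_, ?_, ?_, ?_⟩
  · have hc := grd_cont hg R (x := fun p : ℝ × ℝ × ℝ => p.2.1) (φ := fun p : ℝ × ℝ × ℝ => p.2.2)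
      (by fun_prop) (by fun_prop)
    have h1 : Continuous fun p : ℝ × ℝ × ℝ => Gp g p.2.2 p.2.1 R := continuous_fst.comp hc
    have h2 : Continuous fun p : ℝ × ℝ × ℝ => Gx g p.2.2 p.2.1 R :=
      continuous_fst.comp (continuous_snd.comp hc)
    have h3 : Continuous fun p : ℝ × ℝ × ℝ => Ge g p.2.2 p.2.1 R :=
      continuous_snd.comp (continuous_snd.comp hc)
    have h4 : Continuous fun p : ℝ × ℝ × ℝ => (1 - p.1 * p.2.1 ^ 2) * Gx g p.2.2 p.2.1 R :=
      (by fun_prop : Continuous fun p : ℝ × ℝ × ℝ => 1 - p.1 * p.2.1 ^ 2).mul h2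
    exact labs_cont R (x := fun p : ℝ × ℝ × ℝ => p.2.1) (s := fun _ : ℝ × ℝ × ℝ => 2)
      (X := fun p : ℝ × ℝ × ℝ => (Gp g p.2.2 p.2.1 R, (1 - p.1 * p.2.1 ^ 2) * Gx g p.2.2 p.2.1 R,
        Ge g p.2.2 p.2.1 R)) (by fun_prop) (by fun_prop) (h1.prodMk (h4.prodMk h3))
  · funext x φ
    simp [grd]
  · funext x φ
    simp
  · intro s hs
    refine ⟨?_, ?_, ?_, ?_⟩
    · intro x hx φ
      exact labs_nonconst hR (hX0 s hs x hx φ)
    · intro φ
      apply lab_left
      have hX := hX0 s hs (-1) (by norm_num) φ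
      set X : ℝ × ℝ × ℝ := (Gp g φ (-1) R, (1 - s * (-1) ^ 2) * Gx g φ (-1) R, Ge g φ (-1) R)
        with hXdef
      have h0 := grd_left hg hR φ
      have he : qe R (-1) X = qe R (-1) (grd g R (-1) φ) := rfl
      have hz : qZ R (-1) X = qZ R (-1) (grd g R (-1) φ) + 2 * R * (s * Gx g φ (-1) R) := by
        simp only [qZ, hXdef, grd]; ring
      have hC : (R + 1) * qZ R (-1) X = 2 * qC R (-1) X -
          qD R (-1) * ((1 - s) * Gx g φ (-1) R) := by
        simp only [qC, hXdef]; ring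
      have a1 := abs_nonneg (qe R (-1) X)
      have a2 := abs_nonneg (qC R (-1) X)
      have a3 := le_abs_self (qe R (-1) X)
      have a4 := le_abs_self (qC R (-1) X)
      rcases le_or_gt (Gx g φ (-1) R) 0 with hG | hG
      · have h1 : 2 * R * (s * Gx g φ (-1) R) ≤ 0 := by
          have : s * Gx g φ (-1) R ≤ 0 := mul_nonpos_of_nonneg_of_nonpos hs.1 hG
          nlinarith
        linarith
      · have hD := qD_pos hR (-1)
        have h1 : 0 ≤ qD R (-1) * ((1 - s) * Gx g φ (-1) R) :=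
          mul_nonneg hD.le (mul_nonneg (by linarith [hs.2]) hG.le)
        have h2 : qZ R (-1) X ≤ |qC R (-1) X| := by
          by_contra hcon
          push Not at hcon
          have h5 : 0 < qZ R (-1) X := by linarith
          nlinarith
        by_contra hcon
        push Not at hcon
        have h3 : |qe R (-1) X| = 0 := by linarith
        have h4 : |qC R (-1) X| = 0 := by linarith
        have h5 : 0 ≤ qZ R (-1) X := by
          have := abs_eq_zero.mp h3
          rw [h3, h4, this] at hcon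
          linarith
        have h6 : qZ R (-1) X = 0 := by linarith
        exact hX (q_zero hR (abs_eq_zero.mp h3) h6 (abs_eq_zero.mp h4))
    · intro φ
      apply lab_right
      have hX := hX0 s hs 1 (by norm_num) φ
      set X : ℝ × ℝ × ℝ := (Gp g φ 1 R, (1 - s * 1 ^ 2) * Gx g φ 1 R, Ge g φ 1 R)
        with hXdef
      have h0 := grd_right hg hR φ
      have he : qe R 1 X = qe R 1 (grd g R 1 φ) := rfl
      have hz : qZ R 1 X = qZ R 1 (grd g R 1 φ) + 2 * R * (s * Gx g φ 1 R) := by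
        simp only [qZ, hXdef, grd]; ring
      have hC : (R + 1) * qZ R 1 X = 2 * qC R 1 X -
          qD R 1 * ((1 - s) * Gx g φ 1 R) := by
        simp only [qC, hXdef]; ring
      have a1 := abs_nonneg (qe R 1 X)
      have a2 := abs_nonneg (qC R 1 X)
      have a3 := le_abs_self (qe R 1 X)
      have a4 := neg_abs_le (qC R 1 X)
      rcases le_or_gt 0 (Gx g φ 1 R) with hG | hG
      · have h1 : 0 ≤ 2 * R * (s * Gx g φ 1 R) := by
          have : 0 ≤ s * Gx g φ 1 R := mul_nonneg hs.1 hG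
          nlinarith
        linarith
      · have hD := qD_pos hR 1
        have h1 : qD R 1 * ((1 - s) * Gx g φ 1 R) ≤ 0 :=
          mul_nonpos_of_nonneg_of_nonpos hD.le
            (mul_nonpos_of_nonneg_of_nonpos (by linarith [hs.2]) hG.le)
        have h2 : -|qC R 1 X| ≤ qZ R 1 X := by
          by_contra hcon
          push Not at hcon
          have h5 : qZ R 1 X < 0 := by linarith
          nlinarith
        by_contra hcon
        push Not at hcon
        have h3 : |qe R 1 X| = 0 := by linarith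
        have h4 : |qC R 1 X| = 0 := by linarith
        have h5 : qZ R 1 X ≤ 0 := by
          have := abs_eq_zero.mp h3
          rw [h3, h4, this] at hcon
          linarith
        have h6 : qZ R 1 X = 0 := by linarith
        exact hX (q_zero hR (abs_eq_zero.mp h3) h6 (abs_eq_zero.mp h4))
    · intro x φ
      simp only [Gp_per hg, Gx_per hg, Ge_per hg]

/-- step 4: along a homotopy of displacement fields. -/
theorem chain4 {R : ℝ} (hR : 3 ≤ R) {V Y : ℝ → ℝ → ℝ × ℝ × ℝ} (h : Htp GoodV V Y) :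
    Htp Good (fun x φ => labc R x (V x φ)) (fun x φ => labc R x (Y x φ)) := by
  obtain ⟨K, hKc, hK0, hK1, hK⟩ := h
  refine ⟨fun s x φ => labc R x (K s x φ), ?_, ?_, ?_, ?_⟩
  · exact labs_cont R (x := fun p : ℝ × ℝ × ℝ => p.2.1) (s := fun _ : ℝ × ℝ × ℝ => 2)
      (X := fun p : ℝ × ℝ × ℝ => K p.1 p.2.1 p.2.2) (by fun_prop) (by fun_prop) hKc
  · funext x φ; simp only [hK0]
  · funext x φ; simp only [hK1]
  · intro s hs
    obtain ⟨k1, k2, k3, k4⟩ := hK s hs
    refine ⟨?_, ?_, ?_, ?_⟩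
    · intro x hx φ
      exact labs_nonconst hR (k1 x hx φ)
    · intro φ
      exact lab_left (face_left hR (k1 (-1) (by norm_num) φ) (k2 φ))
    · intro φ
      exact lab_right (face_right hR (k1 1 (by norm_num) φ) (k3 φ))
    · intro x φ
      simp only [k4]

/-- step 5: when the last component is negative. -/
theorem chain5 {R : ℝ} (hR : 3 ≤ R) {Y : ℝ → ℝ → ℝ × ℝ × ℝ}
    (hYc : Continuous fun p : ℝ × ℝ × ℝ => Y p.2.1 p.2.2) (hY : GoodV Y)
    (hneg : ∀ x ∈ Icc (-1 : ℝ) 1, ∀ φ, (Y x φ).2.2 < 0) :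
    Htp Good (fun x φ => labc R x (Y x φ)) (fun _ _ => ![1, 1, 0, 0]) := by
  obtain ⟨k1, k2, k3, k4⟩ := hY
  refine ⟨fun s x φ => lab x ((1 - s) * qe R x (Y x φ) - 2 * s)
    ((1 - s) * (qZ R x (Y x φ) + 2 * x * (|qe R x (Y x φ)| + |qC R x (Y x φ)|)))
    ((1 - s) * qC R x (Y x φ)), ?_, ?_, ?_, ?_⟩
  · have cx : Continuous fun p : ℝ × ℝ × ℝ => p.2.1 := by fun_prop
    have c0 : Continuous fun p : ℝ × ℝ × ℝ => 1 - p.1 := by fun_prop
    have c1 := qe_cont R cx hYc
    have c2 := qZ_cont R cx hYc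
    have c3 := qC_cont R cx hYc
    refine lab_cont cx ?_ ?_ ?_
    · exact (c0.mul c1).sub (by fun_prop)
    · exact c0.mul (c2.add ((continuous_const.mul cx).mul (c1.abs.add c3.abs)))
    · exact c0.mul c3
  · funext x φ
    simp [labc]
  · funext x φ
    simp [lab]
  · intro s hs
    have he : ∀ x ∈ Icc (-1 : ℝ) 1, ∀ φ, qe R x (Y x φ) < 0 := by
      intro x hx φ
      exact mul_neg_of_pos_of_neg (qD_pos hR x) (hneg x hx φ)
    have he' : ∀ e : ℝ, e < 0 → (1 - s) * e - 2 * s < 0 := by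
      intro e he0
      rcases lt_or_eq_of_le hs.2 with h | h
      · have : (1 - s) * e < 0 := mul_neg_of_pos_of_neg (by linarith) he0
        linarith [hs.1]
      · rw [h]; norm_num
    refine ⟨?_, ?_, ?_, ?_⟩
    · intro x hx φ
      apply lab_nonconst
      rintro ⟨h1, -, -⟩
      exact (he' _ (he x hx φ)).ne h1
    · intro φ
      apply lab_left
      have h1 := face_left hR (k1 (-1) (by norm_num) φ) (k2 φ)
      have h2 := he' _ h1
      linarith
    · intro φ
      apply lab_right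
      have h1 := face_right hR (k1 1 (by norm_num) φ) (k3 φ)
      have h2 := he' _ h1
      linarith
    · intro x φ
      simp only [k4]

theorem chainL (hg : Gauge g) {R : ℝ} (hR : 3 ≤ R)
    (hn : ∀ x ∈ Icc (-1 : ℝ) 1, ∀ φ, ∃ j k : Fin 4, lam g j x R φ ≠ lam g k x R φ)
    (hnz : ∀ x ∈ Icc (-1 : ℝ) 1, ∀ φ,
      ¬(Gp g φ x R = 0 ∧ (1 - x ^ 2) * Gx g φ x R = 0 ∧ Ge g φ x R = 0))
    (Y : ℝ → ℝ → ℝ × ℝ × ℝ)
    (hY : Htp GoodV (fun x φ => (Gp g φ x R, (1 - x ^ 2) * Gx g φ x R, Ge g φ x R)) Y)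
    (hneg : ∀ x ∈ Icc (-1 : ℝ) 1, ∀ φ, (Y x φ).2.2 < 0) :
    Htp Good (fun x φ k => lam g k x R φ) (fun _ _ => ![1, 1, 0, 0]) := by
  have hg0 : ∀ x ∈ Icc (-1 : ℝ) 1, ∀ φ, grd g R x φ ≠ 0 := by
    intro x hx φ h
    apply hnz x hx φ
    refine ⟨congrArg Prod.fst h, ?_, congrArg (fun q : ℝ × ℝ × ℝ => q.2.2) h⟩
    have : Gx g φ x R = 0 := congrArg (fun q : ℝ × ℝ × ℝ => q.2.1) h
    rw [this, mul_zero]
  refine (chain0 hg hR hn).trans ((chain2 hg hR hg0).trans ((chain3 hg hR hnz).trans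
    ((chain4 hR hY).trans ?_)))
  obtain ⟨K, hKc, hK0, hK1, hK⟩ := hY
  refine chain5 hR ?_ ?_ hneg
  · have : Continuous fun p : ℝ × ℝ × ℝ => K 1 p.2.1 p.2.2 :=
      hKc.comp (f := fun p : ℝ × ℝ × ℝ => ((1, p.2.1, p.2.2) : ℝ × ℝ × ℝ)) (by fun_prop)
    rw [hK1] at this
    exact this
  · rw [← hK1]
    exact hK 1 ⟨zero_le_one, le_rfl⟩

end chainL

end H828SS
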