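import Pool.Agent.H828R2.SS.Lam
import Pool.Agent.H828R2.SS.QDefs

/-! Quantitative version of helper793's Pot3: the potential has no critical point. -/

set_option autoImplicit false

open Set Real

namespace H828SS

variable {g : ℂ → ℝ}

theorem G_nzL (hg : Gauge g) {L : ℝ} (hns : NoSqL g L) (φ : ℝ) {x : ℝ}
    (hx : x ∈ Icc (-1 : ℝ) 1) {η : ℝ}
    (hη : 2 ≤ η) (hηL : η ≤ L) : ¬(Gp g φ x η = 0 ∧ (1 - x ^ 2) * Gx g φ x η = 0 ∧ Ge g φ x η = 0) := by
  rintro ⟨h1, h2, h3⟩
  have hmax : max η 2 = η := max_eq_left hη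
  have hp : ∀ k, 0 < lam g k x η φ := fun k => lam_pos hg k (by linarith) φ
  have hm : ∀ k, mm g k φ x η = 1 / (2 * lam g k x η φ ^ 2) := fun k => lam_mm hg k x hη φ
  have hmp : ∀ k, 0 < mm g k φ x η := by
    intro k
    rw [hm k]
    have := hp k
    positivity
  have hall : (∀ j k, mm g j φ x η = mm g k φ x η) → False := by
    intro h
    have hx1' : |x| ≤ 1 := abs_le.2 hx
    obtain ⟨j, k, hjk⟩ := hns x η φ (Or.inl hx1') (by linarith)
      (by rw [abs_of_nonneg (by linarith : (0 : ℝ) ≤ η)]; exact hηL)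
    apply hjk
    have h4 := h j k
    rw [hm j, hm k] at h4
    have h5 := hp j
    have h6 := hp k
    have h7 : lam g j x η φ ^ 2 = lam g k x η φ ^ 2 := by
      have h8 : (2 * lam g j x η φ ^ 2) = (2 * lam g k x η φ ^ 2) := by
        have := congrArg (fun t : ℝ => t⁻¹) h4
        simpa using this
      linarith
    exact (pow_left_inj₀ h5.le h6.le (by norm_num)).1 h7
  have eGp : Gp g φ x η = mm g 0 φ x η * ((x + 1) ^ 2 + (η + 1) ^ 2) -
      mm g 1 φ x η * ((x - 1) ^ 2 + (η + 1) ^ 2) + mm g 2 φ x η * ((x - 1) ^ 2 + (η - 1) ^ 2) -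
      mm g 3 φ x η * ((x + 1) ^ 2 + (η - 1) ^ 2) := by
    unfold Gp ww
    rw [hmax, Fin.sum_univ_four]
    simp [cs, ca, cb]
    ring
  have eGx : Gx g φ x η = -(mm g 0 φ x η * (η + 1) - mm g 1 φ x η * (η + 1) +
      mm g 2 φ x η * (η - 1) - mm g 3 φ x η * (η - 1)) := by
    unfold Gx
    rw [hmax, Fin.sum_univ_four]
    simp [cs, cb]
    ring
  have eGe : Ge g φ x η = mm g 0 φ x η * (x + 1) - mm g 1 φ x η * (x - 1) +
      mm g 2 φ x η * (x - 1) - mm g 3 φ x η * (x + 1) := by
    unfold Ge
    rw [Fin.sum_univ_four]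
    simp [cs, ca]
    ring
  -- the value of `m_k w_k`
  have hmw : ∀ k, mm g k φ x η * ww k x η = hh g (φ - beta k x η) := by
    intro k
    unfold mm
    have := (ww_pos k x η).ne'
    field_simp
  set a := mm g 0 φ x η with ha
  set b := mm g 1 φ x η with hb
  set c := mm g 2 φ x η with hc
  set d := mm g 3 φ x η with hd
  rw [eGp] at h1
  rw [eGx] at h2
  rw [eGe] at h3
  rcases eq_or_lt_of_le hx.1 with hx1 | hx1
  · -- x = -1
    have hb0 : beta 0 x η = 0 := by simp [beta, ca, ← hx1]
    have hb3 : beta 3 x η = 0 := by simp [beta, ca, ← hx1]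
    have h4 := hmw 0
    have h5 := hmw 3
    rw [hb0] at h4
    rw [hb3] at h5
    have h6 : a * ww 0 x η = d * ww 3 x η := by rw [ha, hd, h4, h5]
    have h7 : ww 0 x η = (x + 1) ^ 2 + (η + 1) ^ 2 := by
      unfold ww; rw [hmax]; simp [ca, cb]
    have h8 : ww 3 x η = (x + 1) ^ 2 + (η - 1) ^ 2 := by
      unfold ww; rw [hmax]; simp [ca, cb]; ring
    rw [h7, h8] at h6
    have h9 : 0 < b := hmp 1
    subst hx1
    have h10 : b = c := by linarith
    rw [← h10] at h1
    nlinarith
  · rcases eq_or_lt_of_le hx.2 with hx2 | hx2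
    · -- x = 1
      have hb1 : beta 1 x η = 0 := by simp [beta, ca, hx2]
      have hb2 : beta 2 x η = 0 := by simp [beta, ca, hx2]
      have h4 := hmw 1
      have h5 := hmw 2
      rw [hb1] at h4
      rw [hb2] at h5
      have h6 : b * ww 1 x η = c * ww 2 x η := by rw [hb, hc, h4, h5]
      have h7 : ww 1 x η = (x - 1) ^ 2 + (η + 1) ^ 2 := by
        unfold ww; rw [hmax]; simp [ca, cb]; ring
      have h8 : ww 2 x η = (x - 1) ^ 2 + (η - 1) ^ 2 := by
        unfold ww; rw [hmax]; simp [ca, cb]; ring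
      rw [h7, h8] at h6
      have h9 : 0 < a := hmp 0
      have h10 : a = d := by
        rw [hx2] at h3
        linarith
      rw [← h10] at h1
      nlinarith
    · -- interior
      have hne : (1 - x ^ 2) ≠ 0 := by nlinarith
      have h4 := (mul_eq_zero.1 h2).resolve_left hne
      have hZ : (η ^ 2 + x ^ 2 - 2) * ((a - d) - (b - c)) = 0 := by
        linear_combination (2 * x) * h3 - (2 * η) * h4 - h1
      have hpos : η ^ 2 + x ^ 2 - 2 ≠ 0 := by nlinarith
      have hZ0 := (mul_eq_zero.1 hZ).resolve_left hpos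
      have hC : c - d = 0 := by linear_combination (1 / 2) * h4 + ((η + 1) / 2) * hZ0
      have hA : a - d = 0 := by linear_combination (1 / 2) * h3 + ((1 - x) / 2) * hZ0
      have hB : b - c = 0 := by linarith
      apply hall
      have e1 : a = d := by linarith
      have e2 : c = d := by linarith
      have e3 : b = d := by linarith
      have key : ∀ j, mm g j φ x η = d := by
        intro j
        fin_cases j
        · exact e1
        · exact e3
        · exact e2
        · rfl
      intro j k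
      rw [key j, key k]

end H828SS
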