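import Pool.Agent.H828R2.SS.QFlow
import Pool.Agent.H828R2.SS.QChain
import Pool.Agent.H828R2.SS.QAssemble
import Pool.Agent.H828R2.SS.QNz
import Pool.Agent.H828R2.SS.QBound
import Pool.Agent.H828R2.SS.Pot2

/-! The core theorem, quantitative version (helper828). -/

open Set Real

namespace H828SS

theorem core_quant (a b : ℝ) (ha : 0 < a) (hb : 0 < b) :
    ∃ L : ℝ, 1 ≤ L ∧ ∀ g : ℂ → ℝ, Gauge g → (∀ θ, a ≤ hh g θ) → (∀ θ, hh g θ ≤ b) →
      ¬ NoSqL g L := by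
  obtain ⟨R, R1, c0, c1, hR5, hR1, h1, h2, h3, h4⟩ := consts a b ha hb
  refine ⟨R1, by linarith, ?_⟩
  intro g hg hga hgb hns
  have hge : ∀ φ, ∀ x ∈ Icc (-1 : ℝ) 1, ∀ η, a * wid x η ≤ GG g φ x η :=
    fun φ x hx η => GG_ge hg hga φ hx η
  have hle : ∀ φ, ∀ x ∈ Icc (-1 : ℝ) 1, ∀ η, GG g φ x η ≤ b * wid x η :=
    fun φ x hx η => GG_le hg hgb φ hx η
  have hnz : ∀ φ, ∀ x ∈ Icc (-1 : ℝ) 1, ∀ η ∈ Icc (3 : ℝ) R1,
      ¬(Gp g φ x η = 0 ∧ (1 - x ^ 2) * Gx g φ x η = 0 ∧ Ge g φ x η = 0) :=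
    fun φ x hx η hη => G_nzL hg hns φ hx (by linarith [hη.1]) hη.2
  obtain ⟨Y, hY, hneg⟩ := flowL (GG g) (Gp g) (Gx g) (Ge g) (Gp_cont hg) (Gx_cont hg)
    (Ge_cont hg) (Gp_per hg) (Gx_per hg) (Ge_per hg) R R1 c0 c1 hR5 hR1
    (fun φ x hx η hη => (h1 x hx η hη).trans (hge φ x hx η))
    (fun x hx φ => (hle φ x hx R).trans_lt (h2 x hx))
    (fun φ x hx η hη => (h3 x hx η hη).trans (hge φ x hx η))
    (fun η hη x hx φ => (hle φ x hx η).trans_lt (h4 x hx η hη))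
    (fun φ η x hx => GG_pos hg φ hx η) (GG_der hg) hnz
  have hns' : NoSqL g R := by
    intro x y φ hxy hx hy
    exact hns x y φ hxy (by linarith) (by linarith)
  refine assembleL hg hns' (by linarith) (chainL hg (by linarith) ?_ ?_ Y hY hneg)
  · intro x hx φ
    have hx' : |x| ≤ 1 := abs_le.2 hx
    exact hns' x R φ (Or.inl hx') (by linarith) (by rw [abs_of_nonneg (by linarith)])
  · intro x hx φ
    exact hnz φ x hx R ⟨by linarith, by linarith⟩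

end H828SS
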