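import Pool.Agent.H828R2.SS.Flow

/-! Quantitative version of the descent theorem: only the region `3 ≤ η ≤ R1` is used. -/

open Set Real

namespace H828SS

theorem flowL (G P X E : ℝ → ℝ → ℝ → ℝ)
    (hP : Continuous fun p : ℝ × ℝ × ℝ => P p.1 p.2.1 p.2.2)
    (hX : Continuous fun p : ℝ × ℝ × ℝ => X p.1 p.2.1 p.2.2)
    (hE : Continuous fun p : ℝ × ℝ × ℝ => E p.1 p.2.1 p.2.2)
    (pP : ∀ φ x η, P (φ + 2 * π) x η = P φ x η)
    (pX : ∀ φ x η, X (φ + 2 * π) x η = X φ x η)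
    (pE : ∀ φ x η, E (φ + 2 * π) x η = E φ x η)
    (R R1 c0 c1 : ℝ) (hR5 : 5 ≤ R) (hR1a : R + 2 ≤ R1)
    (hc0' : ∀ φ, ∀ x ∈ Icc (-1 : ℝ) 1, ∀ η ∈ Icc (3 : ℝ) 4, c0 ≤ G φ x η)
    (hRc : ∀ x ∈ Icc (-1 : ℝ) 1, ∀ φ, G φ x R < c0)
    (hc1' : ∀ φ, ∀ x ∈ Icc (-1 : ℝ) 1, ∀ η ∈ Icc (3 : ℝ) R, c1 ≤ G φ x η)
    (hR1c : ∀ η ≥ R1 - 1, ∀ x ∈ Icc (-1 : ℝ) 1, ∀ φ, G φ x η < c1)
    (pos : ∀ φ η, ∀ x ∈ Icc (-1 : ℝ) 1, 0 < G φ x η)
    (der : ∀ φ x η u v w t, 2 < η + t * w →
      HasDerivAt (fun s => G (φ + s * u) (x + s * v) (η + s * w))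
        (P (φ + t * u) (x + t * v) (η + t * w) * u +
          X (φ + t * u) (x + t * v) (η + t * w) * v +
          E (φ + t * u) (x + t * v) (η + t * w) * w) t)
    (nz : ∀ φ, ∀ x ∈ Icc (-1 : ℝ) 1, ∀ η ∈ Icc (3 : ℝ) R1,
      ¬(P φ x η = 0 ∧ (1 - x ^ 2) * X φ x η = 0 ∧ E φ x η = 0)) :
    ∃ Y : ℝ → ℝ → ℝ × ℝ × ℝ,
      Htp GoodV (fun x φ => (P φ x R, (1 - x ^ 2) * X φ x R, E φ x R)) Y ∧
      ∀ x ∈ Icc (-1 : ℝ) 1, ∀ φ, (Y x φ).2.2 < 0 := by
  obtain ⟨MP, hMP, hMP'⟩ := flow_upper P hP pP 3 R1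
  obtain ⟨MX, hMX, hMX'⟩ := flow_upper X hX pX 3 R1
  obtain ⟨ME, hME, hME'⟩ := flow_upper E hE pE 3 R1
  -- the quadratic form
  obtain ⟨γ2, hγ2, hγ2'⟩ := flow_lower
    (fun φ x η => P φ x η * P φ x η + X φ x η * ((1 - x ^ 2) * X φ x η) + E φ x η * E φ x η)
    (by
      have h1 : Continuous fun p : ℝ × ℝ × ℝ => 1 - p.2.1 ^ 2 := by fun_prop
      exact ((hP.mul hP).add (hX.mul (h1.mul hX))).add (hE.mul hE))
    (fun φ x η => by simp only [pP, pX, pE]) 3 R1
    (fun φ x hx η hη => by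
      have hn := nz φ x hx η hη
      have hx2 : 0 ≤ 1 - x ^ 2 := by nlinarith [hx.1, hx.2]
      have h1 : 0 ≤ P φ x η * P φ x η := mul_self_nonneg _
      have h3 : 0 ≤ E φ x η * E φ x η := mul_self_nonneg _
      have h2 : 0 ≤ X φ x η * ((1 - x ^ 2) * X φ x η) := by
        have : X φ x η * ((1 - x ^ 2) * X φ x η) = (1 - x ^ 2) * (X φ x η * X φ x η) := by ring
        rw [this]; exact mul_nonneg hx2 (mul_self_nonneg _)
      rcases lt_or_eq_of_le (add_nonneg (add_nonneg h1 h2) h3) with h | h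
      · exact h
      · exfalso
        apply hn
        have e1 : P φ x η * P φ x η = 0 := by linarith
        have e3 : E φ x η * E φ x η = 0 := by linarith
        have e2 : X φ x η * ((1 - x ^ 2) * X φ x η) = 0 := by linarith
        refine ⟨mul_self_eq_zero.mp e1, ?_, mul_self_eq_zero.mp e3⟩
        rcases mul_eq_zero.mp e2 with h | h
        · rw [h, mul_zero]
        · exact h)
  -- tube lemma
  have htube : ∃ τ0 > 0, ∀ u ∈ Icc (0 : ℝ) τ0, ∀ φ, ∀ x ∈ Icc (-1 : ℝ) 1, ∀ η ∈ Icc 3 R1,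
      γ2 / 2 < P (φ - u * P φ x η) (x - u * ((1 - x ^ 2) * X φ x η)) (η - u * E φ x η) * P φ x η +
        X (φ - u * P φ x η) (x - u * ((1 - x ^ 2) * X φ x η)) (η - u * E φ x η) *
          ((1 - x ^ 2) * X φ x η) +
        E (φ - u * P φ x η) (x - u * ((1 - x ^ 2) * X φ x η)) (η - u * E φ x η) * E φ x η := by
    set B : ℝ × (ℝ × ℝ × ℝ) → ℝ := fun q =>
      P (q.2.1 - q.1 * P q.2.1 q.2.2.1 q.2.2.2)
        (q.2.2.1 - q.1 * ((1 - q.2.2.1 ^ 2) * X q.2.1 q.2.2.1 q.2.2.2))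
        (q.2.2.2 - q.1 * E q.2.1 q.2.2.1 q.2.2.2) * P q.2.1 q.2.2.1 q.2.2.2 +
      X (q.2.1 - q.1 * P q.2.1 q.2.2.1 q.2.2.2)
        (q.2.2.1 - q.1 * ((1 - q.2.2.1 ^ 2) * X q.2.1 q.2.2.1 q.2.2.2))
        (q.2.2.2 - q.1 * E q.2.1 q.2.2.1 q.2.2.2) *
          ((1 - q.2.2.1 ^ 2) * X q.2.1 q.2.2.1 q.2.2.2) +
      E (q.2.1 - q.1 * P q.2.1 q.2.2.1 q.2.2.2)
        (q.2.2.1 - q.1 * ((1 - q.2.2.1 ^ 2) * X q.2.1 q.2.2.1 q.2.2.2))
        (q.2.2.2 - q.1 * E q.2.1 q.2.2.1 q.2.2.2) * E q.2.1 q.2.2.1 q.2.2.2 with hB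
    have cP : Continuous fun q : ℝ × (ℝ × ℝ × ℝ) => P q.2.1 q.2.2.1 q.2.2.2 :=
      hP.comp continuous_snd
    have cX : Continuous fun q : ℝ × (ℝ × ℝ × ℝ) => X q.2.1 q.2.2.1 q.2.2.2 :=
      hX.comp continuous_snd
    have cE : Continuous fun q : ℝ × (ℝ × ℝ × ℝ) => E q.2.1 q.2.2.1 q.2.2.2 :=
      hE.comp continuous_snd
    have cX' : Continuous fun q : ℝ × (ℝ × ℝ × ℝ) =>
        (1 - q.2.2.1 ^ 2) * X q.2.1 q.2.2.1 q.2.2.2 :=
      (by fun_prop : Continuous fun q : ℝ × (ℝ × ℝ × ℝ) => 1 - q.2.2.1 ^ 2).mul cX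
    have cpt : Continuous fun q : ℝ × (ℝ × ℝ × ℝ) =>
        ((q.2.1 - q.1 * P q.2.1 q.2.2.1 q.2.2.2,
          q.2.2.1 - q.1 * ((1 - q.2.2.1 ^ 2) * X q.2.1 q.2.2.1 q.2.2.2),
          q.2.2.2 - q.1 * E q.2.1 q.2.2.1 q.2.2.2) : ℝ × ℝ × ℝ) := by
      refine Continuous.prodMk ?_ (Continuous.prodMk ?_ ?_)
      · exact (by fun_prop : Continuous fun q : ℝ × (ℝ × ℝ × ℝ) => q.2.1).sub
          (continuous_fst.mul cP)
      · exact (by fun_prop : Continuous fun q : ℝ × (ℝ × ℝ × ℝ) => q.2.2.1).sub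
          (continuous_fst.mul cX')
      · exact (by fun_prop : Continuous fun q : ℝ × (ℝ × ℝ × ℝ) => q.2.2.2).sub
          (continuous_fst.mul cE)
    have hBc : Continuous B :=
      ((hP.comp cpt).mul cP |>.add ((hX.comp cpt).mul cX')).add ((hE.comp cpt).mul cE)
    have hK : IsCompact (Icc (0 : ℝ) (2 * π) ×ˢ (Icc (-1 : ℝ) 1 ×ˢ Icc 3 R1)) :=
      isCompact_Icc.prod (isCompact_Icc.prod isCompact_Icc)
    have hopen : IsOpen {q : ℝ × (ℝ × ℝ × ℝ) | γ2 / 2 < B q} :=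
      isOpen_lt continuous_const hBc
    have hsub : ({0} : Set ℝ) ×ˢ (Icc (0 : ℝ) (2 * π) ×ˢ (Icc (-1 : ℝ) 1 ×ˢ Icc 3 R1)) ⊆
        {q : ℝ × (ℝ × ℝ × ℝ) | γ2 / 2 < B q} := by
      rintro ⟨u, φ, x, η⟩ ⟨hu, hφ, hx, hη⟩
      simp only [mem_singleton_iff] at hu
      subst hu
      have := hγ2' φ x hx η hη
      simp only [Set.mem_ofPred_eq, hB, zero_mul, sub_zero]
      linarith
    obtain ⟨U, V, hU, hV, hU0, hVK, hUV⟩ :=
      generalized_tube_lemma (isCompact_singleton (x := (0 : ℝ))) hK hopen hsub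
    obtain ⟨ε, hε, hball⟩ := Metric.isOpen_iff.mp hU 0 (hU0 rfl)
    refine ⟨ε / 2, by positivity, ?_⟩
    intro u hu φ x hx η hη
    set W : ℝ → ℝ := fun φ => B (u, φ, x, η) with hW
    have hWper : Function.Periodic W (2 * π) := by
      intro ψ
      simp only [hW, hB, pP, pX, pE]
      have e1 : ψ + 2 * π - u * P ψ x η = (ψ - u * P ψ x η) + 2 * π := by ring
      rw [e1, pP, pX, pE]
    obtain ⟨φ', hφ', he⟩ := hWper.exists_mem_Ico₀ (by positivity) φ
    have h1 : (u, φ', x, η) ∈ U ×ˢ V := by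
      refine ⟨hball ?_, hVK ⟨Ico_subset_Icc_self hφ', hx, hη⟩⟩
      simp only [Metric.mem_ball, dist_zero_right, norm_eq_abs, abs_of_nonneg hu.1]
      linarith [hu.2]
    have h2 := hUV h1
    have h3 : γ2 / 2 < W φ := by rw [he]; exact h2
    exact h3
  obtain ⟨τ0, hτ0, htube⟩ := htube
  -- the step size
  set M : ℝ := MP + MX + ME with hMdef
  have hM : 0 < M := by positivity
  set τ : ℝ := min τ0 (1 / (2 * M)) with hτdef
  have hτ : 0 < τ := by positivity
  have hττ0 : τ ≤ τ0 := min_le_left _ _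
  have hτM : τ * (2 * M) ≤ 1 := by
    have : τ ≤ 1 / (2 * M) := min_le_right _ _
    calc τ * (2 * M) ≤ 1 / (2 * M) * (2 * M) := by gcongr
      _ = 1 := by field_simp
  -- descent along a straight step
  have hdesc : ∀ φ, ∀ x ∈ Icc (-1 : ℝ) 1, ∀ η ∈ Icc 3 R1, ∀ s ∈ Icc (0 : ℝ) τ,
      G (φ - s * P φ x η) (x - s * ((1 - x ^ 2) * X φ x η)) (η - s * E φ x η) ≤
        G φ x η - s * (γ2 / 2) := by
    intro φ x hx η hη s hs
    set u := -P φ x η with hu
    set v := -((1 - x ^ 2) * X φ x η) with hv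
    set w := -E φ x η with hw
    have hrange : ∀ t ∈ Icc (0 : ℝ) τ, 2 < η + t * w := by
      intro t ht
      have h1 : |E φ x η| ≤ M := (hME' φ x hx η hη).trans (by rw [hMdef]; linarith)
      have h2 : t * E φ x η ≤ τ * M := by
        by_cases hE0 : 0 ≤ E φ x η
        · exact mul_le_mul ht.2 ((le_abs_self _).trans h1) hE0 hτ.le
        · push Not at hE0
          have := mul_nonneg ht.1 (neg_nonneg.mpr hE0.le)
          have := mul_nonneg hτ.le hM.le
          nlinarith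
      have h3 : τ * M ≤ 1 / 2 := by linarith
      have : η + t * w = η - t * E φ x η := by rw [hw]; ring
      rw [this]
      linarith [hη.1]
    have hd : ∀ t ∈ Icc (0 : ℝ) s, HasDerivAt (fun s => G (φ + s * u) (x + s * v) (η + s * w))
        (P (φ + t * u) (x + t * v) (η + t * w) * u +
          X (φ + t * u) (x + t * v) (η + t * w) * v +
          E (φ + t * u) (x + t * v) (η + t * w) * w) t := by
      intro t ht
      exact der φ x η u v w t (hrange t ⟨ht.1, ht.2.trans hs.2⟩)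
    have hle : ∀ t ∈ Icc (0 : ℝ) s, (P (φ + t * u) (x + t * v) (η + t * w) * u +
          X (φ + t * u) (x + t * v) (η + t * w) * v +
          E (φ + t * u) (x + t * v) (η + t * w) * w) ≤ -(γ2 / 2) := by
      intro t ht
      have := htube t ⟨ht.1, (ht.2.trans hs.2).trans hττ0⟩ φ x hx η hη
      have e1 : φ + t * u = φ - t * P φ x η := by rw [hu]; ring
      have e2 : x + t * v = x - t * ((1 - x ^ 2) * X φ x η) := by rw [hv]; ring
      have e3 : η + t * w = η - t * E φ x η := by rw [hw]; ring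
      rw [e1, e2, e3]
      rw [hu, hv, hw]
      linarith
    have hmv := Convex.image_sub_le_mul_sub_of_deriv_le (D := Icc (0 : ℝ) s)
      (f := fun s => G (φ + s * u) (x + s * v) (η + s * w)) (C := -(γ2 / 2)) (convex_Icc 0 s)
      (fun t ht => (hd t ht).continuousAt.continuousWithinAt)
      (fun t ht => (hd t (interior_subset ht)).differentiableAt.differentiableWithinAt)
      (fun t ht => by rw [(hd t (interior_subset ht)).deriv]; exact hle t (interior_subset ht))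
      0 ⟨le_rfl, hs.1⟩ s ⟨hs.1, le_rfl⟩ hs.1
    simp only [zero_mul, add_zero, sub_zero] at hmv
    have e1 : φ + s * u = φ - s * P φ x η := by rw [hu]; ring
    have e2 : x + s * v = x - s * ((1 - x ^ 2) * X φ x η) := by rw [hv]; ring
    have e3 : η + s * w = η - s * E φ x η := by rw [hw]; ring
    rw [e1, e2, e3] at hmv
    linarith
  -- one Euler step
  set χ : ℝ → ℝ := fun η => max 0 (min 1 (min (η - 3) (R1 - η))) with hχ
  have hχc : Continuous χ := by simp only [hχ]; fun_prop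
  have hχ0 : ∀ η, 0 ≤ χ η := fun η => le_max_left _ _
  have hχ1 : ∀ η, χ η ≤ 1 := fun η => max_le zero_le_one (min_le_left _ _)
  have hχa : ∀ η ∈ Icc 3 R1, χ η ≤ η - 3 := fun η hη =>
    max_le (by linarith [hη.1]) ((min_le_right _ _).trans (min_le_left _ _))
  have hχb : ∀ η ∈ Icc 3 R1, χ η ≤ R1 - η := fun η hη =>
    max_le (by linarith [hη.2]) ((min_le_right _ _).trans (min_le_right _ _))
  have hχm : ∀ η, 4 ≤ η → η ≤ R1 - 1 → χ η = 1 := by
    intro η h1 h2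
    apply le_antisymm (hχ1 η)
    exact (le_min le_rfl (le_min (by linarith) (by linarith))).trans (le_max_right _ _)
  set step : ℝ → ℝ × ℝ × ℝ → ℝ × ℝ × ℝ := fun s p =>
    (p.1 - s * (τ * χ p.2.2) * P p.1 p.2.1 p.2.2,
      p.2.1 - s * (τ * χ p.2.2) * ((1 - p.2.1 ^ 2) * X p.1 p.2.1 p.2.2),
      p.2.2 - s * (τ * χ p.2.2) * E p.1 p.2.1 p.2.2) with hstep
  have hstepc : Continuous fun q : ℝ × (ℝ × ℝ × ℝ) => step q.1 q.2 := by
    have cP : Continuous fun q : ℝ × (ℝ × ℝ × ℝ) => P q.2.1 q.2.2.1 q.2.2.2 :=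
      hP.comp continuous_snd
    have cX : Continuous fun q : ℝ × (ℝ × ℝ × ℝ) => X q.2.1 q.2.2.1 q.2.2.2 :=
      hX.comp continuous_snd
    have cE : Continuous fun q : ℝ × (ℝ × ℝ × ℝ) => E q.2.1 q.2.2.1 q.2.2.2 :=
      hE.comp continuous_snd
    have cX' : Continuous fun q : ℝ × (ℝ × ℝ × ℝ) =>
        (1 - q.2.2.1 ^ 2) * X q.2.1 q.2.2.1 q.2.2.2 :=
      (by fun_prop : Continuous fun q : ℝ × (ℝ × ℝ × ℝ) => 1 - q.2.2.1 ^ 2).mul cX
    have cχ : Continuous fun q : ℝ × (ℝ × ℝ × ℝ) => q.1 * (τ * χ q.2.2.2) := by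
      have : Continuous fun q : ℝ × (ℝ × ℝ × ℝ) => χ q.2.2.2 :=
        hχc.comp (by fun_prop)
      fun_prop
    refine Continuous.prodMk ?_ (Continuous.prodMk ?_ ?_)
    · exact (by fun_prop : Continuous fun q : ℝ × (ℝ × ℝ × ℝ) => q.2.1).sub (cχ.mul cP)
    · exact (by fun_prop : Continuous fun q : ℝ × (ℝ × ℝ × ℝ) => q.2.2.1).sub (cχ.mul cX')
    · exact (by fun_prop : Continuous fun q : ℝ × (ℝ × ℝ × ℝ) => q.2.2.2).sub (cχ.mul cE)
  -- properties of a step
  have hstepK : ∀ s ∈ Icc (0 : ℝ) 1, ∀ p : ℝ × ℝ × ℝ, p.2.1 ∈ Icc (-1 : ℝ) 1 →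
      p.2.2 ∈ Icc 3 R1 → (step s p).2.1 ∈ Icc (-1 : ℝ) 1 ∧ (step s p).2.2 ∈ Icc 3 R1 := by
    rintro s hs ⟨φ, x, η⟩ hx hη
    simp only at hx hη
    simp only [hstep]
    have hXb : |X φ x η| ≤ M := (hMX' φ x hx η hη).trans (by rw [hMdef]; linarith)
    have hEb : |E φ x η| ≤ M := (hME' φ x hx η hη).trans (by rw [hMdef]; linarith)
    obtain ⟨hXb1, hXb2⟩ := abs_le.mp hXb
    obtain ⟨hEb1, hEb2⟩ := abs_le.mp hEb
    have hsχ0 : 0 ≤ s * (τ * χ η) := mul_nonneg hs.1 (mul_nonneg hτ.le (hχ0 η))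
    have hsχ1 : s * (τ * χ η) ≤ τ := by
      calc s * (τ * χ η) ≤ 1 * (τ * 1) := by
            apply mul_le_mul hs.2 _ (mul_nonneg hτ.le (hχ0 η)) zero_le_one
            exact mul_le_mul_of_nonneg_left (hχ1 η) hτ.le
        _ = τ := by ring
    have hsX : s * (τ * χ η) * |X φ x η| ≤ 1 / 2 := by
      calc s * (τ * χ η) * |X φ x η| ≤ τ * M := mul_le_mul hsχ1 hXb (abs_nonneg _) hτ.le
        _ ≤ 1 / 2 := by linarith
    have hsX' : |s * (τ * χ η) * X φ x η| ≤ 1 / 2 := by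
      rw [abs_mul, abs_of_nonneg hsχ0]; exact hsX
    obtain ⟨hs1, hs2⟩ := abs_le.mp hsX'
    refine ⟨⟨?_, ?_⟩, ?_, ?_⟩
    · have : x - s * (τ * χ η) * ((1 - x ^ 2) * X φ x η) - (-1) =
          (1 + x) * (1 - (1 - x) * (s * (τ * χ η) * X φ x η)) := by ring
      have h2 : 0 ≤ 1 - (1 - x) * (s * (τ * χ η) * X φ x η) := by
        nlinarith [hx.1, hx.2]
      have h3 : 0 ≤ 1 + x := by linarith [hx.1]
      have := mul_nonneg h3 h2
      linarith
    · have : 1 - (x - s * (τ * χ η) * ((1 - x ^ 2) * X φ x η)) =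
          (1 - x) * (1 + (1 + x) * (s * (τ * χ η) * X φ x η)) := by ring
      have h2 : 0 ≤ 1 + (1 + x) * (s * (τ * χ η) * X φ x η) := by
        nlinarith [hx.1, hx.2]
      have h3 : 0 ≤ 1 - x := by linarith [hx.2]
      have := mul_nonneg h3 h2
      linarith
    · have h1 : s * (τ * χ η) * E φ x η ≤ (η - 3) * (τ * M) := by
        calc s * (τ * χ η) * E φ x η ≤ s * (τ * χ η) * M :=
              mul_le_mul_of_nonneg_left hEb2 hsχ0
          _ = s * χ η * (τ * M) := by ring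
          _ ≤ (η - 3) * (τ * M) := by
              apply mul_le_mul_of_nonneg_right _ (mul_nonneg hτ.le hM.le)
              calc s * χ η ≤ 1 * χ η := mul_le_mul_of_nonneg_right hs.2 (hχ0 η)
                _ ≤ η - 3 := by rw [one_mul]; exact hχa η hη
      have h2 : (η - 3) * (τ * M) ≤ (η - 3) * 1 :=
        mul_le_mul_of_nonneg_left (by linarith) (by linarith [hη.1])
      linarith
    · have h1 : -(s * (τ * χ η) * E φ x η) ≤ (R1 - η) * (τ * M) := by
        calc -(s * (τ * χ η) * E φ x η) = s * (τ * χ η) * (-E φ x η) := by ring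
          _ ≤ s * (τ * χ η) * M :=
              mul_le_mul_of_nonneg_left (by linarith) hsχ0
          _ = s * χ η * (τ * M) := by ring
          _ ≤ (R1 - η) * (τ * M) := by
              apply mul_le_mul_of_nonneg_right _ (mul_nonneg hτ.le hM.le)
              calc s * χ η ≤ 1 * χ η := mul_le_mul_of_nonneg_right hs.2 (hχ0 η)
                _ ≤ R1 - η := by rw [one_mul]; exact hχb η hη
      have h2 : (R1 - η) * (τ * M) ≤ (R1 - η) * 1 :=
        mul_le_mul_of_nonneg_left (by linarith) (by linarith [hη.2])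
      linarith
  have hstepG : ∀ s ∈ Icc (0 : ℝ) 1, ∀ p : ℝ × ℝ × ℝ, p.2.1 ∈ Icc (-1 : ℝ) 1 →
      p.2.2 ∈ Icc 3 R1 → G (step s p).1 (step s p).2.1 (step s p).2.2 ≤
        G p.1 p.2.1 p.2.2 - s * (τ * χ p.2.2) * (γ2 / 2) := by
    rintro s hs ⟨φ, x, η⟩ hx hη
    simp only at hx hη
    simp only [hstep]
    have hsχ0 : 0 ≤ s * (τ * χ η) := mul_nonneg hs.1 (mul_nonneg hτ.le (hχ0 η))
    have hsχ1 : s * (τ * χ η) ≤ τ := by
      calc s * (τ * χ η) ≤ 1 * (τ * 1) := by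
            apply mul_le_mul hs.2 _ (mul_nonneg hτ.le (hχ0 η)) zero_le_one
            exact mul_le_mul_of_nonneg_left (hχ1 η) hτ.le
        _ = τ := by ring
    exact hdesc φ x hx η hη _ ⟨hsχ0, hsχ1⟩
  have hstepG' : ∀ s ∈ Icc (0 : ℝ) 1, ∀ p : ℝ × ℝ × ℝ, p.2.1 ∈ Icc (-1 : ℝ) 1 →
      p.2.2 ∈ Icc 3 R1 → G (step s p).1 (step s p).2.1 (step s p).2.2 ≤ G p.1 p.2.1 p.2.2 := by
    intro s hs p hx hη
    have h1 := hstepG s hs p hx hη
    have h2 : 0 ≤ s * (τ * χ p.2.2) * (γ2 / 2) :=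
      mul_nonneg (mul_nonneg hs.1 (mul_nonneg hτ.le (hχ0 _))) (by positivity)
    linarith
  have hstepx : ∀ s (p : ℝ × ℝ × ℝ), p.2.1 ^ 2 = 1 → (step s p).2.1 = p.2.1 := by
    intro s p h
    simp only [hstep, h]
    ring
  have hstepp : ∀ s φ x η, step s (φ + 2 * π, x, η) =
      ((step s (φ, x, η)).1 + 2 * π, (step s (φ, x, η)).2) := by
    intro s φ x η
    simp only [hstep, pP, pX, pE]
    refine Prod.ext ?_ rfl
    simp only
    ring
  -- iterates
  set pn : ℕ → ℝ → ℝ → ℝ × ℝ × ℝ := fun n x φ => (step 1)^[n] (φ, x, R) with hpn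
  have hpn0 : ∀ x φ, pn 0 x φ = (φ, x, R) := fun x φ => rfl
  have hpns : ∀ n x φ, pn (n + 1) x φ = step 1 (pn n x φ) := by
    intro n x φ
    simp only [hpn, Function.iterate_succ_apply']
  have hpnc : ∀ n, Continuous fun q : ℝ × ℝ => pn n q.1 q.2 := by
    intro n
    induction n with
    | zero =>
      simp only [hpn0]
      fun_prop
    | succ n ih =>
      simp only [hpns]
      exact hstepc.comp (continuous_const.prodMk ih)
  have hpnK : ∀ n, ∀ x ∈ Icc (-1 : ℝ) 1, ∀ φ, (pn n x φ).2.1 ∈ Icc (-1 : ℝ) 1 ∧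
      (pn n x φ).2.2 ∈ Icc 3 R1 := by
    intro n x hx φ
    induction n with
    | zero =>
      rw [hpn0]
      exact ⟨hx, by linarith, by linarith⟩
    | succ n ih =>
      rw [hpns]
      exact hstepK 1 ⟨zero_le_one, le_rfl⟩ _ ih.1 ih.2
  have hpnG : ∀ n, ∀ x ∈ Icc (-1 : ℝ) 1, ∀ φ, G (pn (n + 1) x φ).1 (pn (n + 1) x φ).2.1
      (pn (n + 1) x φ).2.2 ≤ G (pn n x φ).1 (pn n x φ).2.1 (pn n x φ).2.2 -
        τ * χ (pn n x φ).2.2 * (γ2 / 2) := by
    intro n x hx φ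
    rw [hpns]
    have := hstepG 1 ⟨zero_le_one, le_rfl⟩ _ (hpnK n x hx φ).1 (hpnK n x hx φ).2
    rw [one_mul] at this
    exact this
  have hpnmono : ∀ x ∈ Icc (-1 : ℝ) 1, ∀ φ, Antitone fun n =>
      G (pn n x φ).1 (pn n x φ).2.1 (pn n x φ).2.2 := by
    intro x hx φ
    apply antitone_nat_of_succ_le
    intro n
    have h1 := hpnG n x hx φ
    have h2 : 0 ≤ τ * χ (pn n x φ).2.2 * (γ2 / 2) :=
      mul_nonneg (mul_nonneg hτ.le (hχ0 _)) (by positivity)
    linarith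
  have hpnx : ∀ n x φ, x ^ 2 = 1 → (pn n x φ).2.1 = x := by
    intro n x φ hx
    induction n with
    | zero => rfl
    | succ n ih =>
      rw [hpns, hstepx 1 _ (by rw [ih]; exact hx), ih]
  have hpnp : ∀ n x φ, pn n x (φ + 2 * π) = ((pn n x φ).1 + 2 * π, (pn n x φ).2) := by
    intro n x φ
    induction n with
    | zero => rfl
    | succ n ih =>
      rw [hpns, hpns, ih]
      exact hstepp 1 _ _ _
  -- first decrease
  have hχR : χ R = 1 := hχm R (by linarith) (by linarith)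
  have hfirst : ∀ n, ∀ x ∈ Icc (-1 : ℝ) 1, ∀ φ, ∀ s ∈ Icc (0 : ℝ) 1,
      step s (pn (n + 1) x φ) ≠ (φ, x, R) := by
    intro n x hx φ s hs he
    have h1 := hstepG' s hs _ (hpnK (n + 1) x hx φ).1 (hpnK (n + 1) x hx φ).2
    rw [he] at h1
    simp only at h1
    have h2 := hpnmono x hx φ (Nat.succ_le_succ (Nat.zero_le n))
    simp only [Nat.succ_eq_add_one, zero_add] at h2
    have h3 := hpnG 0 x hx φ
    simp only [hpn0, zero_add, hχR] at h3
    have h4 : 0 < τ * 1 * (γ2 / 2) := by positivity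
    linarith
  -- number of steps
  obtain ⟨N, hN⟩ := exists_nat_gt (c0 / (τ * (γ2 / 2)))
  have hN' : c0 < N * (τ * (γ2 / 2)) := by
    rwa [div_lt_iff₀ (by positivity)] at hN
  have hfar : ∀ x ∈ Icc (-1 : ℝ) 1, ∀ φ, R < (pn (N + 1) x φ).2.2 := by
    intro x hx φ
    by_contra hcon
    push Not at hcon
    have hG0 : G φ x R < c0 := hRc x hx φ
    -- never in [3,4]
    have h4 : ∀ n, 4 < (pn n x φ).2.2 := by
      intro n
      by_contra hc
      push Not at hc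
      have h1 := hc0' (pn n x φ).1 (pn n x φ).2.1 (hpnK n x hx φ).1 (pn n x φ).2.2
        ⟨(hpnK n x hx φ).2.1, hc⟩
      have h2 := hpnmono x hx φ (Nat.zero_le n)
      simp only [hpn0] at h2
      linarith
    have hle : ∀ n ≤ N + 1, (pn n x φ).2.2 ≤ R1 - 1 := by
      intro n hn
      by_contra hc
      push Not at hc
      have h1 := hR1c (pn n x φ).2.2 hc.le (pn n x φ).2.1 (hpnK n x hx φ).1 (pn n x φ).1
      have h2 := hpnmono x hx φ hn
      simp only at h2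
      have h3 := hc1' (pn (N + 1) x φ).1 (pn (N + 1) x φ).2.1 (hpnK (N + 1) x hx φ).1
        (pn (N + 1) x φ).2.2 ⟨(hpnK (N + 1) x hx φ).2.1, hcon⟩
      linarith
    have hsum : ∀ n ≤ N + 1, G (pn n x φ).1 (pn n x φ).2.1 (pn n x φ).2.2 ≤
        G φ x R - n * (τ * (γ2 / 2)) := by
      intro n
      induction n with
      | zero => intro _; simp [hpn0]
      | succ n ih =>
        intro hn
        have h1 := ih (by omega)
        have h2 := hpnG n x hx φ
        rw [hχm _ (h4 n).le (hle n (by omega))] at h2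
        push_cast
        linarith
    have h1 := hsum N (by omega)
    have h2 := pos (pn N x φ).1 (pn N x φ).2.2 (pn N x φ).2.1 (hpnK N x hx φ).1
    linarith
  -- the homotopies
  refine ⟨fun x φ => (φ, x, R) - pn (N + 1) x φ, ?_, ?_⟩
  · have hbase : Htp GoodV (fun x φ => (P φ x R, (1 - x ^ 2) * X φ x R, E φ x R))
        (fun x φ => (φ, x, R) - pn 1 x φ) := by
      refine ⟨fun s x φ => (((1 - s) + s * τ) * P φ x R,
        ((1 - s) + s * τ) * ((1 - x ^ 2) * X φ x R), ((1 - s) + s * τ) * E φ x R),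
        ?_, ?_, ?_, ?_⟩
      · have cpt : Continuous fun q : ℝ × ℝ × ℝ => ((q.2.2, q.2.1, R) : ℝ × ℝ × ℝ) := by
          fun_prop
        have cs : Continuous fun q : ℝ × ℝ × ℝ => (1 - q.1) + q.1 * τ := by fun_prop
        have cx : Continuous fun q : ℝ × ℝ × ℝ => 1 - q.2.1 ^ 2 := by fun_prop
        exact (cs.mul (hP.comp cpt)).prodMk ((cs.mul (cx.mul (hX.comp cpt))).prodMk
          (cs.mul (hE.comp cpt)))
      · funext x φ
        simp
      · funext x φ
        rw [hpns, hpn0]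
        simp only [hstep, hχR]
        refine Prod.ext ?_ (Prod.ext ?_ ?_)
        · simp
        · simp
        · simp
      · intro s hs
        have hpos : 0 < (1 - s) + s * τ := by
          rcases lt_or_eq_of_le hs.2 with h | h
          · have := mul_nonneg hs.1 hτ.le
            linarith
          · rw [h]; linarith
        refine ⟨?_, ?_, ?_, ?_⟩
        · intro x hx φ he
          have h1 : ((1 - s) + s * τ) * P φ x R = 0 := congrArg Prod.fst he
          have h2 : ((1 - s) + s * τ) * ((1 - x ^ 2) * X φ x R) = 0 :=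
            congrArg (fun q : ℝ × ℝ × ℝ => q.2.1) he
          have h3 : ((1 - s) + s * τ) * E φ x R = 0 :=
            congrArg (fun q : ℝ × ℝ × ℝ => q.2.2) he
          exact nz φ x hx R ⟨by linarith, by linarith⟩
            ⟨(mul_eq_zero.mp h1).resolve_left hpos.ne', (mul_eq_zero.mp h2).resolve_left hpos.ne',
              (mul_eq_zero.mp h3).resolve_left hpos.ne'⟩
        · intro φ
          show ((1 - s) + s * τ) * ((1 - (-1 : ℝ) ^ 2) * X φ (-1) R) = 0
          norm_num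
        · intro φ
          show ((1 - s) + s * τ) * ((1 - (1 : ℝ) ^ 2) * X φ 1 R) = 0
          norm_num
        · intro x φ
          simp only [pP, pX, pE]
    have hind : ∀ n, Htp GoodV (fun x φ => (P φ x R, (1 - x ^ 2) * X φ x R, E φ x R))
        (fun x φ => (φ, x, R) - pn (n + 1) x φ) := by
      intro n
      induction n with
      | zero => exact hbase
      | succ n ih =>
        refine ih.trans ⟨fun s x φ => (φ, x, R) - step s (pn (n + 1) x φ), ?_, ?_, ?_, ?_⟩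
        · have h1 : Continuous fun q : ℝ × ℝ × ℝ => ((q.2.2, q.2.1, R) : ℝ × ℝ × ℝ) := by
            fun_prop
          have h2 : Continuous fun q : ℝ × ℝ × ℝ => pn (n + 1) q.2.1 q.2.2 :=
            (hpnc (n + 1)).comp continuous_snd
          exact h1.sub (hstepc.comp (continuous_fst.prodMk h2))
        · funext x φ
          have : step 0 (pn (n + 1) x φ) = pn (n + 1) x φ := by
            simp [hstep]
          show (φ, x, R) - step 0 (pn (n + 1) x φ) = (φ, x, R) - pn (n + 1) x φ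
          rw [this]
        · funext x φ
          show (φ, x, R) - step 1 (pn (n + 1) x φ) = (φ, x, R) - pn (n + 1 + 1) x φ
          rw [hpns (n + 1)]
        · intro s hs
          refine ⟨?_, ?_, ?_, ?_⟩
          · intro x hx φ he
            exact hfirst n x hx φ s hs (sub_eq_zero.mp he).symm
          · intro φ
            show (-1 : ℝ) - (step s (pn (n + 1) (-1) φ)).2.1 = 0
            rw [hstepx s _ (by rw [hpnx _ _ _ (by norm_num)]; norm_num),
              hpnx _ _ _ (by norm_num)]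
            ring
          · intro φ
            show (1 : ℝ) - (step s (pn (n + 1) 1 φ)).2.1 = 0
            rw [hstepx s _ (by rw [hpnx _ _ _ (by norm_num)]; norm_num),
              hpnx _ _ _ (by norm_num)]
            ring
          · intro x φ
            show (φ + 2 * π, x, R) - step s (pn (n + 1) x (φ + 2 * π)) =
              (φ, x, R) - step s (pn (n + 1) x φ)
            rw [hpnp]
            have := hstepp s (pn (n + 1) x φ).1 (pn (n + 1) x φ).2.1 (pn (n + 1) x φ).2.2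
            rw [this]
            refine Prod.ext ?_ rfl
            simp
    exact hind N
  · intro x hx φ
    show R - (pn (N + 1) x φ).2.2 < 0
    linarith [hfar x hx φ]

end H828SS
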