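import Pool.Agent.H828R2.SS.QDefs

/-! Task K3 (helper889): from the strict to the weak star-shaped case. -/

open Set Real

set_option linter.unusedVariables false

namespace H828SS

/-- the unit vector in direction `θ` -/
noncomputable def uv (θ : ℝ) : ℂ := Complex.exp ((θ : ℂ) * Complex.I)

theorem uv_norm (θ : ℝ) : ‖uv θ‖ = 1 := Complex.norm_exp_ofReal_mul_I θ

theorem uv_ne (θ : ℝ) : uv θ ≠ 0 := Complex.exp_ne_zero _

theorem uv_cont : Continuous uv := by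
  unfold uv
  fun_prop

theorem uv_int (θ : ℝ) (n : ℤ) : uv (θ + n * (2 * π)) = uv θ := by
  unfold uv
  rw [Complex.exp_eq_exp_iff_exists_int]
  exact ⟨n, by push_cast; ring⟩

theorem uv_per (θ : ℝ) : uv (θ + 2 * π) = uv θ := by
  have := uv_int θ 1
  simpa using this

theorem uv_inj {a b : ℝ} (h : uv a = uv b) : ∃ n : ℤ, a = b + n * (2 * π) := by
  unfold uv at h
  rw [Complex.exp_eq_exp_iff_exists_int] at h
  obtain ⟨n, hn⟩ := h
  refine ⟨n, ?_⟩
  have h2 : ((a : ℂ)) * Complex.I = ((b + n * (2 * π) : ℝ) : ℂ) * Complex.I := by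
    rw [hn]; push_cast; ring
  have h3 := mul_right_cancel₀ Complex.I_ne_zero h2
  exact_mod_cast h3

theorem uv_sub (a b : ℝ) : ‖uv a - uv b‖ ≤ |a - b| := by
  have h : uv a - uv b = uv b * (Complex.exp (Complex.I * ((a - b : ℝ) : ℂ)) - 1) := by
    unfold uv
    rw [mul_sub, ← Complex.exp_add, mul_one]
    congr 2
    push_cast
    ring
  rw [h, norm_mul, uv_norm, one_mul]
  have := norm_exp_I_mul_ofReal_sub_one_le (x := a - b)
  simpa [Real.norm_eq_abs] using this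

section approx

variable {m M : ℝ} {C : Set ℂ} {O : ℂ}

/-- the parameters of the curve on the ray in direction `θ` -/
def SS (C : Set ℂ) (O : ℂ) (θ : ℝ) : Set ℝ := {t : ℝ | 0 < t ∧ O + (t : ℂ) * uv θ ∈ C}

theorem SS_mem (hann : ∀ z ∈ C, m ≤ ‖z - O‖ ∧ ‖z - O‖ ≤ M) {θ t : ℝ} (h : t ∈ SS C O θ) :
    m ≤ t ∧ t ≤ M := by
  have h1 := hann _ h.2
  rw [add_sub_cancel_left, norm_mul, uv_norm, mul_one, Complex.norm_real, Real.norm_eq_abs,
    abs_of_pos h.1] at h1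
  exact h1

theorem SS_compact (hm : 0 < m) (hC : IsCompact C) (hann : ∀ z ∈ C, m ≤ ‖z - O‖ ∧ ‖z - O‖ ≤ M)
    (θ : ℝ) : IsCompact (SS C O θ) := by
  have e : SS C O θ = Icc m M ∩ (fun t : ℝ => O + (t : ℂ) * uv θ) ⁻¹' C := by
    ext t
    constructor
    · intro h
      exact ⟨SS_mem hann h, h.2⟩
    · rintro ⟨h1, h2⟩
      exact ⟨lt_of_lt_of_le hm h1.1, h2⟩
  rw [e]
  refine isCompact_Icc.inter_right (hC.isClosed.preimage ?_)
  fun_prop

theorem SS_per (θ : ℝ) : SS C O (θ + 2 * π) = SS C O θ := by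
  unfold SS
  rw [uv_per]

/-- the lower radial function -/
noncomputable def fmn (C : Set ℂ) (O : ℂ) (θ : ℝ) : ℝ := sInf (SS C O θ)

theorem fmn_per (θ : ℝ) : fmn C O (θ + 2 * π) = fmn C O θ := by
  unfold fmn
  rw [SS_per]

/-- the Lipschitz regularisation -/
noncomputable def fK (C : Set ℂ) (O : ℂ) (K θ : ℝ) : ℝ := ⨅ θ' : ℝ, (fmn C O θ' + K * |θ - θ'|)

end approx

/-- approximation from below by a continuous star-shaped curve. -/
theorem weak_approx (m M : ℝ) (hm : 0 < m) (C : Set ℂ) (O : ℂ) (hC : IsCompact C)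
    (hann : ∀ z ∈ C, m ≤ ‖z - O‖ ∧ ‖z - O‖ ≤ M)
    (hs : ∀ u : ℂ, u ≠ 0 → {t : ℝ | 0 < t ∧ O + (t : ℂ) * u ∈ C}.Nonempty ∧
      IsPreconnected {t : ℝ | 0 < t ∧ O + (t : ℂ) * u ∈ C}) (ε : ℝ) (hε : 0 < ε) :
    ∃ D : Set ℂ, IsCompact D ∧ (∀ z ∈ D, m ≤ ‖z - O‖ ∧ ‖z - O‖ ≤ M) ∧
      (∀ u : ℂ, u ≠ 0 → ∃! t : ℝ, 0 < t ∧ O + (t : ℂ) * u ∈ D) ∧
      ∀ z ∈ D, ∃ z' ∈ C, ‖z - z'‖ ≤ ε := by
  have hne : ∀ θ, (SS C O θ).Nonempty := fun θ => (hs (uv θ) (uv_ne θ)).1
  have hpc : ∀ θ, IsPreconnected (SS C O θ) := fun θ => (hs (uv θ) (uv_ne θ)).2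
  have hfm : ∀ θ, fmn C O θ ∈ SS C O θ := fun θ =>
    (SS_compact hm hC hann θ).sInf_mem (hne θ)
  have hfmM : ∀ θ, m ≤ fmn C O θ ∧ fmn C O θ ≤ M := fun θ => SS_mem hann (hfm θ)
  have hM : 0 < M := lt_of_lt_of_le hm ((hfmM 0).1.trans (hfmM 0).2)
  obtain ⟨K, hK⟩ : ∃ K, K = 2 * M * (M + ε) / ε + 1 := ⟨_, rfl⟩
  have hK0 : 0 < K := by rw [hK]; positivity
  have hlow : ∀ θ θ' : ℝ, m ≤ fmn C O θ' + K * |θ - θ'| := fun θ θ' => by
    have := (hfmM θ').1
    have : 0 ≤ K * |θ - θ'| := by positivity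
    linarith
  have hbdd : ∀ θ : ℝ, BddBelow (range fun θ' : ℝ => fmn C O θ' + K * |θ - θ'|) := fun θ =>
    ⟨m, by rintro _ ⟨θ', rfl⟩; exact hlow θ θ'⟩
  have f1 : ∀ θ θ', fK C O K θ ≤ fmn C O θ' + K * |θ - θ'| := fun θ θ' => ciInf_le (hbdd θ) θ'
  have f2 : ∀ θ, fK C O K θ ≤ fmn C O θ := fun θ => by
    have := f1 θ θ
    simpa using this
  have f3 : ∀ θ, m ≤ fK C O K θ := fun θ => le_ciInf (hlow θ)
  have f4 : ∀ θ, 0 < fK C O K θ := fun θ => lt_of_lt_of_le hm (f3 θ)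
  have f5 : ∀ θ, fK C O K θ ≤ M := fun θ => (f2 θ).trans (hfmM θ).2
  have f6 : ∀ a b, fK C O K a ≤ fK C O K b + K * |a - b| := by
    intro a b
    have : fK C O K a - K * |a - b| ≤ fK C O K b := by
      refine le_ciInf fun θ' => ?_
      have h1 := f1 a θ'
      have h2 : |a - θ'| ≤ |a - b| + |b - θ'| := abs_sub_le a b θ'
      have h3 : K * |a - θ'| ≤ K * (|a - b| + |b - θ'|) := mul_le_mul_of_nonneg_left h2 hK0.le
      nlinarith
    linarith
  have f7 : ∀ θ, fK C O K (θ + 2 * π) = fK C O K θ := by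
    intro θ
    apply le_antisymm
    · refine le_ciInf fun θ' => ?_
      have := f1 (θ + 2 * π) (θ' + 2 * π)
      rw [fmn_per] at this
      have e : θ + 2 * π - (θ' + 2 * π) = θ - θ' := by ring
      rwa [e] at this
    · refine le_ciInf fun θ' => ?_
      have := f1 θ (θ' - 2 * π)
      have e : θ - (θ' - 2 * π) = θ + 2 * π - θ' := by ring
      rw [e] at this
      have e2 : fmn C O (θ' - 2 * π) = fmn C O θ' := by
        have := fmn_per (C := C) (O := O) (θ' - 2 * π)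
        rw [sub_add_cancel] at this
        exact this.symm
      rwa [e2] at this
  have f8 : ∀ (θ : ℝ) (n : ℤ), fK C O K (θ + n * (2 * π)) = fK C O K θ := by
    intro θ n
    have hp : Function.Periodic (fK C O K) (2 * π) := f7
    exact hp.int_mul n θ
  have f9 : Continuous (fK C O K) := by
    have : LipschitzWith (Real.toNNReal K) (fK C O K) := by
      apply LipschitzWith.of_dist_le_mul
      intro a b
      rw [Real.coe_toNNReal _ hK0.le, Real.dist_eq, Real.dist_eq, abs_le]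
      have h1 := f6 a b
      have h2 := f6 b a
      rw [abs_sub_comm b a] at h2
      constructor <;> linarith
    exact this.continuous
  refine ⟨range fun θ : ℝ => O + (fK C O K θ : ℂ) * uv θ, ?_, ?_, ?_, ?_⟩
  · refine Function.Periodic.compact_of_continuous (c := 2 * π) ?_ (by positivity) ?_
    · intro θ
      simp only
      rw [f7, uv_per]
    · exact continuous_const.add ((Complex.continuous_ofReal.comp f9).mul uv_cont)
  · rintro _ ⟨θ, rfl⟩
    simp only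
    rw [add_sub_cancel_left, norm_mul, uv_norm, mul_one, Complex.norm_real, Real.norm_eq_abs,
      abs_of_pos (f4 θ)]
    exact ⟨f3 θ, f5 θ⟩
  · intro u hu
    have hu0 : 0 < ‖u‖ := norm_pos_iff.2 hu
    have hu1 : (‖u‖ : ℂ) * uv (Complex.arg u) = u := Complex.norm_mul_exp_arg_mul_I u
    refine ⟨fK C O K (Complex.arg u) / ‖u‖, ⟨div_pos (f4 _) hu0, ⟨Complex.arg u, ?_⟩⟩, ?_⟩
    · have h0 : (‖u‖ : ℂ) ≠ 0 := by exact_mod_cast hu0.ne'
      have h1 : ((fK C O K (Complex.arg u) / ‖u‖ : ℝ) : ℂ) * u =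
          (fK C O K (Complex.arg u) : ℂ) * uv (Complex.arg u) := by
        calc ((fK C O K (Complex.arg u) / ‖u‖ : ℝ) : ℂ) * u =
            ((fK C O K (Complex.arg u) / ‖u‖ : ℝ) : ℂ) * ((‖u‖ : ℂ) * uv (Complex.arg u)) := by
              rw [hu1]
          _ = (fK C O K (Complex.arg u) : ℂ) * uv (Complex.arg u) := by
              push_cast
              field_simp
      simp only
      rw [h1]
    · rintro t ⟨ht, ⟨θ, hθ⟩⟩
      simp only at hθ
      have h1 : (fK C O K θ : ℂ) * uv θ = (t : ℂ) * u := add_left_cancel hθ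
      have h2 : fK C O K θ = t * ‖u‖ := by
        have := congrArg norm h1
        rwa [norm_mul, norm_mul, uv_norm, mul_one, Complex.norm_real, Complex.norm_real,
          Real.norm_eq_abs, Real.norm_eq_abs, abs_of_pos (f4 θ), abs_of_pos ht] at this
      have h3 : uv θ = uv (Complex.arg u) := by
        have h4 : (fK C O K θ : ℂ) ≠ 0 := by exact_mod_cast (f4 θ).ne'
        apply mul_left_cancel₀ h4
        rw [h1, h2]
        conv_lhs => rw [← hu1]
        push_cast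
        ring
      obtain ⟨n, hn⟩ := uv_inj h3
      rw [hn, f8] at h2
      rw [h2]
      field_simp
  · rintro _ ⟨θ, rfl⟩
    simp only
    -- choice of `θ'`
    obtain ⟨η, hη⟩ : ∃ η, η = ε / 2 := ⟨_, rfl⟩
    have hη0 : 0 < η := by rw [hη]; positivity
    obtain ⟨θ', h1, h2⟩ : ∃ θ', fmn C O θ' + K * |θ - θ'| ≤ fK C O K θ + η ∧
        fmn C O θ' + K * |θ - θ'| ≤ fmn C O θ := by
      rcases (f2 θ).eq_or_lt with h | h
      · refine ⟨θ, ?_, ?_⟩
        · simp only [sub_self, abs_zero, mul_zero, add_zero]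
          linarith
        · simp
      · have h3 : fK C O K θ < min (fK C O K θ + η) (fmn C O θ) := lt_min (by linarith) h
        obtain ⟨θ', h4⟩ := exists_lt_of_ciInf_lt h3
        exact ⟨θ', (h4.trans_le (min_le_left _ _)).le, (h4.trans_le (min_le_right _ _)).le⟩
    have hKa : 0 ≤ K * |θ - θ'| := by positivity
    obtain ⟨r, hr⟩ : ∃ r, r = max (fmn C O θ') (fK C O K θ) := ⟨_, rfl⟩
    have r1 : fmn C O θ' ≤ r := by rw [hr]; exact le_max_left _ _
    have r2 : fK C O K θ ≤ r := by rw [hr]; exact le_max_right _ _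
    have r3 : r ≤ fmn C O θ := by
      rw [hr]
      exact max_le (by linarith) (f2 θ)
    have r4 : r ≤ fK C O K θ + η := by
      rw [hr]
      exact max_le (by linarith) (by linarith)
    have r5 : r ≤ M := r3.trans (hfmM θ).2
    have r6 : 0 < r := lt_of_lt_of_le (f4 θ) r2
    -- the two closed sets
    have hcl : ∀ a b : ℝ, IsClosed {s : ℝ | s ∈ uIcc θ θ' ∧ ∃ t ∈ Icc a b, O + (t : ℂ) * uv s ∈ C} := by
      intro a b
      have hc : IsCompact ((uIcc θ θ' ×ˢ Icc a b) ∩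
          (fun p : ℝ × ℝ => O + (p.2 : ℂ) * uv p.1) ⁻¹' C) := by
        refine (isCompact_uIcc.prod isCompact_Icc).inter_right (hC.isClosed.preimage ?_)
        exact continuous_const.add ((Complex.continuous_ofReal.comp continuous_snd).mul
          (uv_cont.comp continuous_fst))
      have e : {s : ℝ | s ∈ uIcc θ θ' ∧ ∃ t ∈ Icc a b, O + (t : ℂ) * uv s ∈ C} =
          Prod.fst '' ((uIcc θ θ' ×ˢ Icc a b) ∩
          (fun p : ℝ × ℝ => O + (p.2 : ℂ) * uv p.1) ⁻¹' C) := by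
        ext s
        constructor
        · rintro ⟨hs, t, ht, htC⟩
          exact ⟨(s, t), ⟨⟨hs, ht⟩, htC⟩, rfl⟩
        · rintro ⟨⟨s', t⟩, ⟨⟨hs, ht⟩, htC⟩, rfl⟩
          exact ⟨hs, t, ht, htC⟩
      rw [e]
      exact (hc.image continuous_fst).isClosed
    have hpre : IsPreconnected (uIcc θ θ') := isPreconnected_uIcc
    rw [isPreconnected_closed_iff] at hpre
    obtain ⟨s, hs1, ⟨-, t1, ht1, ht1C⟩, ⟨-, t2, ht2, ht2C⟩⟩ := hpre _ _ (hcl m r) (hcl r M)
      (by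
        intro s hs1
        obtain ⟨t, ht⟩ := hne s
        have := SS_mem hann ht
        rcases le_total t r with h | h
        · exact Or.inl ⟨hs1, t, ⟨this.1, h⟩, ht.2⟩
        · exact Or.inr ⟨hs1, t, ⟨h, this.2⟩, ht.2⟩)
      ⟨θ', right_mem_uIcc, right_mem_uIcc, fmn C O θ', ⟨(hfmM θ').1, r1⟩, (hfm θ').2⟩
      ⟨θ, left_mem_uIcc, left_mem_uIcc, fmn C O θ, ⟨r3, (hfmM θ).2⟩, (hfm θ).2⟩
    have hrS : r ∈ SS C O s := by
      have hoc := (hpc s).ordConnected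
      exact hoc.out (x := t1) ⟨lt_of_lt_of_le hm ht1.1, ht1C⟩
        (y := t2) ⟨lt_of_lt_of_le r6 ht2.1, ht2C⟩ ⟨ht1.2, ht2.1⟩
    refine ⟨O + (r : ℂ) * uv s, hrS.2, ?_⟩
    have d1 : |θ - s| ≤ |θ - θ'| := by
      have := abs_sub_left_of_mem_uIcc hs1
      rw [abs_sub_comm θ s, abs_sub_comm θ θ']
      exact this
    have d2 : M * |θ - θ'| ≤ ε / 2 := by
      have h3 : K * |θ - θ'| ≤ M + ε := by
        have := (hfmM θ').1
        have := f5 θ
        rw [hη] at h1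
        linarith
      have h4 : 2 * M * (M + ε) / ε ≤ K := by rw [hK]; linarith
      have h5 : 2 * M * (M + ε) / ε * |θ - θ'| ≤ M + ε :=
        (mul_le_mul_of_nonneg_right h4 (abs_nonneg _)).trans h3
      have h6 : 0 < M + ε := by positivity
      have h7 : (M * |θ - θ'|) * (M + ε) ≤ (ε / 2) * (M + ε) := by
        have h8 := mul_le_mul_of_nonneg_left h5 (by positivity : 0 ≤ ε / 2)
        have h9 : ε / 2 * (2 * M * (M + ε) / ε * |θ - θ'|) = (M * |θ - θ'|) * (M + ε) := by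
          field_simp
        rwa [h9] at h8
      exact le_of_mul_le_mul_right h7 h6
    have d3 : O + (fK C O K θ : ℂ) * uv θ - (O + (r : ℂ) * uv s) =
        ((fK C O K θ - r : ℝ) : ℂ) * uv θ + (r : ℂ) * (uv θ - uv s) := by
      push_cast
      ring
    rw [d3]
    refine (norm_add_le _ _).trans ?_
    rw [norm_mul, norm_mul, uv_norm, mul_one, Complex.norm_real, Complex.norm_real,
      Real.norm_eq_abs, Real.norm_eq_abs, abs_of_pos r6]
    have d4 : |fK C O K θ - r| ≤ ε / 2 := by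
      rw [abs_le]
      constructor <;> linarith
    have d5 : r * ‖uv θ - uv s‖ ≤ M * |θ - θ'| :=
      mul_le_mul r5 ((uv_sub θ s).trans d1) (norm_nonneg _) hM.le
    linarith

theorem star_weak_of (m M : ℝ) (hm : 0 < m) (hmM : m ≤ M)
    (hq : ∃ δ > 0, ∀ (C : Set ℂ) (O : ℂ), IsCompact C → (∀ z ∈ C, m ≤ ‖z - O‖ ∧ ‖z - O‖ ≤ M) →
      (∀ u : ℂ, u ≠ 0 → ∃! t : ℝ, 0 < t ∧ O + (t : ℂ) * u ∈ C) →
      ∃ z w : ℂ, δ ≤ ‖w‖ ∧ z + w ∈ C ∧ z + Complex.I * w ∈ C ∧ z - w ∈ C ∧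
        z - Complex.I * w ∈ C) :
    ∃ δ > 0, ∀ (C : Set ℂ) (O : ℂ), IsCompact C → (∀ z ∈ C, m ≤ ‖z - O‖ ∧ ‖z - O‖ ≤ M) →
      (∀ u : ℂ, u ≠ 0 → {t : ℝ | 0 < t ∧ O + (t : ℂ) * u ∈ C}.Nonempty ∧
        IsPreconnected {t : ℝ | 0 < t ∧ O + (t : ℂ) * u ∈ C}) →
      ∃ z w : ℂ, δ ≤ ‖w‖ ∧ z + w ∈ C ∧ z + Complex.I * w ∈ C ∧ z - w ∈ C ∧
        z - Complex.I * w ∈ C := by
  obtain ⟨δ, hδ, H⟩ := hq
  refine ⟨δ, hδ, fun C O hC hann hs => ?_⟩
  have key : ∀ n : ℕ, ∃ D : Set ℂ, ∃ z w : ℂ, (∀ v ∈ D, ‖v - O‖ ≤ M) ∧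
      (∀ v ∈ D, ∃ z' ∈ C, ‖v - z'‖ ≤ 1 / ((n : ℝ) + 1)) ∧ δ ≤ ‖w‖ ∧ z + w ∈ D ∧
      z + Complex.I * w ∈ D ∧ z - w ∈ D ∧ z - Complex.I * w ∈ D := by
    intro n
    obtain ⟨D, d1, d2, d3, d4⟩ := weak_approx m M hm C O hC hann hs (1 / ((n : ℝ) + 1))
      (by positivity)
    obtain ⟨z, w, e⟩ := H D O d1 d2 d3
    exact ⟨D, z, w, fun v hv => (d2 v hv).2, d4, e⟩
  choose D z w k1 k2 k3 k4 k5 k6 k7 using key
  have hb : ∀ n, (z n, w n) ∈ Metric.closedBall O M ×ˢ Metric.closedBall (0 : ℂ) M := by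
    intro n
    have a1 := k1 n _ (k4 n)
    have a2 := k1 n _ (k6 n)
    constructor
    · rw [mem_closedBall_iff_norm]
      have e : z n - O = (1 / 2 : ℂ) * ((z n + w n - O) + (z n - w n - O)) := by ring
      rw [e, norm_mul]
      have := norm_add_le (z n + w n - O) (z n - w n - O)
      have h2 : ‖(1 / 2 : ℂ)‖ = 1 / 2 := by norm_num
      rw [h2]
      linarith
    · rw [mem_closedBall_zero_iff]
      have e : w n = (1 / 2 : ℂ) * ((z n + w n - O) - (z n - w n - O)) := by ring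
      rw [e, norm_mul]
      have := norm_sub_le (z n + w n - O) (z n - w n - O)
      have h2 : ‖(1 / 2 : ℂ)‖ = 1 / 2 := by norm_num
      rw [h2]
      linarith
  obtain ⟨⟨z0, w0⟩, -, φ, hφ, hlim⟩ := ((isCompact_closedBall O M).prod
    (isCompact_closedBall (0 : ℂ) M)).tendsto_subseq hb
  have lem : ∀ V : ℂ × ℂ → ℂ, Continuous V → (∀ n, V (z n, w n) ∈ D n) → V (z0, w0) ∈ C := by
    intro V hV hVD
    have h1 : ∀ n, ∃ z' ∈ C, ‖V (z n, w n) - z'‖ ≤ 1 / ((n : ℝ) + 1) := fun n => k2 n _ (hVD n)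
    choose z' hz' hz'2 using h1
    have t1 : Filter.Tendsto (fun n => V (z (φ n), w (φ n))) Filter.atTop (nhds (V (z0, w0))) :=
      (hV.tendsto _).comp hlim
    have t2 : Filter.Tendsto (fun n => V (z (φ n), w (φ n)) - z' (φ n)) Filter.atTop (nhds 0) := by
      have t3 : Filter.Tendsto (fun n : ℕ => 1 / ((φ n : ℝ) + 1)) Filter.atTop (nhds 0) :=
        (tendsto_one_div_add_atTop_nhds_zero_nat (𝕜 := ℝ)).comp hφ.tendsto_atTop
      exact squeeze_zero_norm (fun n => hz'2 (φ n)) t3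
    have t4 : Filter.Tendsto (fun n => z' (φ n)) Filter.atTop (nhds (V (z0, w0))) := by
      have := t1.sub t2
      simpa using this
    exact hC.isClosed.mem_of_tendsto t4 (Filter.Eventually.of_forall fun n => hz' (φ n))
  refine ⟨z0, w0, ?_, ?_, ?_, ?_, ?_⟩
  · have t1 : Filter.Tendsto (fun n => ‖w (φ n)‖) Filter.atTop (nhds ‖w0‖) :=
      ((continuous_norm.comp continuous_snd).tendsto (z0, w0)).comp hlim
    exact ge_of_tendsto t1 (Filter.Eventually.of_forall fun n => k3 (φ n))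
  · exact lem (fun p => p.1 + p.2) (by fun_prop) k4
  · exact lem (fun p => p.1 + Complex.I * p.2) (by fun_prop) k5
  · exact lem (fun p => p.1 - p.2) (by fun_prop) k6
  · exact lem (fun p => p.1 - Complex.I * p.2) (by fun_prop) k7

end H828SS
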