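import Pool.Agent.H828R2.SS.Defs

/-! Task Z: the final statement of the star-shaped case from the core theorem (helper690). -/

open Set Real

namespace H828SS

/-- The gauge of a compact curve meeting each open ray from `O` exactly once. -/
theorem exists_gauge (C : Set ℂ) (hC : IsCompact C) (O : ℂ) (hO : O ∉ C)
    (hs : ∀ u : ℂ, u ≠ 0 → ∃! t : ℝ, 0 < t ∧ O + (t : ℂ) * u ∈ C) :
    ∃ g : ℂ → ℝ, Gauge g ∧ ∀ z, g z = 1 → O + z ∈ C := by
  classical
  have hne : ∀ z ∈ C, z - O ≠ 0 := fun z hz h => hO (by rwa [← sub_eq_zero.mp h])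
  -- the radial projection
  let f : C → Metric.sphere (0 : ℂ) 1 := fun z =>
    ⟨((‖(z : ℂ) - O‖⁻¹ : ℝ) : ℂ) * ((z : ℂ) - O), by
      have h0 : ‖(z : ℂ) - O‖ ≠ 0 := norm_ne_zero_iff.mpr (hne z z.2)
      simp only [mem_sphere_iff_norm, sub_zero, norm_mul, Complex.norm_real, norm_inv, norm_norm]
      exact inv_mul_cancel₀ h0⟩
  have hfc : Continuous f := by
    refine Continuous.subtype_mk ?_ _
    have h1 : Continuous fun z : C => ‖(z : ℂ) - O‖ := by fun_prop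
    have h2 : Continuous fun z : C => (‖(z : ℂ) - O‖)⁻¹ :=
      h1.inv₀ (fun z => norm_ne_zero_iff.mpr (hne z z.2))
    exact (Complex.continuous_ofReal.comp h2).mul (by fun_prop)
  have hfb : Function.Bijective f := by
    constructor
    · intro a b hab
      have h1 : ((‖(a : ℂ) - O‖⁻¹ : ℝ) : ℂ) * ((a : ℂ) - O) =
          ((‖(b : ℂ) - O‖⁻¹ : ℝ) : ℂ) * ((b : ℂ) - O) := congrArg Subtype.val hab
      have ha := hne a a.2
      have hb := hne b b.2
      have ha' : 0 < ‖(a : ℂ) - O‖ := norm_pos_iff.mpr ha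
      have hb' : 0 < ‖(b : ℂ) - O‖ := norm_pos_iff.mpr hb
      obtain ⟨t, -, ht⟩ := hs _ ha
      have e1 : (1 : ℝ) = t := ht 1 ⟨one_pos, by simp⟩
      have e2 : ‖(b : ℂ) - O‖ * ‖(a : ℂ) - O‖⁻¹ = t := by
        refine ht _ ⟨by positivity, ?_⟩
        have : ((‖(b : ℂ) - O‖ * ‖(a : ℂ) - O‖⁻¹ : ℝ) : ℂ) * ((a : ℂ) - O) = (b : ℂ) - O := by
          rw [Complex.ofReal_mul, mul_assoc, h1, ← mul_assoc, ← Complex.ofReal_mul,
            mul_inv_cancel₀ hb'.ne']
          simp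
        rw [this]
        simp
      have e3 : ‖(b : ℂ) - O‖ = ‖(a : ℂ) - O‖ := by
        have := e2.trans e1.symm
        field_simp at this
        exact this
      rw [e3] at h1
      have h4 : ((‖(a : ℂ) - O‖⁻¹ : ℝ) : ℂ) ≠ 0 := by
        simpa using ha
      have h5 := mul_left_cancel₀ h4 h1
      exact Subtype.ext (by simpa using h5)
    · rintro ⟨u, hu⟩
      have hu1 : ‖u‖ = 1 := by simpa using hu
      have hu0 : u ≠ 0 := by
        rintro rfl
        simp at hu1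
      obtain ⟨t, ⟨ht0, htC⟩, -⟩ := hs u hu0
      refine ⟨⟨O + (t : ℂ) * u, htC⟩, Subtype.ext ?_⟩
      show ((‖(O + (t : ℂ) * u) - O‖⁻¹ : ℝ) : ℂ) * ((O + (t : ℂ) * u) - O) = u
      have h1 : O + (t : ℂ) * u - O = (t : ℂ) * u := by ring
      rw [h1, norm_mul, hu1, Complex.norm_real, Real.norm_eq_abs, abs_of_pos ht0, mul_one]
      rw [← mul_assoc, ← Complex.ofReal_mul, inv_mul_cancel₀ ht0.ne']
      simp
  have : CompactSpace C := isCompact_iff_compactSpace.mp hC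
  let e : C ≃ₜ Metric.sphere (0 : ℂ) 1 :=
    Continuous.homeoOfEquivCompactToT2 (f := Equiv.ofBijective f hfb) hfc
  have he : ∀ z : C, e z = f z := fun z => rfl
  -- normalised direction
  let nd : {u : ℂ // u ≠ 0} → Metric.sphere (0 : ℂ) 1 := fun u =>
    ⟨((‖(u : ℂ)‖⁻¹ : ℝ) : ℂ) * (u : ℂ), by
      have h0 : ‖(u : ℂ)‖ ≠ 0 := norm_ne_zero_iff.mpr u.2
      simp only [mem_sphere_iff_norm, sub_zero, norm_mul, Complex.norm_real, norm_inv, norm_norm]
      exact inv_mul_cancel₀ h0⟩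
  have hnd : Continuous nd := by
    refine Continuous.subtype_mk ?_ _
    have h1 : Continuous fun z : {u : ℂ // u ≠ 0} => ‖(z : ℂ)‖ := by fun_prop
    have h2 : Continuous fun z : {u : ℂ // u ≠ 0} => (‖(z : ℂ)‖)⁻¹ :=
      h1.inv₀ (fun z => norm_ne_zero_iff.mpr z.2)
    exact (Complex.continuous_ofReal.comp h2).mul (by fun_prop)
  let G : {u : ℂ // u ≠ 0} → ℝ := fun u => ‖(u : ℂ)‖ / ‖((e.symm (nd u) : C) : ℂ) - O‖
  have hGc : Continuous G := by
    refine Continuous.div (by fun_prop) ?_ (fun u => norm_ne_zero_iff.mpr (hne _ (Subtype.coe_prop _)))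
    have : Continuous fun u => ((e.symm (nd u) : C) : ℂ) :=
      continuous_subtype_val.comp (e.symm.continuous.comp hnd)
    fun_prop
  let g : ℂ → ℝ := fun u => if h : u ≠ 0 then G ⟨u, h⟩ else 0
  have hg0 : g 0 = 0 := by simp [g]
  have hg1 : ∀ (u : ℂ) (h : u ≠ 0), g u = G ⟨u, h⟩ := fun u h => by simp [g, h]
  -- lower bound of the distance
  obtain ⟨δ, hδ, hδC⟩ : ∃ δ > 0, ∀ z ∈ C, δ ≤ ‖z - O‖ := by
    have hcl : IsOpen Cᶜ := hC.isClosed.isOpen_compl
    obtain ⟨δ, hδ, hb⟩ := Metric.isOpen_iff.mp hcl O hO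
    refine ⟨δ, hδ, fun z hz => ?_⟩
    by_contra hlt
    push Not at hlt
    exact hb (by rwa [mem_ball_iff_norm]) hz
  have hpos : ∀ z, z ≠ 0 → 0 < g z := by
    intro z hz
    rw [hg1 z hz]
    exact div_pos (norm_pos_iff.mpr hz) (norm_pos_iff.mpr (hne _ (Subtype.coe_prop _)))
  have hbd : ∀ z, ‖g z‖ ≤ ‖z‖ / δ := by
    intro z
    by_cases hz : z = 0
    · subst hz
      simp [hg0]
    · rw [Real.norm_eq_abs, abs_of_pos (hpos z hz), hg1 z hz]
      exact div_le_div_of_nonneg_left (norm_nonneg _) hδ (hδC _ (Subtype.coe_prop _))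
  have hcont : Continuous g := by
    rw [continuous_iff_continuousAt]
    intro z
    by_cases hz : z = 0
    · subst hz
      unfold ContinuousAt
      rw [hg0]
      refine squeeze_zero_norm hbd ?_
      have : Filter.Tendsto (fun z : ℂ => ‖z‖ / δ) (nhds 0) (nhds (‖(0 : ℂ)‖ / δ)) :=
        (Continuous.tendsto (by fun_prop) 0)
      simpa using this
    · have hopen : IsOpen {u : ℂ | u ≠ 0} := isOpen_ne
      have : ContinuousOn g {u : ℂ | u ≠ 0} := by
        rw [continuousOn_iff_continuous_domRestrict]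
        have : ({u : ℂ | u ≠ 0}).domRestrict g = G := by
          funext u
          exact hg1 u u.2
        rw [this]
        exact hGc
      exact this.continuousAt (hopen.mem_nhds hz)
  have hhom : ∀ (t : ℝ) (z : ℂ), 0 ≤ t → g ((t : ℂ) * z) = t * g z := by
    intro t z ht
    rcases ht.eq_or_lt with rfl | ht
    · simp [hg0]
    by_cases hz : z = 0
    · subst hz
      simp [hg0]
    have htz : (t : ℂ) * z ≠ 0 := mul_ne_zero (by exact_mod_cast ht.ne') hz
    rw [hg1 z hz, hg1 _ htz]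
    have hn : nd ⟨(t : ℂ) * z, htz⟩ = nd ⟨z, hz⟩ := by
      refine Subtype.ext ?_
      show ((‖(t : ℂ) * z‖⁻¹ : ℝ) : ℂ) * ((t : ℂ) * z) = ((‖z‖⁻¹ : ℝ) : ℂ) * z
      rw [norm_mul, Complex.norm_real, Real.norm_eq_abs, abs_of_pos ht, ← mul_assoc,
        ← Complex.ofReal_mul]
      congr 2
      have : ‖z‖ ≠ 0 := norm_ne_zero_iff.mpr hz
      field_simp
    show ‖(t : ℂ) * z‖ / ‖((e.symm (nd ⟨(t : ℂ) * z, htz⟩) : C) : ℂ) - O‖ =
      t * (‖z‖ / ‖((e.symm (nd ⟨z, hz⟩) : C) : ℂ) - O‖)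
    rw [hn, norm_mul, Complex.norm_real, Real.norm_eq_abs, abs_of_pos ht, mul_div_assoc]
  refine ⟨g, ⟨hcont, hpos, hhom⟩, ?_⟩
  intro z hz1
  have hz : z ≠ 0 := by
    rintro rfl
    rw [hg0] at hz1
    exact zero_ne_one hz1
  rw [hg1 z hz] at hz1
  -- the point of the curve in direction `z`
  set c : C := e.symm (nd ⟨z, hz⟩) with hc
  have hfc' : f c = nd ⟨z, hz⟩ := by
    rw [← he, hc, Homeomorph.apply_symm_apply]
  have h1 : ((‖(c : ℂ) - O‖⁻¹ : ℝ) : ℂ) * ((c : ℂ) - O) = ((‖z‖⁻¹ : ℝ) : ℂ) * z :=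
    congrArg Subtype.val hfc'
  have hcn : ‖(c : ℂ) - O‖ ≠ 0 := norm_ne_zero_iff.mpr (hne _ c.2)
  have h2 : ‖z‖ = ‖(c : ℂ) - O‖ := by
    have : ‖z‖ / ‖(c : ℂ) - O‖ = 1 := hz1
    rwa [div_eq_one_iff_eq hcn] at this
  rw [h2] at h1
  have h4 : ((‖(c : ℂ) - O‖⁻¹ : ℝ) : ℂ) ≠ 0 := by
    simpa using hne _ c.2
  have h5 := mul_left_cancel₀ h4 h1
  rw [← h5]
  simp

theorem star_of_core (core : ∀ g : ℂ → ℝ, Gauge g → ¬ NoSq g)
    (C : Set ℂ) (hC : IsCompact C) (O : ℂ) (hO : O ∉ C)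
    (hs : ∀ u : ℂ, u ≠ 0 → ∃! t : ℝ, 0 < t ∧ O + (t : ℂ) * u ∈ C) :
    ∃ z w : ℂ, w ≠ 0 ∧ z + w ∈ C ∧ z + Complex.I * w ∈ C ∧ z - w ∈ C ∧
      z - Complex.I * w ∈ C := by
  obtain ⟨g, hg, hgC⟩ := exists_gauge C hC O hO hs
  have h := core g hg
  unfold NoSq at h
  push Not at h
  obtain ⟨x, y, φ, -, hall⟩ := h
  have hg0 : g 0 = 0 := by
    have := hg.hom 0 0 le_rfl
    simpa using this
  set s := lam g 0 x y φ with hsdef
  have hE : Complex.exp ((φ : ℂ) * Complex.I) ≠ 0 := Complex.exp_ne_zero _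
  have hs0 : s ≠ 0 := by
    intro h0
    have hv0 : vtx 0 x y φ = 0 := by
      by_contra hv
      exact (hg.pos _ hv).ne' h0
    have hv1 : vtx 1 x y φ = 0 := by
      by_contra hv
      exact (hg.pos _ hv).ne' ((hall 1 0).trans h0)
    have e0 := (mul_eq_zero.mp hv0).resolve_left hE
    have e1 := (mul_eq_zero.mp hv1).resolve_left hE
    have r0 := congrArg Complex.re e0
    have r1 := congrArg Complex.re e1
    simp [ca] at r0 r1
    linarith
  have hspos : 0 < s := by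
    have : 0 ≤ s := by
      by_cases hv : vtx 0 x y φ = 0
      · rw [hsdef, lam, hv, hg0]
      · exact (hg.pos _ hv).le
    exact lt_of_le_of_ne this hs0.symm
  have key : ∀ k, O + ((s⁻¹ : ℝ) : ℂ) * vtx k x y φ ∈ C := by
    intro k
    apply hgC
    rw [hg.hom _ _ (inv_nonneg.mpr hspos.le)]
    have : g (vtx k x y φ) = s := hall k 0
    rw [this, inv_mul_cancel₀ hs0]
  refine ⟨O + ((s⁻¹ : ℝ) : ℂ) * (Complex.exp ((φ : ℂ) * Complex.I) *
    ((x : ℂ) + (y : ℂ) * Complex.I)), ((s⁻¹ : ℝ) : ℂ) * (Complex.exp ((φ : ℂ) * Complex.I) *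
    (1 + Complex.I)), ?_, ?_, ?_, ?_, ?_⟩
  · refine mul_ne_zero ?_ (mul_ne_zero hE ?_)
    · exact_mod_cast inv_ne_zero hs0
    · intro h
      have := congrArg Complex.re h
      simp at this
  · convert key 0 using 1
    simp only [vtx, ca, cb]
    push_cast
    ring
  · convert key 1 using 1
    simp only [vtx, ca, cb]
    push_cast
    linear_combination ((s : ℂ)⁻¹ * Complex.exp ((φ : ℂ) * Complex.I)) * Complex.I_sq
  · convert key 2 using 1
    simp only [vtx, ca, cb]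
    push_cast
    ring
  · convert key 3 using 1
    simp only [vtx, ca, cb]
    push_cast
    linear_combination (-(s : ℂ)⁻¹ * Complex.exp ((φ : ℂ) * Complex.I)) * Complex.I_sq

end H828SS
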