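import Pool.Agent.H828R2.SS.QDefs
import Pool.Agent.H828R2.SS.Star

/-! Task K2 (helper889): quantitative strictly star-shaped theorem from the core. -/

open Set Real

set_option linter.unusedVariables false

namespace H828SS

theorem gauge_bounds {g : ℂ → ℝ} (hg : Gauge g) {C : Set ℂ} {O : ℂ} {m M : ℝ}
    (hann : ∀ z ∈ C, m ≤ ‖z - O‖ ∧ ‖z - O‖ ≤ M) (hgC : ∀ z, g z = 1 → O + z ∈ C) {z : ℂ}
    (hz : z ≠ 0) : m * g z ≤ ‖z‖ ∧ ‖z‖ ≤ M * g z := by
  have h0 := hg.pos z hz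
  have h1 : g ((((g z)⁻¹ : ℝ) : ℂ) * z) = 1 := by
    rw [hg.hom _ _ (inv_nonneg.2 h0.le), inv_mul_cancel₀ h0.ne']
  have h2 := hann _ (hgC _ h1)
  rw [add_sub_cancel_left, norm_mul, Complex.norm_real, norm_inv, Real.norm_eq_abs,
    abs_of_pos h0] at h2
  constructor
  · have := mul_le_mul_of_nonneg_right h2.1 h0.le
    rwa [mul_comm (g z)⁻¹, mul_assoc, inv_mul_cancel₀ h0.ne', mul_one] at this
  · have := mul_le_mul_of_nonneg_right h2.2 h0.le
    rwa [mul_comm (g z)⁻¹, mul_assoc, inv_mul_cancel₀ h0.ne', mul_one] at this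

theorem star_quant_of (core : ∀ a b : ℝ, 0 < a → 0 < b → ∃ L : ℝ, 1 ≤ L ∧ ∀ g : ℂ → ℝ,
      Gauge g → (∀ θ, a ≤ hh g θ) → (∀ θ, hh g θ ≤ b) → ¬ NoSqL g L)
    (m M : ℝ) (hm : 0 < m) (hmM : m ≤ M) :
    ∃ δ > 0, ∀ (C : Set ℂ) (O : ℂ), IsCompact C → (∀ z ∈ C, m ≤ ‖z - O‖ ∧ ‖z - O‖ ≤ M) →
      (∀ u : ℂ, u ≠ 0 → ∃! t : ℝ, 0 < t ∧ O + (t : ℂ) * u ∈ C) →
      ∃ z w : ℂ, δ ≤ ‖w‖ ∧ z + w ∈ C ∧ z + Complex.I * w ∈ C ∧ z - w ∈ C ∧
        z - Complex.I * w ∈ C := by
  have hM : 0 < M := lt_of_lt_of_le hm hmM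
  obtain ⟨L, hL, H⟩ := core (m ^ 2 / 2) (M ^ 2 / 2) (by positivity) (by positivity)
  refine ⟨m / (2 * (L + 1)), by positivity, fun C O hC hann hs => ?_⟩
  have hO : O ∉ C := by
    intro h
    have := (hann O h).1
    rw [sub_self, norm_zero] at this
    linarith
  obtain ⟨g, hg, hgC⟩ := exists_gauge C hC O hO hs
  have hb := fun z hz => gauge_bounds hg hann hgC (z := z) hz
  have hdir : ∀ θ : ℝ, Complex.I * Complex.exp ((θ : ℂ) * Complex.I) ≠ 0 := fun θ =>
    mul_ne_zero Complex.I_ne_zero (Complex.exp_ne_zero _)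
  have hdn : ∀ θ : ℝ, ‖Complex.I * Complex.exp ((θ : ℂ) * Complex.I)‖ = 1 := fun θ => by
    rw [norm_mul, Complex.norm_I, Complex.norm_exp_ofReal_mul_I, one_mul]
  have hlo : ∀ θ, m ^ 2 / 2 ≤ hh g θ := by
    intro θ
    have h1 := (hb _ (hdir θ)).1
    have h0 := hg.pos _ (hdir θ)
    rw [hdn] at h1
    unfold hh
    rw [div_le_div_iff₀ (by norm_num) (by positivity)]
    have h2 : (m * g (Complex.I * Complex.exp ((θ : ℂ) * Complex.I))) ^ 2 ≤ 1 := by
      apply pow_le_one₀ (by positivity) h1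
    nlinarith
  have hhi : ∀ θ, hh g θ ≤ M ^ 2 / 2 := by
    intro θ
    have h1 := (hb _ (hdir θ)).2
    have h0 := hg.pos _ (hdir θ)
    rw [hdn] at h1
    unfold hh
    rw [div_le_div_iff₀ (by positivity) (by norm_num)]
    have h2 : 1 ≤ (M * g (Complex.I * Complex.exp ((θ : ℂ) * Complex.I))) ^ 2 :=
      one_le_pow₀ h1
    nlinarith
  have h := H g hg hlo hhi
  unfold NoSqL at h
  push Not at h
  obtain ⟨x, y, φ, -, hx, hy, hall⟩ := h
  have hg0 : g 0 = 0 := by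
    have := hg.hom 0 0 le_rfl
    simpa using this
  set s := lam g 0 x y φ with hsdef
  have hE : Complex.exp ((φ : ℂ) * Complex.I) ≠ 0 := Complex.exp_ne_zero _
  have hs0 : s ≠ 0 := by
    intro h0
    have hv0 : vtx 0 x y φ = 0 := by
      by_contra hv
      exact (hg.pos _ hv).ne' h0
    have hv1 : vtx 1 x y φ = 0 := by
      by_contra hv
      exact (hg.pos _ hv).ne' ((hall 1 0).trans h0)
    have e0 := (mul_eq_zero.mp hv0).resolve_left hE
    have e1 := (mul_eq_zero.mp hv1).resolve_left hE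
    have r0 := congrArg Complex.re e0
    have r1 := congrArg Complex.re e1
    simp [ca] at r0 r1
    linarith
  have hspos : 0 < s := by
    have : 0 ≤ s := by
      by_cases hv : vtx 0 x y φ = 0
      · rw [hsdef, lam, hv, hg0]
      · exact (hg.pos _ hv).le
    exact lt_of_le_of_ne this hs0.symm
  have hv0 : vtx 0 x y φ ≠ 0 := by
    intro hv
    rw [hsdef, lam, hv, hg0] at hspos
    exact lt_irrefl _ hspos
  have hsle : m * s ≤ 2 * (L + 1) := by
    refine (hb _ hv0).1.trans ?_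
    unfold vtx
    rw [norm_mul, Complex.norm_exp_ofReal_mul_I, one_mul]
    refine (norm_add_le _ _).trans ?_
    rw [norm_mul, Complex.norm_I, mul_one, Complex.norm_real, Complex.norm_real,
      Real.norm_eq_abs, Real.norm_eq_abs]
    have a1 : |x + ca 0| ≤ L + 1 := by
      simp only [ca, Matrix.cons_val_zero]
      rw [abs_le] at hx ⊢
      constructor <;> linarith [hx.1, hx.2]
    have a2 : |y + cb 0| ≤ L + 1 := by
      simp only [cb, Matrix.cons_val_zero]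
      rw [abs_le] at hy ⊢
      constructor <;> linarith [hy.1, hy.2]
    linarith
  have key : ∀ k, O + ((s⁻¹ : ℝ) : ℂ) * vtx k x y φ ∈ C := by
    intro k
    apply hgC
    rw [hg.hom _ _ (inv_nonneg.mpr hspos.le)]
    have : g (vtx k x y φ) = s := hall k 0
    rw [this, inv_mul_cancel₀ hs0]
  refine ⟨O + ((s⁻¹ : ℝ) : ℂ) * (Complex.exp ((φ : ℂ) * Complex.I) *
    ((x : ℂ) + (y : ℂ) * Complex.I)), ((s⁻¹ : ℝ) : ℂ) * (Complex.exp ((φ : ℂ) * Complex.I) *
    (1 + Complex.I)), ?_, ?_, ?_, ?_, ?_⟩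
  · rw [norm_mul, norm_mul, Complex.norm_exp_ofReal_mul_I, one_mul, Complex.norm_real, norm_inv,
      Real.norm_eq_abs, abs_of_pos hspos]
    have h1 : 1 ≤ ‖(1 + Complex.I : ℂ)‖ := by
      have := Complex.abs_re_le_norm (1 + Complex.I)
      simpa using this
    have h2 : m / (2 * (L + 1)) ≤ s⁻¹ := by
      rw [div_le_iff₀ (by positivity), inv_mul_eq_div, le_div_iff₀ hspos]
      exact hsle
    calc m / (2 * (L + 1)) ≤ s⁻¹ := h2
      _ = s⁻¹ * 1 := (mul_one _).symm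
      _ ≤ s⁻¹ * ‖(1 + Complex.I : ℂ)‖ := mul_le_mul_of_nonneg_left h1 (inv_nonneg.2 hspos.le)
  · convert key 0 using 1
    simp only [vtx, ca, cb]
    push_cast
    ring
  · convert key 1 using 1
    simp only [vtx, ca, cb]
    push_cast
    linear_combination ((s : ℂ)⁻¹ * Complex.exp ((φ : ℂ) * Complex.I)) * Complex.I_sq
  · convert key 2 using 1
    simp only [vtx, ca, cb]
    push_cast
    ring
  · convert key 3 using 1
    simp only [vtx, ca, cb]
    push_cast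
    linear_combination (-(s : ℂ)⁻¹ * Complex.exp ((φ : ℂ) * Complex.I)) * Complex.I_sq

end H828SS
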