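import Pool.Agent.H828R2.SS.QDefs

/-! Statements of the tasks of part 2 (quantitative version).  Same rules as for Stubs. -/

open Set Real

namespace H828SS

variable {g : ℂ → ℝ}

/-! ### Task K1 : QBound.lean -/

theorem wid_cont : Continuous fun p : ℝ × ℝ => wid p.1 p.2 := by
  sorry

theorem wid_pos {x : ℝ} (hx : x ∈ Icc (-1 : ℝ) 1) (η : ℝ) : 0 < wid x η := by
  sorry

theorem wid_le {x : ℝ} (hx : x ∈ Icc (-1 : ℝ) 1) {η : ℝ} (hη : 2 ≤ η) :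
    wid x η ≤ 4 / (η - 1) := by
  sorry

theorem GG_ge (hg : Gauge g) {a : ℝ} (ha : ∀ θ, a ≤ hh g θ) (φ : ℝ) {x : ℝ}
    (hx : x ∈ Icc (-1 : ℝ) 1) (η : ℝ) : a * wid x η ≤ GG g φ x η := by
  sorry

theorem GG_le (hg : Gauge g) {b : ℝ} (hb : ∀ θ, hh g θ ≤ b) (φ : ℝ) {x : ℝ}
    (hx : x ∈ Icc (-1 : ℝ) 1) (η : ℝ) : GG g φ x η ≤ b * wid x η := by
  sorry

/-- constants depending only on `a ≤ b`: radii `R`, `R1` and levels `c0`, `c1`. -/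
theorem consts (a b : ℝ) (ha : 0 < a) (hb : 0 < b) :
    ∃ R R1 c0 c1 : ℝ, 5 ≤ R ∧ R + 2 ≤ R1 ∧
      (∀ x ∈ Icc (-1 : ℝ) 1, ∀ η ∈ Icc (3 : ℝ) 4, c0 ≤ a * wid x η) ∧
      (∀ x ∈ Icc (-1 : ℝ) 1, b * wid x R < c0) ∧
      (∀ x ∈ Icc (-1 : ℝ) 1, ∀ η ∈ Icc (3 : ℝ) R, c1 ≤ a * wid x η) ∧
      (∀ x ∈ Icc (-1 : ℝ) 1, ∀ η ≥ R1 - 1, b * wid x η < c1) := by
  sorry

/-! ### Task K2 : QStar.lean, the quantitative strictly star-shaped theorem from the core.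
Take the first theorem as a hypothesis `core`. -/

theorem core_quant (a b : ℝ) (ha : 0 < a) (hb : 0 < b) :
    ∃ L : ℝ, 1 ≤ L ∧ ∀ g : ℂ → ℝ, Gauge g → (∀ θ, a ≤ hh g θ) → (∀ θ, hh g θ ≤ b) →
      ¬ NoSqL g L := by
  sorry

theorem star_quant (m M : ℝ) (hm : 0 < m) (hmM : m ≤ M) :
    ∃ δ > 0, ∀ (C : Set ℂ) (O : ℂ), IsCompact C → (∀ z ∈ C, m ≤ ‖z - O‖ ∧ ‖z - O‖ ≤ M) →
      (∀ u : ℂ, u ≠ 0 → ∃! t : ℝ, 0 < t ∧ O + (t : ℂ) * u ∈ C) →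
      ∃ z w : ℂ, δ ≤ ‖w‖ ∧ z + w ∈ C ∧ z + Complex.I * w ∈ C ∧ z - w ∈ C ∧
        z - Complex.I * w ∈ C := by
  sorry

/-! ### Task K3 : QLimit.lean, from the strict to the weak star-shaped case.
Take `star_quant m M hm hmM` (for the given `m`, `M`) as a hypothesis. -/

/-- approximation from below by a continuous star-shaped curve. -/
theorem weak_approx (m M : ℝ) (hm : 0 < m) (C : Set ℂ) (O : ℂ) (hC : IsCompact C)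
    (hann : ∀ z ∈ C, m ≤ ‖z - O‖ ∧ ‖z - O‖ ≤ M)
    (hs : ∀ u : ℂ, u ≠ 0 → {t : ℝ | 0 < t ∧ O + (t : ℂ) * u ∈ C}.Nonempty ∧
      IsPreconnected {t : ℝ | 0 < t ∧ O + (t : ℂ) * u ∈ C}) (ε : ℝ) (hε : 0 < ε) :
    ∃ D : Set ℂ, IsCompact D ∧ (∀ z ∈ D, m ≤ ‖z - O‖ ∧ ‖z - O‖ ≤ M) ∧
      (∀ u : ℂ, u ≠ 0 → ∃! t : ℝ, 0 < t ∧ O + (t : ℂ) * u ∈ D) ∧
      ∀ z ∈ D, ∃ z' ∈ C, ‖z - z'‖ ≤ ε := by
  sorry

theorem star_weak (m M : ℝ) (hm : 0 < m) (hmM : m ≤ M) :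
    ∃ δ > 0, ∀ (C : Set ℂ) (O : ℂ), IsCompact C → (∀ z ∈ C, m ≤ ‖z - O‖ ∧ ‖z - O‖ ≤ M) →
      (∀ u : ℂ, u ≠ 0 → {t : ℝ | 0 < t ∧ O + (t : ℂ) * u ∈ C}.Nonempty ∧
        IsPreconnected {t : ℝ | 0 < t ∧ O + (t : ℂ) * u ∈ C}) →
      ∃ z w : ℂ, δ ≤ ‖w‖ ∧ z + w ∈ C ∧ z + Complex.I * w ∈ C ∧ z - w ∈ C ∧
        z - Complex.I * w ∈ C := by
  sorry

end H828SS
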