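import Pool.Agent.H828R2.SS.Defs

/-! Statements of the tasks.  Each task file proves the theorem with the same name, in its own
file, importing only `Pool.Agent.H828R2.SS.Defs` (and finished task files). -/

open Set Real

namespace H828SS

/-! ### Task P : discrete parity lemma -/

theorem parity (n m T : ℕ) (hn : 0 < n) (hm : 0 < m) (hT : 0 < T) (ℓ : ℕ → ℕ → ℕ → Fin 4)
    (hper : ∀ i j l, ℓ i (j + 4 * n) l = ℓ i j l)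
    (heq : ∀ i j, i ≤ m → ℓ i j T = ℓ i (j + n) 0 - 1)
    (h0 : ∀ j l, ℓ 0 j l = ℓ 0 0 l)
    (b2 : ∀ j l, j ≤ n → l ≤ T → ℓ m j l ≠ 2)
    (b3 : ∀ j l, n ≤ j → j ≤ 2 * n → l ≤ T → ℓ m j l ≠ 3)
    (b0 : ∀ j l, 2 * n ≤ j → j ≤ 3 * n → l ≤ T → ℓ m j l ≠ 0)
    (b1 : ∀ j l, 3 * n ≤ j → j ≤ 4 * n → l ≤ T → ℓ m j l ≠ 1) :
    ∃ i < m, ∃ j < 4 * n, ∃ l < T, ∀ k : Fin 4,
      ∃ di ≤ 1, ∃ dj ≤ 1, ∃ dl ≤ 1, ℓ (i + di) (j + dj) (l + dl) = k := by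
  sorry

/-! ### Task T : topological lemma (from parity) -/

theorem topo4 (Ψ : ℝ → ℝ → ℝ → (Fin 4 → ℝ))
    (hc : Continuous fun p : ℝ × ℝ × ℝ => Ψ p.1 p.2.1 p.2.2)
    (hper : ∀ r a t, Ψ r (a + 4) t = Ψ r a t)
    (heq : ∀ r a t k, Ψ r (a - 1) (t + 1) k = Ψ r a t (k + 1))
    (h0 : ∀ a t, Ψ 0 a t = Ψ 0 0 t)
    (hb : ∀ a ∈ Icc (0 : ℝ) 1, ∀ t, ∃ j, Ψ 1 a t 2 < Ψ 1 a t j) :
    ∃ r ∈ Icc (0 : ℝ) 1, ∃ a t, ∀ j k, Ψ r a t j = Ψ r a t k := by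
  sorry

/-! ### Task L : elementary facts on `lam` and `mm` -/

variable {g : ℂ → ℝ}

theorem lam_cont (hg : Gauge g) (k : Fin 4) :
    Continuous fun p : ℝ × ℝ × ℝ => lam g k p.1 p.2.1 p.2.2 := by
  sorry

theorem lam_rot (g : ℂ → ℝ) (k : Fin 4) (x y φ : ℝ) :
    lam g k y (-x) (φ + π / 2) = lam g (k + 1) x y φ := by
  sorry

theorem lam_per (g : ℂ → ℝ) (k : Fin 4) (x y φ : ℝ) :
    lam g k x y (φ + 2 * π) = lam g k x y φ := by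
  sorry

theorem lam_pos (hg : Gauge g) (k : Fin 4) {x y : ℝ} (hy : 1 < y) (φ : ℝ) :
    0 < lam g k x y φ := by
  sorry

theorem lam_face_left (hg : Gauge g) {y : ℝ} (hy : 1 ≤ y) (φ : ℝ) :
    lam g 3 (-1) y φ < lam g 0 (-1) y φ := by
  sorry

theorem lam_face_right (hg : Gauge g) {y : ℝ} (hy : 1 ≤ y) (φ : ℝ) :
    lam g 2 1 y φ < lam g 1 1 y φ := by
  sorry

theorem hh_cont (hg : Gauge g) : Continuous (hh g) := by
  sorry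

theorem hh_pos (hg : Gauge g) (θ : ℝ) : 0 < hh g θ := by
  sorry

theorem hh_per (g : ℂ → ℝ) (θ : ℝ) : hh g (θ + 2 * π) = hh g θ := by
  sorry

theorem ww_pos (k : Fin 4) (x η : ℝ) : 0 < ww k x η := by
  sorry

theorem lam_mm (hg : Gauge g) (k : Fin 4) (x : ℝ) {y : ℝ} (hy : 2 ≤ y) (φ : ℝ) :
    mm g k φ x y = 1 / (2 * lam g k x y φ ^ 2) := by
  sorry

/-! ### Task A : assembly of the topological argument -/

theorem assemble (hg : Gauge g) (hns : NoSq g) {R : ℝ} (hR : 1 < R)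
    (h : Htp Good (fun x φ k => lam g k x R φ) (fun _ _ => ![1, 1, 0, 0])) : False := by
  sorry

/-! ### Task G : the potential -/

theorem GG_cont (hg : Gauge g) : Continuous fun p : ℝ × ℝ × ℝ => GG g p.1 p.2.1 p.2.2 := by
  sorry

theorem Gp_cont (hg : Gauge g) : Continuous fun p : ℝ × ℝ × ℝ => Gp g p.1 p.2.1 p.2.2 := by
  sorry

theorem Gx_cont (hg : Gauge g) : Continuous fun p : ℝ × ℝ × ℝ => Gx g p.1 p.2.1 p.2.2 := by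
  sorry

theorem Ge_cont (hg : Gauge g) : Continuous fun p : ℝ × ℝ × ℝ => Ge g p.1 p.2.1 p.2.2 := by
  sorry

theorem GG_per (hg : Gauge g) (φ x η : ℝ) : GG g (φ + 2 * π) x η = GG g φ x η := by
  sorry

theorem Gp_per (hg : Gauge g) (φ x η : ℝ) : Gp g (φ + 2 * π) x η = Gp g φ x η := by
  sorry

theorem Gx_per (hg : Gauge g) (φ x η : ℝ) : Gx g (φ + 2 * π) x η = Gx g φ x η := by
  sorry

theorem Ge_per (hg : Gauge g) (φ x η : ℝ) : Ge g (φ + 2 * π) x η = Ge g φ x η := by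
  sorry

theorem GG_pos (hg : Gauge g) (φ : ℝ) {x : ℝ} (hx : x ∈ Icc (-1 : ℝ) 1) (η : ℝ) :
    0 < GG g φ x η := by
  sorry

theorem GG_dec (hg : Gauge g) (c : ℝ) (hc : 0 < c) :
    ∃ R, ∀ η ≥ R, ∀ x ∈ Icc (-1 : ℝ) 1, ∀ φ, GG g φ x η < c := by
  sorry

theorem GG_der (hg : Gauge g) (φ x η u v w t : ℝ) (h : 2 < η + t * w) :
    HasDerivAt (fun s => GG g (φ + s * u) (x + s * v) (η + s * w))
      (Gp g (φ + t * u) (x + t * v) (η + t * w) * u +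
        Gx g (φ + t * u) (x + t * v) (η + t * w) * v +
        Ge g (φ + t * u) (x + t * v) (η + t * w) * w) t := by
  sorry

theorem G_nz (hg : Gauge g) (hns : NoSq g) (φ : ℝ) {x : ℝ} (hx : x ∈ Icc (-1 : ℝ) 1) {η : ℝ}
    (hη : 2 ≤ η) : ¬(Gp g φ x η = 0 ∧ (1 - x ^ 2) * Gx g φ x η = 0 ∧ Ge g φ x η = 0) := by
  sorry

/-! ### Task F : abstract descent (Euler steps) -/

theorem flow (G P X E : ℝ → ℝ → ℝ → ℝ)
    (hG : Continuous fun p : ℝ × ℝ × ℝ => G p.1 p.2.1 p.2.2)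
    (hP : Continuous fun p : ℝ × ℝ × ℝ => P p.1 p.2.1 p.2.2)
    (hX : Continuous fun p : ℝ × ℝ × ℝ => X p.1 p.2.1 p.2.2)
    (hE : Continuous fun p : ℝ × ℝ × ℝ => E p.1 p.2.1 p.2.2)
    (pG : ∀ φ x η, G (φ + 2 * π) x η = G φ x η)
    (pP : ∀ φ x η, P (φ + 2 * π) x η = P φ x η)
    (pX : ∀ φ x η, X (φ + 2 * π) x η = X φ x η)
    (pE : ∀ φ x η, E (φ + 2 * π) x η = E φ x η)
    (pos : ∀ φ η, ∀ x ∈ Icc (-1 : ℝ) 1, 0 < G φ x η)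
    (dec : ∀ c > 0, ∃ R, ∀ η ≥ R, ∀ x ∈ Icc (-1 : ℝ) 1, ∀ φ, G φ x η < c)
    (der : ∀ φ x η u v w t, 2 < η + t * w →
      HasDerivAt (fun s => G (φ + s * u) (x + s * v) (η + s * w))
        (P (φ + t * u) (x + t * v) (η + t * w) * u +
          X (φ + t * u) (x + t * v) (η + t * w) * v +
          E (φ + t * u) (x + t * v) (η + t * w) * w) t)
    (nz : ∀ φ, ∀ x ∈ Icc (-1 : ℝ) 1, ∀ η ≥ 2,
      ¬(P φ x η = 0 ∧ (1 - x ^ 2) * X φ x η = 0 ∧ E φ x η = 0)) :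
    ∃ R ≥ (3 : ℝ), ∃ Y : ℝ → ℝ → ℝ × ℝ × ℝ,
      Htp GoodV (fun x φ => (P φ x R, (1 - x ^ 2) * X φ x R, E φ x R)) Y ∧
      ∀ x ∈ Icc (-1 : ℝ) 1, ∀ φ, (Y x φ).2.2 < 0 := by
  sorry

/-! ### Task C : chain of homotopies -/

theorem chain (hg : Gauge g) (hns : NoSq g) {R : ℝ} (hR : 3 ≤ R)
    (Y : ℝ → ℝ → ℝ × ℝ × ℝ)
    (hY : Htp GoodV (fun x φ => (Gp g φ x R, (1 - x ^ 2) * Gx g φ x R, Ge g φ x R)) Y)
    (hneg : ∀ x ∈ Icc (-1 : ℝ) 1, ∀ φ, (Y x φ).2.2 < 0) :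
    Htp Good (fun x φ k => lam g k x R φ) (fun _ _ => ![1, 1, 0, 0]) := by
  sorry

/-! ### The core theorem -/

theorem core_gauge (g : ℂ → ℝ) (hg : Gauge g) : ¬ NoSq g := by
  intro hns
  obtain ⟨R, hR, Y, hY, hneg⟩ := flow (GG g) (Gp g) (Gx g) (Ge g) (GG_cont hg) (Gp_cont hg)
    (Gx_cont hg) (Ge_cont hg) (GG_per hg) (Gp_per hg) (Gx_per hg) (Ge_per hg)
    (fun φ η x hx => GG_pos hg φ hx η) (fun c hc => GG_dec hg c hc)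
    (GG_der hg) (fun φ x hx η hη => G_nz hg hns φ hx hη)
  exact assemble hg hns (by linarith) (chain hg hns hR Y hY hneg)

/-! ### Task Z : final statement -/

theorem star (C : Set ℂ) (hC : IsCompact C) (O : ℂ) (hO : O ∉ C)
    (hs : ∀ u : ℂ, u ≠ 0 → ∃! t : ℝ, 0 < t ∧ O + (t : ℂ) * u ∈ C) :
    ∃ z w : ℂ, w ≠ 0 ∧ z + w ∈ C ∧ z + Complex.I * w ∈ C ∧ z - w ∈ C ∧
      z - Complex.I * w ∈ C := by
  sorry

end H828SS
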