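import Pool.Agent.H828R2.SS.QDefs

/-! Explicit bounds for the angular width (task X1, by helper114). -/

open Set Real

namespace H828SS

theorem x1_arctan_le {t : ℝ} (ht : 0 ≤ t) : arctan t ≤ t := by
  have h0 : 0 ≤ arctan t := Real.arctan_nonneg.2 ht
  have h1 : arctan t < π / 2 := Real.arctan_lt_pi_div_two t
  have h2 := Real.le_tan h0 h1
  rwa [Real.tan_arctan] at h2

theorem x1_le_arctan {t : ℝ} (ht : 0 ≤ t) : t / (1 + t ^ 2) ≤ arctan t := by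
  have h0 : 0 ≤ arctan t := Real.arctan_nonneg.2 ht
  have h2 : Real.sin (2 * arctan t) ≤ 2 * arctan t := Real.sin_le (by linarith)
  rw [Real.sin_two_mul, Real.sin_arctan, Real.cos_arctan] at h2
  have h3 : 0 < 1 + t ^ 2 := by positivity
  have h4 : 2 * (t / √(1 + t ^ 2)) * (1 / √(1 + t ^ 2)) = 2 * (t / (1 + t ^ 2)) := by
    have h5 : √(1 + t ^ 2) * √(1 + t ^ 2) = 1 + t ^ 2 := Real.mul_self_sqrt h3.le
    rw [mul_assoc, div_mul_div_comm, mul_one, h5]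
  rw [h4] at h2
  linarith

/-- the difference of the two angles -/
theorem x1_diff {p η : ℝ} (hp : 0 ≤ p) (hη : 2 ≤ η) :
    arctan (p / (η - 1)) - arctan (p / (η + 1)) = arctan (2 * p / (η ^ 2 - 1 + p ^ 2)) := by
  have h1 : 0 < η - 1 := by linarith
  have h2 : 0 < η + 1 := by linarith
  have h3 : p / (η - 1) * -(p / (η + 1)) < 1 := by
    have : 0 ≤ p / (η - 1) * (p / (η + 1)) := by positivity
    linarith
  have h4 := Real.arctan_add h3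
  rw [Real.arctan_neg] at h4
  rw [sub_eq_add_neg, h4]
  congr 1
  have h5 : 0 < η ^ 2 - 1 + p ^ 2 := by nlinarith
  have h6 : (η - 1) * (η + 1) + p * p ≠ 0 := by nlinarith
  have h7 : 1 - p / (η - 1) * -(p / (η + 1)) ≠ 0 := by linarith
  rw [div_eq_div_iff h7 h5.ne']
  field_simp
  ring

theorem x1_wid {x η : ℝ} (hη : 2 ≤ η) : wid x η =
    (arctan ((1 + x) / (η - 1)) - arctan ((1 + x) / (η + 1))) +
    (arctan ((1 - x) / (η - 1)) - arctan ((1 - x) / (η + 1))) := by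
  have e1 : beta 3 x η = arctan ((1 + x) / (η - 1)) := by
    simp only [beta, ca, cb, max_eq_left hη]
    congr 1
    simp
    ring
  have e0 : beta 0 x η = arctan ((1 + x) / (η + 1)) := by
    simp only [beta, ca, cb, max_eq_left hη]
    congr 1
    simp
    ring
  have e2 : beta 1 x η = -arctan ((1 - x) / (η + 1)) := by
    rw [← Real.arctan_neg]
    simp only [beta, ca, cb, max_eq_left hη]
    congr 1
    simp
    ring
  have e3 : beta 2 x η = -arctan ((1 - x) / (η - 1)) := by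
    rw [← Real.arctan_neg]
    simp only [beta, ca, cb, max_eq_left hη]
    congr 1
    simp
    ring
  rw [wid, e1, e0, e2, e3]
  ring

theorem x1_lower {p η : ℝ} (hp : 0 ≤ p) (hp2 : p ≤ 2) (hη : 2 ≤ η) :
    3 / 2 * p / (η ^ 2 + 3) ≤ arctan (p / (η - 1)) - arctan (p / (η + 1)) := by
  rw [x1_diff hp hη]
  have h5 : 0 < η ^ 2 - 1 + p ^ 2 := by nlinarith
  set t := 2 * p / (η ^ 2 - 1 + p ^ 2) with ht
  have ht0 : 0 ≤ t := by positivity
  refine le_trans ?_ (x1_le_arctan ht0)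
  have h6 : t ^ 2 ≤ 1 / 3 := by
    rw [ht, div_pow, div_le_iff₀ (by positivity)]
    have h7 : 3 + p ^ 2 ≤ η ^ 2 - 1 + p ^ 2 := by nlinarith
    have h8 : (3 + p ^ 2) ^ 2 ≤ (η ^ 2 - 1 + p ^ 2) ^ 2 := by
      apply pow_le_pow_left₀ (by positivity) h7
    nlinarith [sq_nonneg (3 - p ^ 2)]
  have h7 : 3 / 4 * t ≤ t / (1 + t ^ 2) := by
    rw [le_div_iff₀ (by positivity)]
    nlinarith
  refine le_trans ?_ h7
  rw [ht]
  have h8 : η ^ 2 - 1 + p ^ 2 ≤ η ^ 2 + 3 := by nlinarith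
  calc 3 / 2 * p / (η ^ 2 + 3) ≤ 3 / 2 * p / (η ^ 2 - 1 + p ^ 2) :=
        div_le_div_of_nonneg_left (by positivity) h5 h8
    _ = 3 / 4 * (2 * p / (η ^ 2 - 1 + p ^ 2)) := by ring

theorem x1_upper {p η : ℝ} (hp : 0 ≤ p) (hη : 2 ≤ η) :
    arctan (p / (η - 1)) - arctan (p / (η + 1)) ≤ 2 * p / (η ^ 2 - 1) := by
  rw [x1_diff hp hη]
  have h4 : 0 < η ^ 2 - 1 := by nlinarith
  have h5 : 0 < η ^ 2 - 1 + p ^ 2 := by nlinarith
  refine (x1_arctan_le (by positivity)).trans ?_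
  apply div_le_div_of_nonneg_left (by positivity) h4
  nlinarith

theorem wid_ge {x : ℝ} (hx : x ∈ Icc (-1 : ℝ) 1) {η : ℝ} (hη : 2 ≤ η) :
    3 / (η ^ 2 + 3) ≤ wid x η := by
  rw [x1_wid hη]
  have h1 := x1_lower (p := 1 + x) (by linarith [hx.1]) (by linarith [hx.2]) hη
  have h2 := x1_lower (p := 1 - x) (by linarith [hx.2]) (by linarith [hx.1]) hη
  have h3 : 3 / (η ^ 2 + 3) = 3 / 2 * (1 + x) / (η ^ 2 + 3) + 3 / 2 * (1 - x) / (η ^ 2 + 3) := by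
    ring
  rw [h3]
  exact add_le_add h1 h2

theorem wid_le2 {x : ℝ} (hx : x ∈ Icc (-1 : ℝ) 1) {η : ℝ} (hη : 2 ≤ η) :
    wid x η ≤ 4 / (η ^ 2 - 1) := by
  rw [x1_wid hη]
  have h1 := x1_upper (p := 1 + x) (by linarith [hx.1]) hη
  have h2 := x1_upper (p := 1 - x) (by linarith [hx.2]) hη
  have h3 : 4 / (η ^ 2 - 1) = 2 * (1 + x) / (η ^ 2 - 1) + 2 * (1 - x) / (η ^ 2 - 1) := by
    ring
  rw [h3]
  exact add_le_add h1 h2

theorem consts2 (m M : ℝ) (hm : 0 < m) (hmM : m ≤ M) :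
    ∃ R c0 c1 : ℝ, 5 ≤ R ∧ R + 2 ≤ 13 / 2 * (M / m) ^ 2 + 1 ∧
      (∀ x ∈ Icc (-1 : ℝ) 1, ∀ η ∈ Icc (3 : ℝ) 4, c0 ≤ m ^ 2 / 2 * wid x η) ∧
      (∀ x ∈ Icc (-1 : ℝ) 1, M ^ 2 / 2 * wid x R < c0) ∧
      (∀ x ∈ Icc (-1 : ℝ) 1, ∀ η ∈ Icc (3 : ℝ) R, c1 ≤ m ^ 2 / 2 * wid x η) ∧
      (∀ x ∈ Icc (-1 : ℝ) 1, ∀ η ≥ 13 / 2 * (M / m) ^ 2, M ^ 2 / 2 * wid x η < c1) := by
  set q := M / m with hq
  have hq1 : 1 ≤ q := by rw [hq, le_div_iff₀ hm]; linarith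
  have hM : M = q * m := by rw [hq]; field_simp
  have hm2 : 0 < m ^ 2 / 2 := by positivity
  refine ⟨26 / 5 * q, m ^ 2 / 2 * (3 / 19), m ^ 2 / 2 * (3 / ((26 / 5 * q) ^ 2 + 3)), ?_, ?_, ?_, ?_,
    ?_, ?_⟩
  · linarith
  · nlinarith
  · intro x hx η hη
    refine mul_le_mul_of_nonneg_left ?_ hm2.le
    refine le_trans ?_ (wid_ge hx (by linarith [hη.1]))
    apply div_le_div_of_nonneg_left (by norm_num) (by positivity)
    nlinarith [hη.1, hη.2]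
  · intro x hx
    have h1 := wid_le2 hx (η := 26 / 5 * q) (by linarith)
    have hR : 0 < (26 / 5 * q) ^ 2 - 1 := by nlinarith
    have h2 : M ^ 2 / 2 * wid x (26 / 5 * q) ≤ M ^ 2 / 2 * (4 / ((26 / 5 * q) ^ 2 - 1)) :=
      mul_le_mul_of_nonneg_left h1 (by positivity)
    refine lt_of_le_of_lt h2 ?_
    have h3 : M ^ 2 / 2 * (4 / ((26 / 5 * q) ^ 2 - 1)) =
        m ^ 2 / 2 * (4 * q ^ 2 / ((26 / 5 * q) ^ 2 - 1)) := by
      rw [hM]; ring
    rw [h3]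
    refine mul_lt_mul_of_pos_left ?_ hm2
    rw [div_lt_div_iff₀ hR (by norm_num)]
    nlinarith
  · intro x hx η hη
    refine mul_le_mul_of_nonneg_left ?_ hm2.le
    refine le_trans ?_ (wid_ge hx (by linarith [hη.1]))
    apply div_le_div_of_nonneg_left (by norm_num) (by positivity)
    nlinarith [hη.1, hη.2]
  · intro x hx η hη
    have hη' : 13 / 2 * q ^ 2 ≤ η := hη
    have hq2 : 1 ≤ q ^ 2 := by nlinarith
    have hη2 : (13 / 2 * q ^ 2) ^ 2 ≤ η ^ 2 := pow_le_pow_left₀ (by positivity) hη' 2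
    have h1 := wid_le2 hx (η := η) (by linarith)
    have hR : 0 < η ^ 2 - 1 := by nlinarith
    have h2 : M ^ 2 / 2 * wid x η ≤ M ^ 2 / 2 * (4 / (η ^ 2 - 1)) :=
      mul_le_mul_of_nonneg_left h1 (by positivity)
    refine lt_of_le_of_lt h2 ?_
    have h3 : M ^ 2 / 2 * (4 / (η ^ 2 - 1)) = m ^ 2 / 2 * (4 * q ^ 2 / (η ^ 2 - 1)) := by
      rw [hM]; ring
    rw [h3]
    refine mul_lt_mul_of_pos_left ?_ hm2
    rw [div_lt_div_iff₀ hR (by positivity)]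
    nlinarith [mul_le_mul hq2 hq2 (by norm_num) (by positivity)]

end H828SS
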