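import Pool.Agent.H828R2.SS.Defs

/-! Task X3 of helper828: the closure of a star-shaped component of the complement of `C`
(helper602). -/

open Set Real

namespace H828SS

theorem frontier_comp (C : Set ℂ) (O : ℂ) (hC : IsClosed C) (m M : ℝ) (hm : 0 < m)
    (h1 : Metric.ball O m ⊆ connectedComponentIn Cᶜ O)
    (h2 : connectedComponentIn Cᶜ O ⊆ Metric.closedBall O M)
    (hs : StarConvex ℝ O (connectedComponentIn Cᶜ O)) :
    IsCompact (closure (connectedComponentIn Cᶜ O)) ∧
      Metric.ball O m ⊆ closure (connectedComponentIn Cᶜ O) ∧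
      closure (connectedComponentIn Cᶜ O) ⊆ Metric.closedBall O M ∧
      StarConvex ℝ O (closure (connectedComponentIn Cᶜ O)) ∧
      frontier (closure (connectedComponentIn Cᶜ O)) ⊆ C := by
  have hcl : closure (connectedComponentIn Cᶜ O) ⊆ Metric.closedBall O M :=
    closure_minimal h2 Metric.isClosed_closedBall
  have hopen : IsOpen (connectedComponentIn Cᶜ O) := hC.isOpen_compl.connectedComponentIn
  refine ⟨(isCompact_closedBall O M).of_isClosed_subset isClosed_closure hcl,
    h1.trans subset_closure, hcl, ?_, ?_⟩
  · intro y hy a b ha hb hab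
    have hmaps : MapsTo (fun z : ℂ => a • O + b • z) (connectedComponentIn Cᶜ O)
        (connectedComponentIn Cᶜ O) := fun z hz => hs hz ha hb hab
    have hcont : Continuous (fun z : ℂ => a • O + b • z) := by fun_prop
    exact hmaps.closure hcont hy
  · intro z hz
    have hz2 : z ∈ frontier (connectedComponentIn Cᶜ O) := frontier_closure_subset hz
    by_contra hzC
    have hzC' : z ∈ Cᶜ := hzC
    have hzo : IsOpen (connectedComponentIn Cᶜ z) := hC.isOpen_compl.connectedComponentIn
    have hzm : z ∈ connectedComponentIn Cᶜ z := mem_connectedComponentIn hzC'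
    have hzcl : z ∈ closure (connectedComponentIn Cᶜ O) := frontier_subset_closure hz2
    obtain ⟨w, hw1, hw2⟩ := mem_closure_iff.1 hzcl _ hzo hzm
    have e1 := connectedComponentIn_eq hw1
    have e2 := connectedComponentIn_eq hw2
    have hzO : z ∈ connectedComponentIn Cᶜ O := by
      rw [e2, ← e1]; exact hzm
    have : z ∉ interior (connectedComponentIn Cᶜ O) := hz2.2
    exact this (by rw [hopen.interior_eq]; exact hzO)

end H828SS
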