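import Pool.Agent.H828R2.SS.QCore
import Pool.Agent.H828R2.SS.QStar
import Pool.Agent.H828R2.SS.QLimit
import Pool.Agent.H828R2.SS.XBound

/-! The star-shaped theorem with explicit constants (helper828; the proofs of the two deduction
steps are adapted from helper889's QStar and QLimit). -/

open Set Real

namespace H828SS

theorem core_expl (m M : ℝ) (hm : 0 < m) (hmM : m ≤ M) (g : ℂ → ℝ) (hg : Gauge g)
    (hga : ∀ θ, m ^ 2 / 2 ≤ hh g θ) (hgb : ∀ θ, hh g θ ≤ M ^ 2 / 2) :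
    ¬ NoSqL g (13 / 2 * (M / m) ^ 2 + 1) := by
  obtain ⟨R, c0, c1, hR5, hR1, h1, h2, h3, h4⟩ := consts2 m M hm hmM
  intro hns
  have hge : ∀ φ, ∀ x ∈ Icc (-1 : ℝ) 1, ∀ η, m ^ 2 / 2 * wid x η ≤ GG g φ x η :=
    fun φ x hx η => GG_ge hg hga φ hx η
  have hle : ∀ φ, ∀ x ∈ Icc (-1 : ℝ) 1, ∀ η, GG g φ x η ≤ M ^ 2 / 2 * wid x η :=
    fun φ x hx η => GG_le hg hgb φ hx η
  have hnz : ∀ φ, ∀ x ∈ Icc (-1 : ℝ) 1, ∀ η ∈ Icc (3 : ℝ) (13 / 2 * (M / m) ^ 2 + 1),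
      ¬(Gp g φ x η = 0 ∧ (1 - x ^ 2) * Gx g φ x η = 0 ∧ Ge g φ x η = 0) :=
    fun φ x hx η hη => G_nzL hg hns φ hx (by linarith [hη.1]) hη.2
  obtain ⟨Y, hY, hneg⟩ := flowL (GG g) (Gp g) (Gx g) (Ge g) (Gp_cont hg) (Gx_cont hg)
    (Ge_cont hg) (Gp_per hg) (Gx_per hg) (Ge_per hg) R (13 / 2 * (M / m) ^ 2 + 1) c0 c1 hR5 hR1
    (fun φ x hx η hη => (h1 x hx η hη).trans (hge φ x hx η))
    (fun x hx φ => (hle φ x hx R).trans_lt (h2 x hx))
    (fun φ x hx η hη => (h3 x hx η hη).trans (hge φ x hx η))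
    (fun η hη x hx φ => (hle φ x hx η).trans_lt (h4 x hx η (by linarith)))
    (fun φ η x hx => GG_pos hg φ hx η) (GG_der hg) hnz
  have hns' : NoSqL g R := by
    intro x y φ hxy hx hy
    exact hns x y φ hxy (by linarith) (by linarith)
  refine assembleL hg hns' (by linarith) (chainL hg (by linarith) ?_ ?_ Y hY hneg)
  · intro x hx φ
    have hx' : |x| ≤ 1 := abs_le.2 hx
    exact hns' x R φ (Or.inl hx') (by linarith) (by rw [abs_of_nonneg (by linarith)])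
  · intro x hx φ
    exact hnz φ x hx R ⟨by linarith, by linarith⟩

theorem norm_vtx_sq (k : Fin 4) (x y φ : ℝ) :
    ‖vtx k x y φ‖ ^ 2 = (x + ca k) ^ 2 + (y + cb k) ^ 2 := by
  unfold vtx
  rw [norm_mul, Complex.norm_exp_ofReal_mul_I, one_mul, Complex.sq_norm, Complex.normSq_add_mul_I]

/-- one of the four corners is close to the origin. -/
theorem near_corner {x y L : ℝ} (hL : 2 ≤ L) (hcr : |x| ≤ 1 ∨ |y| ≤ 1) (hx : |x| ≤ L)
    (hy : |y| ≤ L) : ∃ k : Fin 4, (x + ca k) ^ 2 + (y + cb k) ^ 2 ≤ 1 + (L - 1) ^ 2 := by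
  have key : ∀ u v : ℝ, |u| ≤ 1 → |v| ≤ L → ((u - 1) ^ 2 ≤ 1 ∨ (u + 1) ^ 2 ≤ 1) ∧
      ((v - 1) ^ 2 ≤ (L - 1) ^ 2 ∨ (v + 1) ^ 2 ≤ (L - 1) ^ 2) := by
    intro u v hu hv
    rw [abs_le] at hu hv
    constructor
    · rcases le_total 0 u with h | h
      · left; nlinarith
      · right; nlinarith
    · rcases le_total 0 v with h | h
      · left; nlinarith
      · right; nlinarith
  have pick : ∀ A B : ℝ, ((x - 1) ^ 2 ≤ A ∨ (x + 1) ^ 2 ≤ A) → ((y - 1) ^ 2 ≤ B ∨ (y + 1) ^ 2 ≤ B) →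
      ∃ k : Fin 4, (x + ca k) ^ 2 + (y + cb k) ^ 2 ≤ A + B := by
    intro A B h1 h2
    rcases h1 with h1 | h1 <;> rcases h2 with h2 | h2
    · exact ⟨2, by simp only [ca, cb, Matrix.cons_val]; nlinarith⟩
    · exact ⟨1, by simp only [ca, cb, Matrix.cons_val]; nlinarith⟩
    · exact ⟨3, by simp only [ca, cb, Matrix.cons_val]; nlinarith⟩
    · exact ⟨0, by simp only [ca, cb, Matrix.cons_val]; nlinarith⟩
  rcases hcr with h | h
  · obtain ⟨h1, h2⟩ := key x y h hy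
    exact pick _ _ h1 h2
  · obtain ⟨h1, h2⟩ := key y x h hx
    obtain ⟨k, hk⟩ := pick _ _ h2 h1
    exact ⟨k, by linarith⟩

theorem star_strict_expl (m M : ℝ) (hm : 0 < m) (hmM : m ≤ M) (C : Set ℂ) (O : ℂ)
    (hC : IsCompact C) (hann : ∀ z ∈ C, m ≤ ‖z - O‖ ∧ ‖z - O‖ ≤ M)
    (hs : ∀ u : ℂ, u ≠ 0 → ∃! t : ℝ, 0 < t ∧ O + (t : ℂ) * u ∈ C) :
    ∃ z w : ℂ, m ^ 3 / (5 * M ^ 2) ≤ ‖w‖ ∧ z + w ∈ C ∧ z + Complex.I * w ∈ C ∧ z - w ∈ C ∧
      z - Complex.I * w ∈ C := by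
  have hM : 0 < M := lt_of_lt_of_le hm hmM
  have hO : O ∉ C := by
    intro h
    have := (hann O h).1
    rw [sub_self, norm_zero] at this
    linarith
  obtain ⟨g, hg, hgC⟩ := exists_gauge C hC O hO hs
  have hb := fun z hz => gauge_bounds hg hann hgC (z := z) hz
  have hdir : ∀ θ : ℝ, Complex.I * Complex.exp ((θ : ℂ) * Complex.I) ≠ 0 := fun θ =>
    mul_ne_zero Complex.I_ne_zero (Complex.exp_ne_zero _)
  have hdn : ∀ θ : ℝ, ‖Complex.I * Complex.exp ((θ : ℂ) * Complex.I)‖ = 1 := fun θ => by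
    rw [norm_mul, Complex.norm_I, Complex.norm_exp_ofReal_mul_I, one_mul]
  have hlo : ∀ θ, m ^ 2 / 2 ≤ hh g θ := by
    intro θ
    have h1 := (hb _ (hdir θ)).1
    have h0 := hg.pos _ (hdir θ)
    rw [hdn] at h1
    unfold hh
    rw [div_le_div_iff₀ (by norm_num) (by positivity)]
    have h2 : (m * g (Complex.I * Complex.exp ((θ : ℂ) * Complex.I))) ^ 2 ≤ 1 := by
      apply pow_le_one₀ (by positivity) h1
    nlinarith
  have hhi : ∀ θ, hh g θ ≤ M ^ 2 / 2 := by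
    intro θ
    have h1 := (hb _ (hdir θ)).2
    have h0 := hg.pos _ (hdir θ)
    rw [hdn] at h1
    unfold hh
    rw [div_le_div_iff₀ (by positivity) (by norm_num)]
    have h2 : 1 ≤ (M * g (Complex.I * Complex.exp ((θ : ℂ) * Complex.I))) ^ 2 :=
      one_le_pow₀ h1
    nlinarith
  have h := core_expl m M hm hmM g hg hlo hhi
  unfold NoSqL at h
  push Not at h
  obtain ⟨x, y, φ, hcr, hx, hy, hall⟩ := h
  have hg0 : g 0 = 0 := by
    have := hg.hom 0 0 le_rfl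
    simpa using this
  set s := lam g 0 x y φ with hsdef
  have hE : Complex.exp ((φ : ℂ) * Complex.I) ≠ 0 := Complex.exp_ne_zero _
  have hs0 : s ≠ 0 := by
    intro h0
    have hv0 : vtx 0 x y φ = 0 := by
      by_contra hv
      exact (hg.pos _ hv).ne' h0
    have hv1 : vtx 1 x y φ = 0 := by
      by_contra hv
      exact (hg.pos _ hv).ne' ((hall 1 0).trans h0)
    have e0 := (mul_eq_zero.mp hv0).resolve_left hE
    have e1 := (mul_eq_zero.mp hv1).resolve_left hE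
    have r0 := congrArg Complex.re e0
    have r1 := congrArg Complex.re e1
    simp [ca] at r0 r1
    linarith
  have hspos : 0 < s := by
    have : 0 ≤ s := by
      by_cases hv : vtx 0 x y φ = 0
      · rw [hsdef, lam, hv, hg0]
      · exact (hg.pos _ hv).le
    exact lt_of_le_of_ne this hs0.symm
  have hv0 : vtx 0 x y φ ≠ 0 := by
    intro hv
    rw [hsdef, lam, hv, hg0] at hspos
    exact lt_irrefl _ hspos
  have hq1 : 1 ≤ M / m := by rw [le_div_iff₀ hm]; linarith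
  obtain ⟨k0, hk0⟩ := near_corner (L := 13 / 2 * (M / m) ^ 2 + 1) (by nlinarith) hcr hx hy
  have hvk0 : vtx k0 x y φ ≠ 0 := by
    intro hv
    have h1 : lam g k0 x y φ = s := hall k0 0
    rw [lam, hv, hg0] at h1
    exact hs0 h1.symm
  have hsle : (m * s) ^ 2 ≤ 50 * (M / m) ^ 4 := by
    have h1 := (hb _ hvk0).1
    have h2 : g (vtx k0 x y φ) = s := hall k0 0
    rw [h2] at h1
    have h3 : (m * s) ^ 2 ≤ ‖vtx k0 x y φ‖ ^ 2 := pow_le_pow_left₀ (by positivity) h1 2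
    rw [norm_vtx_sq] at h3
    have h4 : 1 ≤ (M / m) ^ 4 := one_le_pow₀ hq1
    have h5 : (13 / 2 * (M / m) ^ 2 + 1 - 1) ^ 2 = 169 / 4 * (M / m) ^ 4 := by ring
    rw [h5] at hk0
    linarith
  have hsle2 : m * s * (m ^ 2) ≤ 5 * M ^ 2 * √2 := by
    have h1 : (m * s * m ^ 2) ^ 2 ≤ (5 * M ^ 2 * √2) ^ 2 := by
      have h2 : (5 * M ^ 2 * √2) ^ 2 = 50 * M ^ 4 := by
        rw [mul_pow, Real.sq_sqrt (by norm_num)]; ring
      have h3 : (m * s * m ^ 2) ^ 2 = (m * s) ^ 2 * m ^ 4 := by ring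
      rw [h2, h3]
      calc (m * s) ^ 2 * m ^ 4 ≤ 50 * (M / m) ^ 4 * m ^ 4 :=
            mul_le_mul_of_nonneg_right hsle (by positivity)
        _ = 50 * M ^ 4 := by field_simp
    exact le_of_sq_le_sq h1 (by positivity)
  have key : ∀ k, O + ((s⁻¹ : ℝ) : ℂ) * vtx k x y φ ∈ C := by
    intro k
    apply hgC
    rw [hg.hom _ _ (inv_nonneg.mpr hspos.le)]
    have : g (vtx k x y φ) = s := hall k 0
    rw [this, inv_mul_cancel₀ hs0]
  refine ⟨O + ((s⁻¹ : ℝ) : ℂ) * (Complex.exp ((φ : ℂ) * Complex.I) *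
    ((x : ℂ) + (y : ℂ) * Complex.I)), ((s⁻¹ : ℝ) : ℂ) * (Complex.exp ((φ : ℂ) * Complex.I) *
    (1 + Complex.I)), ?_, ?_, ?_, ?_, ?_⟩
  · rw [norm_mul, norm_mul, Complex.norm_exp_ofReal_mul_I, one_mul, Complex.norm_real, norm_inv,
      Real.norm_eq_abs, abs_of_pos hspos]
    have h1 : ‖(1 + Complex.I : ℂ)‖ = √2 := by
      have h2 : ‖(1 + Complex.I : ℂ)‖ ^ 2 = 2 := by
        rw [Complex.sq_norm, Complex.normSq_apply]
        norm_num
      rw [← h2, Real.sqrt_sq (norm_nonneg _)]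
    rw [h1, div_le_iff₀ (by positivity)]
    have h3 : s⁻¹ * √2 * (5 * M ^ 2) = (5 * M ^ 2 * √2) / s := by
      field_simp
    rw [h3, le_div_iff₀ hspos]
    linarith
  · convert key 0 using 1
    simp only [vtx, ca, cb]
    push_cast
    ring
  · convert key 1 using 1
    simp only [vtx, ca, cb]
    push_cast
    linear_combination ((s : ℂ)⁻¹ * Complex.exp ((φ : ℂ) * Complex.I)) * Complex.I_sq
  · convert key 2 using 1
    simp only [vtx, ca, cb]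
    push_cast
    ring
  · convert key 3 using 1
    simp only [vtx, ca, cb]
    push_cast
    linear_combination (-(s : ℂ)⁻¹ * Complex.exp ((φ : ℂ) * Complex.I)) * Complex.I_sq


theorem star_weak_expl (m M : ℝ) (hm : 0 < m) (hmM : m ≤ M) (C : Set ℂ) (O : ℂ)
    (hC : IsCompact C) (hann : ∀ z ∈ C, m ≤ ‖z - O‖ ∧ ‖z - O‖ ≤ M)
    (hs : ∀ u : ℂ, u ≠ 0 → {t : ℝ | 0 < t ∧ O + (t : ℂ) * u ∈ C}.Nonempty ∧
        IsPreconnected {t : ℝ | 0 < t ∧ O + (t : ℂ) * u ∈ C}) :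
    ∃ z w : ℂ, m ^ 3 / (5 * M ^ 2) ≤ ‖w‖ ∧ z + w ∈ C ∧ z + Complex.I * w ∈ C ∧ z - w ∈ C ∧
      z - Complex.I * w ∈ C := by
  have hM : 0 < M := lt_of_lt_of_le hm hmM
  set δ : ℝ := m ^ 3 / (5 * M ^ 2) with hδdef
  have H := star_strict_expl m M hm hmM
  rw [← hδdef] at H
  have key : ∀ n : ℕ, ∃ D : Set ℂ, ∃ z w : ℂ, (∀ v ∈ D, ‖v - O‖ ≤ M) ∧
      (∀ v ∈ D, ∃ z' ∈ C, ‖v - z'‖ ≤ 1 / ((n : ℝ) + 1)) ∧ δ ≤ ‖w‖ ∧ z + w ∈ D ∧
      z + Complex.I * w ∈ D ∧ z - w ∈ D ∧ z - Complex.I * w ∈ D := by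
    intro n
    obtain ⟨D, d1, d2, d3, d4⟩ := weak_approx m M hm C O hC hann hs (1 / ((n : ℝ) + 1))
      (by positivity)
    obtain ⟨z, w, e⟩ := H D O d1 d2 d3
    exact ⟨D, z, w, fun v hv => (d2 v hv).2, d4, e⟩
  choose D z w k1 k2 k3 k4 k5 k6 k7 using key
  have hb : ∀ n, (z n, w n) ∈ Metric.closedBall O M ×ˢ Metric.closedBall (0 : ℂ) M := by
    intro n
    have a1 := k1 n _ (k4 n)
    have a2 := k1 n _ (k6 n)
    constructor
    · rw [mem_closedBall_iff_norm]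
      have e : z n - O = (1 / 2 : ℂ) * ((z n + w n - O) + (z n - w n - O)) := by ring
      rw [e, norm_mul]
      have := norm_add_le (z n + w n - O) (z n - w n - O)
      have h2 : ‖(1 / 2 : ℂ)‖ = 1 / 2 := by norm_num
      rw [h2]
      linarith
    · rw [mem_closedBall_zero_iff]
      have e : w n = (1 / 2 : ℂ) * ((z n + w n - O) - (z n - w n - O)) := by ring
      rw [e, norm_mul]
      have := norm_sub_le (z n + w n - O) (z n - w n - O)
      have h2 : ‖(1 / 2 : ℂ)‖ = 1 / 2 := by norm_num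
      rw [h2]
      linarith
  obtain ⟨⟨z0, w0⟩, -, φ, hφ, hlim⟩ := ((isCompact_closedBall O M).prod
    (isCompact_closedBall (0 : ℂ) M)).tendsto_subseq hb
  have lem : ∀ V : ℂ × ℂ → ℂ, Continuous V → (∀ n, V (z n, w n) ∈ D n) → V (z0, w0) ∈ C := by
    intro V hV hVD
    have h1 : ∀ n, ∃ z' ∈ C, ‖V (z n, w n) - z'‖ ≤ 1 / ((n : ℝ) + 1) := fun n => k2 n _ (hVD n)
    choose z' hz' hz'2 using h1
    have t1 : Filter.Tendsto (fun n => V (z (φ n), w (φ n))) Filter.atTop (nhds (V (z0, w0))) :=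
      (hV.tendsto _).comp hlim
    have t2 : Filter.Tendsto (fun n => V (z (φ n), w (φ n)) - z' (φ n)) Filter.atTop (nhds 0) := by
      have t3 : Filter.Tendsto (fun n : ℕ => 1 / ((φ n : ℝ) + 1)) Filter.atTop (nhds 0) :=
        (tendsto_one_div_add_atTop_nhds_zero_nat (𝕜 := ℝ)).comp hφ.tendsto_atTop
      exact squeeze_zero_norm (fun n => hz'2 (φ n)) t3
    have t4 : Filter.Tendsto (fun n => z' (φ n)) Filter.atTop (nhds (V (z0, w0))) := by
      have := t1.sub t2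
      simpa using this
    exact hC.isClosed.mem_of_tendsto t4 (Filter.Eventually.of_forall fun n => hz' (φ n))
  refine ⟨z0, w0, ?_, ?_, ?_, ?_, ?_⟩
  · have t1 : Filter.Tendsto (fun n => ‖w (φ n)‖) Filter.atTop (nhds ‖w0‖) :=
      ((continuous_norm.comp continuous_snd).tendsto (z0, w0)).comp hlim
    exact ge_of_tendsto t1 (Filter.Eventually.of_forall fun n => k3 (φ n))
  · exact lem (fun p => p.1 + p.2) (by fun_prop) k4
  · exact lem (fun p => p.1 + Complex.I * p.2) (by fun_prop) k5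
  · exact lem (fun p => p.1 - p.2) (by fun_prop) k6
  · exact lem (fun p => p.1 - Complex.I * p.2) (by fun_prop) k7


end H828SS
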