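import Pool.Agent.H828R2.SS.QDefs

/-! Task X2: the rays from the centre of a compact star-shaped set meet its frontier in a
nonempty interval. -/

open Set Real

namespace H828SS

theorem rays_of_starK (K : Set ℂ) (O : ℂ) (m M : ℝ) (hm : 0 < m) (hK : IsCompact K)
    (h1 : Metric.ball O m ⊆ K) (h2 : K ⊆ Metric.closedBall O M) (hs : StarConvex ℝ O K) :
    IsCompact (frontier K) ∧ (∀ z ∈ frontier K, m ≤ ‖z - O‖ ∧ ‖z - O‖ ≤ M) ∧
      ∀ u : ℂ, u ≠ 0 → {t : ℝ | 0 < t ∧ O + (t : ℂ) * u ∈ frontier K}.Nonempty ∧
        IsPreconnected {t : ℝ | 0 < t ∧ O + (t : ℂ) * u ∈ frontier K} := by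
  have hint : Metric.ball O m ⊆ interior K := interior_maximal h1 Metric.isOpen_ball
  have hO : O ∈ interior K := hint (Metric.mem_ball_self hm)
  have hfrK : frontier K ⊆ K := hK.isClosed.frontier_subset
  have hfri : ∀ z ∈ frontier K, z ∉ interior K := fun z hz => hz.2
  have hfr : ∀ z ∈ K, z ∉ interior K → z ∈ frontier K := fun z hz hz' =>
    ⟨subset_closure hz, hz'⟩
  refine ⟨hK.of_isClosed_subset isClosed_frontier hfrK, ?_, ?_⟩
  · intro z hz
    constructor
    · by_contra h
      push Not at h
      apply hfri z hz
      apply hint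
      rw [Metric.mem_ball, dist_eq_norm]
      exact h
    · have := h2 (hfrK hz)
      rwa [Metric.mem_closedBall, dist_eq_norm] at this
  · intro u hu
    have hu' : 0 < ‖u‖ := norm_pos_iff.2 hu
    have hcont : Continuous (fun t : ℝ => O + (t : ℂ) * u) := by fun_prop
    constructor
    · set T : Set ℝ := {t : ℝ | 0 ≤ t ∧ O + (t : ℂ) * u ∈ K} with hT
      have hTc : IsClosed T := by
        apply IsClosed.inter isClosed_Ici
        exact hK.isClosed.preimage hcont
      have hTb : T ⊆ Icc 0 (M / ‖u‖) := by
        intro t ht
        refine ⟨ht.1, ?_⟩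
        rw [le_div_iff₀ hu']
        have h3 := h2 ht.2
        rw [Metric.mem_closedBall, dist_eq_norm, add_sub_cancel_left, norm_mul,
          Complex.norm_real, Real.norm_eq_abs, abs_of_nonneg ht.1] at h3
        exact h3
      have hTk : IsCompact T := isCompact_Icc.of_isClosed_subset hTc hTb
      have hT0 : (0 : ℝ) ∈ T := ⟨le_refl _, by simpa using interior_subset hO⟩
      have ht0 := hTk.sSup_mem ⟨0, hT0⟩
      set t0 := sSup T with ht0d
      have hni : O + (t0 : ℂ) * u ∉ interior K := by
        intro h
        have hopen : IsOpen ((fun t : ℝ => O + (t : ℂ) * u) ⁻¹' interior K) :=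
          isOpen_interior.preimage hcont
        obtain ⟨ε, hε, hball⟩ := Metric.isOpen_iff.1 hopen t0 h
        have h4 : t0 + ε / 2 ∈ Metric.ball t0 ε := by
          rw [Metric.mem_ball, Real.dist_eq, add_sub_cancel_left, abs_of_pos (by positivity)]
          linarith
        have h5 : t0 + ε / 2 ∈ T := ⟨by linarith [ht0.1], interior_subset (hball h4)⟩
        have h6 : t0 + ε / 2 ≤ t0 := le_csSup hTk.bddAbove h5
        linarith
      have hpos : 0 < t0 := by
        rcases ht0.1.eq_or_lt with h | h
        · exfalso
          apply hni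
          rw [← h]
          simpa using hO
        · exact h
      exact ⟨t0, hpos, hfr _ ht0.2 hni⟩
    · apply Set.OrdConnected.isPreconnected
      refine ⟨?_⟩
      intro t1 ht1 t2 ht2 t ht
      have ht0 : 0 < t := lt_of_lt_of_le ht1.1 ht.1
      have ht20 : 0 < t2 := ht2.1
      refine ⟨ht0, ?_⟩
      have hKt : O + (t : ℂ) * u ∈ K := by
        have h3 := hs (hfrK ht2.2) (a := 1 - t / t2) (b := t / t2)
          (by rw [sub_nonneg, div_le_one ht20]; exact ht.2) (by positivity) (by ring)
        have h4 : (1 - t / t2) • O + (t / t2) • (O + (t2 : ℂ) * u) = O + (t : ℂ) * u := by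
          rw [Complex.real_smul, Complex.real_smul]
          have : (t2 : ℂ) ≠ 0 := by exact_mod_cast ht20.ne'
          push_cast
          field_simp
          ring
        rwa [h4] at h3
      apply hfr _ hKt
      intro hi
      rcases ht.1.eq_or_lt with h | h
      · rw [← h] at hi
        exact hfri _ ht1.2 hi
      · have hr0 : 0 < t1 / t := div_pos ht1.1 ht0
        have hr1 : t1 / t ≤ 1 := by rw [div_le_one ht0]; exact ht.1
        have hopen := AffineMap.homothety_isOpenMap O (t1 / t) hr0.ne' _ (isOpen_interior (s := K))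
        have hsub : AffineMap.homothety O (t1 / t) '' interior K ⊆ K := by
          rintro _ ⟨z, hz, rfl⟩
          rw [AffineMap.homothety_apply]
          have h3 := hs (interior_subset hz) (a := 1 - t1 / t) (b := t1 / t)
            (by linarith) hr0.le (by ring)
          convert h3 using 1
          simp only [vsub_eq_sub, vadd_eq_add, smul_sub, sub_smul, one_smul]
          ring
        have h5 := interior_maximal hsub hopen
        have h6 : AffineMap.homothety O (t1 / t) (O + (t : ℂ) * u) = O + (t1 : ℂ) * u := by
          rw [AffineMap.homothety_apply]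
          simp only [vsub_eq_sub, vadd_eq_add, add_sub_cancel_left, Complex.real_smul]
          have : (t : ℂ) ≠ 0 := by exact_mod_cast ht0.ne'
          push_cast
          field_simp
          ring
        have h7 := h5 ⟨_, hi, rfl⟩
        rw [h6] at h7
        exact hfri _ ht1.2 h7

end H828SS
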