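import Pool.Agent.H828R2.SS.QDefs

/-! Statements of the tasks of part 3 (explicit constants, star-shaped insides). -/

open Set Real

namespace H828SS

/-! ### Task X1 : XBound.lean -/

theorem wid_ge {x : ℝ} (hx : x ∈ Icc (-1 : ℝ) 1) {η : ℝ} (hη : 2 ≤ η) :
    3 / (η ^ 2 + 3) ≤ wid x η := by
  sorry

theorem wid_le2 {x : ℝ} (hx : x ∈ Icc (-1 : ℝ) 1) {η : ℝ} (hη : 2 ≤ η) :
    wid x η ≤ 4 / (η ^ 2 - 1) := by
  sorry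

theorem consts2 (m M : ℝ) (hm : 0 < m) (hmM : m ≤ M) :
    ∃ R c0 c1 : ℝ, 5 ≤ R ∧ R + 2 ≤ 13 / 2 * (M / m) ^ 2 + 1 ∧
      (∀ x ∈ Icc (-1 : ℝ) 1, ∀ η ∈ Icc (3 : ℝ) 4, c0 ≤ m ^ 2 / 2 * wid x η) ∧
      (∀ x ∈ Icc (-1 : ℝ) 1, M ^ 2 / 2 * wid x R < c0) ∧
      (∀ x ∈ Icc (-1 : ℝ) 1, ∀ η ∈ Icc (3 : ℝ) R, c1 ≤ m ^ 2 / 2 * wid x η) ∧
      (∀ x ∈ Icc (-1 : ℝ) 1, ∀ η ≥ 13 / 2 * (M / m) ^ 2, M ^ 2 / 2 * wid x η < c1) := by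
  sorry

/-! ### Task X2 : XRays.lean -/

theorem rays_of_starK (K : Set ℂ) (O : ℂ) (m M : ℝ) (hm : 0 < m) (hK : IsCompact K)
    (h1 : Metric.ball O m ⊆ K) (h2 : K ⊆ Metric.closedBall O M) (hs : StarConvex ℝ O K) :
    IsCompact (frontier K) ∧ (∀ z ∈ frontier K, m ≤ ‖z - O‖ ∧ ‖z - O‖ ≤ M) ∧
      ∀ u : ℂ, u ≠ 0 → {t : ℝ | 0 < t ∧ O + (t : ℂ) * u ∈ frontier K}.Nonempty ∧
        IsPreconnected {t : ℝ | 0 < t ∧ O + (t : ℂ) * u ∈ frontier K} := by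
  sorry

/-! ### Task X3 : XComp.lean -/

theorem frontier_comp (C : Set ℂ) (O : ℂ) (hC : IsClosed C) (m M : ℝ) (hm : 0 < m)
    (h1 : Metric.ball O m ⊆ connectedComponentIn Cᶜ O)
    (h2 : connectedComponentIn Cᶜ O ⊆ Metric.closedBall O M)
    (hs : StarConvex ℝ O (connectedComponentIn Cᶜ O)) :
    IsCompact (closure (connectedComponentIn Cᶜ O)) ∧
      Metric.ball O m ⊆ closure (connectedComponentIn Cᶜ O) ∧
      closure (connectedComponentIn Cᶜ O) ⊆ Metric.closedBall O M ∧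
      StarConvex ℝ O (closure (connectedComponentIn Cᶜ O)) ∧
      frontier (closure (connectedComponentIn Cᶜ O)) ⊆ C := by
  sorry

end H828SS
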